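import Mathlib

set_option autoImplicit false

open MeasureTheory Set Filter Topology Complex
open scoped FourierTransform ContDiff

namespace Pool.Agent.H629R3.Hex

noncomputable section

variable {Ω : Type} [MeasurableSpace Ω]

/-- superposition of complex exponentials, with formal derivatives -/
def Hf (μ : Measure Ω) (c om : Ω → ℂ) (j : ℕ) (v : ℝ) : ℂ :=
  ∫ w, c w * (2 * Real.pi * I * om w) ^ j * cexp (2 * Real.pi * I * om w * v) ∂μ

/-- admissible data -/
structure Adm (μ : Measure Ω) (c om : Ω → ℂ) (M : ℝ) : Prop where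
  mc : Measurable c
  mom : Measurable om
  pos : ∀ w, 0 < (om w).im
  bdd : ∀ w, ‖om w‖ ≤ M
  M0 : 0 ≤ M
  int : ∀ k : ℕ, Integrable (fun w => ‖c w‖ * ((om w).im)⁻¹ ^ k) μ

lemma norm_cexp (z : ℂ) (v : ℝ) :
    ‖cexp (2 * Real.pi * I * z * v)‖ = Real.exp (-(2 * Real.pi * z.im * v)) := by
  rw [Complex.norm_exp]
  congr 1
  simp

lemma norm_two_pi (z : ℂ) : ‖(2 * Real.pi * I * z : ℂ)‖ = 2 * Real.pi * ‖z‖ := by
  rw [norm_mul, norm_mul, norm_mul, Complex.norm_I, Complex.norm_real, Real.norm_eq_abs,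
    abs_of_pos Real.pi_pos]
  norm_num

variable {μ : Measure Ω} {c om : Ω → ℂ} {M : ℝ}

lemma Adm.intc (h : Adm μ c om M) : Integrable (fun w => ‖c w‖) μ := by
  have := h.int 0
  simpa using this

lemma Adm.meas (h : Adm μ c om M) (j : ℕ) (v : ℝ) :
    AEStronglyMeasurable (fun w => c w * (2 * Real.pi * I * om w) ^ j *
      cexp (2 * Real.pi * I * om w * v)) μ := by
  have h1 := h.mc
  have h2 := h.mom
  refine Measurable.aestronglyMeasurable ?_
  fun_prop

lemma Adm.norm_term_le (h : Adm μ c om M) (j : ℕ) (v : ℝ) (w : Ω) :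
    ‖c w * (2 * Real.pi * I * om w) ^ j * cexp (2 * Real.pi * I * om w * v)‖ ≤
      ‖c w‖ * (2 * Real.pi * M) ^ j * Real.exp (2 * Real.pi * M * |v|) := by
  rw [norm_mul, norm_mul, norm_pow, norm_cexp, norm_two_pi]
  have h1 : 2 * Real.pi * ‖om w‖ ≤ 2 * Real.pi * M := by
    have := h.bdd w
    have := Real.pi_pos
    gcongr
  have h2 : -(2 * Real.pi * (om w).im * v) ≤ 2 * Real.pi * M * |v| := by
    have e1 : |(om w).im| ≤ M := (Complex.abs_im_le_norm _).trans (h.bdd w)
    have e2 : |2 * Real.pi * (om w).im * v| ≤ 2 * Real.pi * M * |v| := by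
      rw [abs_mul, abs_mul, abs_mul, abs_two, abs_of_pos Real.pi_pos]
      gcongr
    exact (neg_le_abs _).trans e2
  have h3 := Real.exp_le_exp.2 h2
  have := h.M0
  gcongr

lemma Adm.integrable_term (h : Adm μ c om M) (j : ℕ) (v : ℝ) :
    Integrable (fun w => c w * (2 * Real.pi * I * om w) ^ j * cexp (2 * Real.pi * I * om w * v)) μ := by
  refine Integrable.mono' (g := fun w => ‖c w‖ * (2 * Real.pi * M) ^ j *
    Real.exp (2 * Real.pi * M * |v|)) ?_ (h.meas j v) (Eventually.of_forall (h.norm_term_le j v))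
  exact (h.intc.mul_const _).mul_const _

lemma Adm.hasDerivAt (h : Adm μ c om M) (j : ℕ) (v : ℝ) :
    HasDerivAt (Hf μ c om j) (Hf μ c om (j + 1) v) v := by
  unfold Hf
  refine (hasDerivAt_integral_of_dominated_loc_of_deriv_le (𝕜 := ℝ)
    (F := fun (v : ℝ) w => c w * (2 * Real.pi * I * om w) ^ j * cexp (2 * Real.pi * I * om w * v))
    (F' := fun (v : ℝ) w => c w * (2 * Real.pi * I * om w) ^ (j + 1) *
      cexp (2 * Real.pi * I * om w * v))
    (bound := fun w => ‖c w‖ * (2 * Real.pi * M) ^ (j + 1) *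
      Real.exp (2 * Real.pi * M * (|v| + 1)))
    (Metric.ball_mem_nhds v zero_lt_one) (Eventually.of_forall fun x => h.meas j x)
    (h.integrable_term j v) (h.meas (j + 1) v) ?_ ?_ ?_).2
  · refine Eventually.of_forall fun w x hx => ?_
    refine (h.norm_term_le (j + 1) x w).trans ?_
    rw [Metric.mem_ball, Real.dist_eq] at hx
    have h1 : |x| ≤ |v| + 1 := by
      have := abs_sub_abs_le_abs_sub x v
      linarith
    have := h.M0
    have := Real.pi_pos
    gcongr
  · exact (h.intc.mul_const _).mul_const _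
  · refine Eventually.of_forall fun w x _ => ?_
    have h1 : HasDerivAt (fun y : ℝ => (2 * Real.pi * I * om w * (y : ℂ))) (2 * Real.pi * I * om w) x := by
      have := (Complex.ofRealCLM.hasDerivAt (x := x)).const_mul (2 * Real.pi * I * om w)
      simpa using this
    have h2 := (h1.cexp).const_mul (c w * (2 * Real.pi * I * om w) ^ j)
    have e : c w * (2 * Real.pi * I * om w) ^ (j + 1) * cexp (2 * Real.pi * I * om w * x) =
        c w * (2 * Real.pi * I * om w) ^ j *
          (cexp (2 * Real.pi * I * om w * x) * (2 * Real.pi * I * om w)) := by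
      rw [pow_succ]; ring
    rw [e]
    exact h2

lemma Adm.contDiff_nat (h : Adm μ c om M) (n : ℕ) : ∀ j, ContDiff ℝ n (Hf μ c om j) := by
  induction n with
  | zero =>
    intro j
    have : Differentiable ℝ (Hf μ c om j) := fun v => (h.hasDerivAt j v).differentiableAt
    exact contDiff_zero.2 this.continuous
  | succ n ih =>
    intro j
    have e : deriv (Hf μ c om j) = Hf μ c om (j + 1) := funext fun v => (h.hasDerivAt j v).deriv
    have : Differentiable ℝ (Hf μ c om j) := fun v => (h.hasDerivAt j v).differentiableAt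
    push_cast
    rw [contDiff_succ_iff_deriv]
    refine ⟨this, ?_, ?_⟩
    · intro hn
      exact absurd hn (by simp)
    · rw [e]; exact ih (j + 1)

lemma Adm.contDiff (h : Adm μ c om M) : ContDiff ℝ ∞ (Hf μ c om 0) :=
  contDiff_infty.2 fun n => h.contDiff_nat n 0

lemma Adm.iteratedDeriv_eq (h : Adm μ c om M) (n : ℕ) :
    iteratedDeriv n (Hf μ c om 0) = Hf μ c om n := by
  induction n with
  | zero => rw [iteratedDeriv_zero]
  | succ n ih =>
    rw [iteratedDeriv_succ, ih]
    exact funext fun v => (h.hasDerivAt n v).deriv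

/-- decay of all derivatives on the positive half line -/
lemma Adm.decay (h : Adm μ c om M) (j k : ℕ) : ∃ C : ℝ, 0 ≤ C ∧ ∀ v : ℝ, 0 ≤ v →
    v ^ k * ‖Hf μ c om j v‖ ≤ C := by
  refine ⟨∫ w, (‖c w‖ * ((om w).im)⁻¹ ^ k) * ((2 * Real.pi * M) ^ j * (k.factorial : ℝ)) ∂μ, ?_,
    fun v hv => ?_⟩
  · refine integral_nonneg fun w => ?_
    have := h.pos w
    have := h.M0
    have := Real.pi_pos
    simp only [Pi.zero_apply]
    positivity
  · unfold Hf
    have hvk : 0 ≤ v ^ k := by positivity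
    calc v ^ k * ‖∫ w, c w * (2 * Real.pi * I * om w) ^ j * cexp (2 * Real.pi * I * om w * v) ∂μ‖
        = ‖∫ w, (v ^ k : ℂ) * (c w * (2 * Real.pi * I * om w) ^ j *
            cexp (2 * Real.pi * I * om w * v)) ∂μ‖ := by
          rw [integral_const_mul, norm_mul, norm_pow, Complex.norm_real, Real.norm_eq_abs,
            abs_of_nonneg hv]
      _ ≤ ∫ w, (‖c w‖ * ((om w).im)⁻¹ ^ k) * ((2 * Real.pi * M) ^ j * (k.factorial : ℝ)) ∂μ := by
          refine norm_integral_le_of_norm_le ((h.int k).mul_const _)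
            (Eventually.of_forall fun w => ?_)
          have hpos := h.pos w
          have hpi := Real.pi_pos
          rw [norm_mul, norm_pow, Complex.norm_real, Real.norm_eq_abs, abs_of_nonneg hv,
            norm_mul, norm_mul, norm_pow, norm_cexp, norm_two_pi]
          have h1 : (2 * Real.pi * ‖om w‖) ^ j ≤ (2 * Real.pi * M) ^ j := by
            have := h.bdd w
            gcongr
          have h2 : v ^ k * Real.exp (-(2 * Real.pi * (om w).im * v)) ≤
              ((om w).im)⁻¹ ^ k * (k.factorial : ℝ) := by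
            have h3 : 0 ≤ 2 * Real.pi * (om w).im * v := by positivity
            have h4 := Real.pow_div_factorial_le_exp _ h3 k
            have hf : (0 : ℝ) < k.factorial := by exact_mod_cast Nat.factorial_pos k
            rw [div_le_iff₀ hf] at h4
            have h5 : ((om w).im * v) ^ k ≤ (2 * Real.pi * (om w).im * v) ^ k := by
              have h6 : (1 : ℝ) ≤ 2 * Real.pi := by linarith [Real.pi_gt_three]
              have h7 : 0 ≤ (om w).im * v := by positivity
              refine pow_le_pow_left₀ h7 ?_ k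
              nlinarith
            rw [mul_pow] at h5
            rw [Real.exp_neg]
            have h8 : 0 < Real.exp (2 * Real.pi * (om w).im * v) := Real.exp_pos _
            have h9 : 0 < (om w).im ^ k := by positivity
            rw [inv_pow, ← div_eq_mul_inv, div_le_iff₀ h8, mul_assoc, inv_mul_eq_div,
              le_div_iff₀ h9]
            linarith
          have hc := norm_nonneg (c w)
          calc v ^ k * (‖c w‖ * (2 * Real.pi * ‖om w‖) ^ j *
              Real.exp (-(2 * Real.pi * (om w).im * v)))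
              = (‖c w‖ * (2 * Real.pi * ‖om w‖) ^ j) *
                (v ^ k * Real.exp (-(2 * Real.pi * (om w).im * v))) := by ring
            _ ≤ (‖c w‖ * (2 * Real.pi * M) ^ j) * (((om w).im)⁻¹ ^ k * (k.factorial : ℝ)) := by
                have := h.M0
                have h10 : 0 ≤ v ^ k * Real.exp (-(2 * Real.pi * (om w).im * v)) := by positivity
                exact mul_le_mul (mul_le_mul_of_nonneg_left h1 hc) h2 h10 (by positivity)
            _ = _ := by ring

/-- the plane -/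
abbrev V := EuclideanSpace ℝ (Fin 2)

/-- radial variable -/
def vq (x : V) : ℝ := (Real.sqrt 3 / 2) * ‖x‖ ^ 2

lemma vq_nonneg (x : V) : 0 ≤ vq x := by unfold vq; positivity

lemma vq_temperate : Function.HasTemperateGrowth vq := by
  have h1 : Function.HasTemperateGrowth (fun x : V => ‖x‖ ^ 2) :=
    Function.hasTemperateGrowth_norm_sq V
  have h2 : Function.HasTemperateGrowth (fun _ : V => Real.sqrt 3 / 2) :=
    Function.HasTemperateGrowth.const _
  exact h2.mul h1

lemma vq_upper (x : V) : 1 + ‖x‖ ≤ 4 * (1 + vq x) := by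
  unfold vq
  have h1 : (1 : ℝ) ≤ Real.sqrt 3 := by
    rw [Real.one_le_sqrt]; norm_num
  have h2 : 0 ≤ ‖x‖ := norm_nonneg x
  nlinarith [sq_nonneg (‖x‖ - 1), mul_nonneg (sub_nonneg.2 h1) (sq_nonneg ‖x‖)]

/-- A smooth function of one variable all of whose derivatives decay on the half line gives a
Schwartz function of `vq`. -/
lemma schwartz_decay {H : ℝ → ℂ} (hH : ContDiff ℝ ∞ H)
    (hdec : ∀ j k : ℕ, ∃ C : ℝ, 0 ≤ C ∧ ∀ v : ℝ, 0 ≤ v → v ^ k * ‖iteratedFDeriv ℝ j H v‖ ≤ C)
    (k n : ℕ) : ∃ C : ℝ, ∀ x : V, ‖x‖ ^ k * ‖iteratedFDeriv ℝ n (H ∘ vq) x‖ ≤ C := by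
  rcases vq_temperate.norm_iteratedFDeriv_le_uniform n with ⟨l, C, hC, hgrowth⟩
  -- combined decay of derivatives up to order n
  have hdec2 : ∀ K : ℕ, ∃ D : ℝ, 0 ≤ D ∧ ∀ i ≤ n, ∀ v : ℝ, 0 ≤ v →
      (1 + v) ^ K * ‖iteratedFDeriv ℝ i H v‖ ≤ D := by
    intro K
    choose C1 hC1 hC1' using fun i => hdec i 0
    choose C2 hC2 hC2' using fun i => hdec i K
    refine ⟨2 ^ K * ∑ i ∈ Finset.range (n + 1), (C1 i + C2 i), ?_, fun i hi v hv => ?_⟩
    · have : 0 ≤ ∑ i ∈ Finset.range (n + 1), (C1 i + C2 i) :=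
        Finset.sum_nonneg fun i _ => add_nonneg (hC1 i) (hC2 i)
      positivity
    · have h1 : (1 + v) ^ K ≤ 2 ^ K * (1 + v ^ K) := by
        rcases le_total v 1 with h | h
        · calc (1 + v) ^ K ≤ 2 ^ K := pow_le_pow_left₀ (by linarith) (by linarith) K
            _ ≤ 2 ^ K * (1 + v ^ K) := by
              have : 0 ≤ v ^ K := by positivity
              have h2 : (0 : ℝ) < 2 ^ K := by positivity
              nlinarith
        · calc (1 + v) ^ K ≤ (2 * v) ^ K := pow_le_pow_left₀ (by linarith) (by linarith) K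
            _ = 2 ^ K * v ^ K := mul_pow _ _ _
            _ ≤ 2 ^ K * (1 + v ^ K) := by
              have h2 : (0 : ℝ) < 2 ^ K := by positivity
              nlinarith
      have h2 : C1 i + C2 i ≤ ∑ i ∈ Finset.range (n + 1), (C1 i + C2 i) :=
        Finset.single_le_sum (f := fun i => C1 i + C2 i)
          (fun i _ => add_nonneg (hC1 i) (hC2 i)) (Finset.mem_range.2 (by omega))
      have h3 := hC1' i v hv
      have h4 := hC2' i v hv
      rw [pow_zero, one_mul] at h3
      have h5 := norm_nonneg (iteratedFDeriv ℝ i H v)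
      calc (1 + v) ^ K * ‖iteratedFDeriv ℝ i H v‖
          ≤ 2 ^ K * (1 + v ^ K) * ‖iteratedFDeriv ℝ i H v‖ := by gcongr
        _ = 2 ^ K * (‖iteratedFDeriv ℝ i H v‖ + v ^ K * ‖iteratedFDeriv ℝ i H v‖) := by ring
        _ ≤ 2 ^ K * (C1 i + C2 i) := by gcongr
        _ ≤ _ := by gcongr
  obtain ⟨D, hD, hD'⟩ := hdec2 (k + l * n)
  refine ⟨4 ^ (k + l * n) * ((n.factorial : ℝ) * D * (C + 1) ^ n), fun x => ?_⟩
  set K := k + l * n with hK
  have hv := vq_nonneg x
  have hpos : (0 : ℝ) < (1 + vq x) ^ K := by positivity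
  have hbound : ∀ i ≤ n, ‖iteratedFDeriv ℝ i H (vq x)‖ ≤ D / (1 + vq x) ^ K := by
    intro i hi
    rw [le_div_iff₀' hpos]
    exact hD' i hi _ hv
  have hgrowth' : ∀ N, 1 ≤ N → N ≤ n →
      ‖iteratedFDeriv ℝ N vq x‖ ≤ ((C + 1) * (1 + ‖x‖) ^ l) ^ N := by
    intro N hN₁ hN₂
    refine (hgrowth N hN₂ x).trans ?_
    rw [mul_pow]
    have hN₁' := (lt_of_lt_of_le zero_lt_one hN₁).ne'
    gcongr
    · exact le_trans (by simp) (le_self_pow₀ (by simp [hC]) hN₁')
    · refine le_self_pow₀ (one_le_pow₀ ?_) hN₁'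
      simp only [le_add_iff_nonneg_right, norm_nonneg]
  have hmain := norm_iteratedFDeriv_comp_le (N := ∞) hH vq_temperate.1 (mod_cast le_top) x
    hbound hgrowth'
  have hx0 := norm_nonneg x
  have hxk : ‖x‖ ^ k ≤ (1 + ‖x‖) ^ k := pow_le_pow_left₀ hx0 (by linarith) _
  have hxK : (1 + ‖x‖) ^ K ≤ 4 ^ K * (1 + vq x) ^ K := by
    rw [← mul_pow]
    exact pow_le_pow_left₀ (by positivity) (vq_upper x) K
  calc ‖x‖ ^ k * ‖iteratedFDeriv ℝ n (H ∘ vq) x‖
      ≤ (1 + ‖x‖) ^ k * ((n.factorial : ℝ) * (D / (1 + vq x) ^ K) *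
          ((C + 1) * (1 + ‖x‖) ^ l) ^ n) := by
        gcongr
    _ = (1 + ‖x‖) ^ K * (((n.factorial : ℝ) * D * (C + 1) ^ n) / (1 + vq x) ^ K) := by
        rw [hK, pow_add, mul_pow, ← pow_mul]
        ring
    _ ≤ (4 ^ K * (1 + vq x) ^ K) * (((n.factorial : ℝ) * D * (C + 1) ^ n) / (1 + vq x) ^ K) := by
        gcongr
    _ = _ := by
        field_simp

/-- The Schwartz function of the plane attached to admissible data. -/
def Adm.schwartz (h : Adm μ c om M) : SchwartzMap V ℂ where
  toFun := Hf μ c om 0 ∘ vq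
  smooth' := h.contDiff.comp vq_temperate.1
  decay' := by
    intro k n
    refine schwartz_decay h.contDiff (fun j k => ?_) k n
    obtain ⟨C, hC, hC'⟩ := h.decay j k
    refine ⟨C, hC, fun v hv => ?_⟩
    rw [norm_iteratedFDeriv_eq_norm_iteratedDeriv, h.iteratedDeriv_eq]
    exact hC' v hv

lemma Adm.schwartz_apply (h : Adm μ c om M) (x : V) : h.schwartz x = Hf μ c om 0 (vq x) := rfl

end

end Pool.Agent.H629R3.Hex
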