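import Mathlib
import Pool.Agent.H629R3.HexA

set_option autoImplicit false

open MeasureTheory Set Filter Topology Complex
open scoped FourierTransform RealInnerProductSpace

namespace Pool.Agent.H629R3.Hex

noncomputable section

variable {Ω : Type} [MeasurableSpace Ω]

/-- dual coefficient -/
def cd (c om : Ω → ℂ) (w : Ω) : ℂ := c w * (I / (Real.sqrt 3 * om w))

/-- dual frequency -/
def omd (om : Ω → ℂ) (w : Ω) : ℂ := -1 / (3 * om w)

variable {μ : Measure Ω} {c om : Ω → ℂ} {M : ℝ}

lemma Adm.om_ne (h : Adm μ c om M) (w : Ω) : om w ≠ 0 := by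
  intro h0
  have := h.pos w
  rw [h0] at this
  simp at this

lemma Adm.im_le (_h : Adm μ c om M) (w : Ω) : (om w).im ≤ ‖om w‖ :=
  (le_abs_self _).trans (Complex.abs_im_le_norm _)

lemma sqrt3_pos : 0 < Real.sqrt 3 := Real.sqrt_pos.2 (by norm_num)

lemma one_le_sqrt3 : (1 : ℝ) ≤ Real.sqrt 3 := by
  rw [Real.one_le_sqrt]; norm_num

lemma omd_im (om : Ω → ℂ) (w : Ω) : (omd om w).im = (om w).im / (3 * ‖om w‖ ^ 2) := by
  unfold omd
  rcases eq_or_ne (om w) 0 with h | h
  · rw [h]; simp
  rw [neg_div, Complex.neg_im, one_div, Complex.inv_im, Complex.normSq_mul, Complex.sq_norm]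
  have h3 : Complex.normSq 3 = 9 := by
    rw [show (3 : ℂ) = ((3 : ℝ) : ℂ) by norm_num, Complex.normSq_ofReal]; norm_num
  rw [h3]
  have : (3 * om w).im = 3 * (om w).im := by simp
  rw [this]
  have hn : Complex.normSq (om w) ≠ 0 := by rwa [Ne, Complex.normSq_eq_zero]
  field_simp
  ring

lemma cd_norm (h : Adm μ c om M) (w : Ω) : ‖cd c om w‖ ≤ ‖c w‖ * ((om w).im)⁻¹ := by
  unfold cd
  have h1 := h.pos w
  have h2 := h.im_le w
  rw [norm_mul, norm_div, Complex.norm_I, norm_mul, Complex.norm_real, Real.norm_eq_abs,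
    abs_of_pos sqrt3_pos]
  have h3 := one_le_sqrt3
  have h4 : (om w).im ≤ Real.sqrt 3 * ‖om w‖ := by nlinarith [norm_nonneg (om w)]
  have h5 : 1 / (Real.sqrt 3 * ‖om w‖) ≤ ((om w).im)⁻¹ := by
    rw [one_div]
    exact inv_anti₀ h1 h4
  gcongr

lemma omd_norm (h : Adm μ c om M) (w : Ω) : ‖omd om w‖ ≤ ((om w).im)⁻¹ := by
  unfold omd
  have h1 := h.pos w
  have h2 := h.im_le w
  rw [norm_div, norm_neg, norm_one, norm_mul, show ‖(3 : ℂ)‖ = 3 by norm_num, one_div]
  exact inv_anti₀ h1 (by linarith)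

lemma omd_im_pos (h : Adm μ c om M) (w : Ω) : 0 < (omd om w).im := by
  rw [omd_im]
  have h1 := h.pos w
  have h2 : 0 < ‖om w‖ := norm_pos_iff.2 (h.om_ne w)
  positivity

/-- derivative of the dual superposition at positive points -/
lemma Adm.dual_hasDerivAt (h : Adm μ c om M) {v : ℝ} (hv : 0 < v) :
    HasDerivAt (Hf μ (cd c om) (omd om) 0) (Hf μ (cd c om) (omd om) 1 v) v := by
  have hm1 : Measurable (cd c om) := by
    unfold cd
    exact h.mc.mul (measurable_const.div (measurable_const.mul h.mom))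
  have hm2 : Measurable (omd om) := by
    unfold omd
    exact measurable_const.div (measurable_const.mul h.mom)
  have hmeas : ∀ (j : ℕ) (x : ℝ), AEStronglyMeasurable (fun w => cd c om w *
      (2 * Real.pi * I * omd om w) ^ j * cexp (2 * Real.pi * I * omd om w * x)) μ := by
    intro j x
    refine Measurable.aestronglyMeasurable ?_
    fun_prop
  have hexp : ∀ w, ∀ x : ℝ, 0 ≤ x → ‖cexp (2 * Real.pi * I * omd om w * x)‖ ≤ 1 := by
    intro w x hx
    rw [norm_cexp, Real.exp_le_one_iff]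
    have := omd_im_pos h w
    have := Real.pi_pos
    simp only [Left.neg_nonpos_iff]
    positivity
  unfold Hf
  refine (hasDerivAt_integral_of_dominated_loc_of_deriv_le (𝕜 := ℝ)
    (F := fun (v : ℝ) w => cd c om w * (2 * Real.pi * I * omd om w) ^ 0 *
      cexp (2 * Real.pi * I * omd om w * v))
    (F' := fun (v : ℝ) w => cd c om w * (2 * Real.pi * I * omd om w) ^ 1 *
      cexp (2 * Real.pi * I * omd om w * v))
    (bound := fun w => (‖c w‖ * ((om w).im)⁻¹ ^ 2) * (2 * Real.pi))
    (Metric.ball_mem_nhds v hv) (Eventually.of_forall fun x => hmeas 0 x)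
    ?_ (hmeas 1 v) ?_ ?_ ?_).2
  · refine Integrable.mono' (h.int 1) (hmeas 0 v) (Eventually.of_forall fun w => ?_)
    rw [norm_mul, norm_mul, pow_zero, norm_one, mul_one, pow_one]
    have h1 := cd_norm h w
    have h2 := hexp w v hv.le
    have h3 : 0 ≤ ‖c w‖ * ((om w).im)⁻¹ := (norm_nonneg _).trans h1
    calc ‖cd c om w‖ * ‖cexp (2 * Real.pi * I * omd om w * v)‖
        ≤ (‖c w‖ * ((om w).im)⁻¹) * 1 := mul_le_mul h1 h2 (norm_nonneg _) h3
      _ = _ := mul_one _
  · refine Eventually.of_forall fun w x hx => ?_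
    rw [Metric.mem_ball, Real.dist_eq, abs_lt] at hx
    rw [norm_mul, norm_mul, pow_one, norm_two_pi]
    have h1 := cd_norm h w
    have h2 := hexp w x (by linarith)
    have h3 : 0 ≤ ‖c w‖ * ((om w).im)⁻¹ := (norm_nonneg _).trans h1
    have h4 := omd_norm h w
    have h5 := Real.pi_pos
    have h6 : 0 ≤ ((om w).im)⁻¹ := (norm_nonneg _).trans h4
    calc ‖cd c om w‖ * (2 * Real.pi * ‖omd om w‖) * ‖cexp (2 * Real.pi * I * omd om w * x)‖
        ≤ (‖c w‖ * ((om w).im)⁻¹) * (2 * Real.pi * ((om w).im)⁻¹) * 1 := by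
          refine mul_le_mul (mul_le_mul h1 (by gcongr) (by positivity) h3) h2 (norm_nonneg _) ?_
          positivity
      _ = _ := by ring
  · exact (h.int 2).mul_const _
  · refine Eventually.of_forall fun w x _ => ?_
    have h1 : HasDerivAt (fun y : ℝ => (2 * Real.pi * I * omd om w * (y : ℂ)))
        (2 * Real.pi * I * omd om w) x := by
      have := (Complex.ofRealCLM.hasDerivAt (x := x)).const_mul (2 * Real.pi * I * omd om w)
      simpa using this
    have h2 := (h1.cexp).const_mul (cd c om w * (2 * Real.pi * I * omd om w) ^ 0)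
    have e : cd c om w * (2 * Real.pi * I * omd om w) ^ 1 * cexp (2 * Real.pi * I * omd om w * x) =
        cd c om w * (2 * Real.pi * I * omd om w) ^ 0 *
          (cexp (2 * Real.pi * I * omd om w * x) * (2 * Real.pi * I * omd om w)) := by
      ring
    rw [e]
    exact h2

lemma finrank_V : Module.finrank ℝ V = 2 := by simp [V]

/-- Fourier transform of a single Gaussian of complex frequency -/
lemma gauss_fourier {z : ℂ} (hz : 0 < z.im) (ξ : V) :
    𝓕 (fun x : V => cexp (2 * Real.pi * I * z * (vq x : ℝ))) ξ =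
      (I / (Real.sqrt 3 * z)) * cexp (2 * Real.pi * I * (-1 / (3 * z)) * (vq ξ : ℝ)) := by
  have hz0 : z ≠ 0 := by rintro rfl; simp at hz
  have h3 : (Real.sqrt 3 : ℂ) ≠ 0 := by exact_mod_cast sqrt3_pos.ne'
  have hpi : (Real.pi : ℂ) ≠ 0 := by exact_mod_cast Real.pi_ne_zero
  have hs : (Real.sqrt 3 : ℂ) ^ 2 = 3 := by
    rw [← Complex.ofReal_pow, Real.sq_sqrt (by norm_num)]; norm_num
  set b : ℂ := -(Real.pi * Real.sqrt 3 * I * z) with hb
  have hbre : 0 < b.re := by
    have : b.re = Real.pi * Real.sqrt 3 * z.im := by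
      rw [hb]; simp
    rw [this]
    have := sqrt3_pos
    have := Real.pi_pos
    positivity
  have e1 : (fun x : V => cexp (2 * Real.pi * I * z * (vq x : ℝ))) =
      fun x : V => cexp (-b * ‖x‖ ^ 2) := by
    funext x
    congr 1
    rw [hb]
    unfold vq
    push_cast
    ring
  rw [e1, fourier_gaussian_innerProductSpace hbre ξ, finrank_V]
  have e2 : ((2 : ℕ) / 2 : ℂ) = 1 := by norm_num
  rw [e2, Complex.cpow_one]
  have e3 : (Real.pi : ℂ) / b = I / (Real.sqrt 3 * z) := by
    rw [hb]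
    field_simp
    rw [Complex.I_sq]
    try ring
  have e4 : -(Real.pi : ℂ) ^ 2 * ‖ξ‖ ^ 2 / b = 2 * Real.pi * I * (-1 / (3 * z)) * (vq ξ : ℝ) := by
    rw [hb]
    unfold vq
    push_cast
    field_simp
    rw [show (I : ℂ) ^ 2 = -1 from Complex.I_sq, hs]
    ring
  rw [e3, e4]

/-- Fourier transform of the superposition -/
lemma Adm.fourier_eq [SFinite μ] (h : Adm μ c om M) (ξ : V) :
    𝓕 (h.schwartz : V → ℂ) ξ = Hf μ (cd c om) (omd om) 0 (vq ξ) := by
  have hsw : ∀ x : V, cexp ((-2 * Real.pi * ⟪x, ξ⟫ : ℝ) * I) • (h.schwartz x) =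
      ∫ w, cexp ((-2 * Real.pi * ⟪x, ξ⟫ : ℝ) * I) * (c w *
        cexp (2 * Real.pi * I * om w * (vq x : ℝ))) ∂μ := by
    intro x
    rw [h.schwartz_apply, Hf, smul_eq_mul, ← integral_const_mul]
    congr 1
    funext w
    rw [pow_zero, mul_one]
  rw [Real.fourier_eq']
  simp_rw [hsw]
  have hmc := h.mc
  have hmom := h.mom
  have hvq : Measurable vq := vq_temperate.1.continuous.measurable
  have hmeas : Measurable (fun p : V × Ω => cexp ((-2 * Real.pi * ⟪p.1, ξ⟫ : ℝ) * I) * (c p.2 *
        cexp (2 * Real.pi * I * om p.2 * (vq p.1 : ℝ)))) := by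
    have h1 : Measurable (fun p : V × Ω => (⟪p.1, ξ⟫ : ℝ)) :=
      (continuous_id.inner continuous_const).measurable.comp measurable_fst
    have h2 : Measurable (fun p : V × Ω => vq p.1) := hvq.comp measurable_fst
    have h3 : Measurable (fun p : V × Ω => om p.2) := hmom.comp measurable_snd
    have h4 : Measurable (fun p : V × Ω => c p.2) := hmc.comp measurable_snd
    have h5 : Measurable (fun p : V × Ω => ((-2 * Real.pi * ⟪p.1, ξ⟫ : ℝ) : ℂ)) :=
      Complex.measurable_ofReal.comp (h1.const_mul _)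
    have h6 : Measurable (fun p : V × Ω => (vq p.1 : ℂ)) := Complex.measurable_ofReal.comp h2
    exact (Complex.measurable_exp.comp (h5.mul_const _)).mul
      (h4.mul (Complex.measurable_exp.comp ((h3.const_mul _).mul h6)))
  have hnorm : ∀ (x : V) (w : Ω), ‖cexp ((-2 * Real.pi * ⟪x, ξ⟫ : ℝ) * I) * (c w *
        cexp (2 * Real.pi * I * om w * (vq x : ℝ)))‖ =
        ‖c w‖ * Real.exp (-(Real.pi * Real.sqrt 3 * (om w).im) * ‖x‖ ^ 2) := by
    intro x w
    rw [norm_mul, norm_mul, Complex.norm_exp_ofReal_mul_I, one_mul, norm_cexp]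
    congr 2
    unfold vq
    ring
  have hpos : ∀ w, 0 < Real.pi * Real.sqrt 3 * (om w).im := by
    intro w
    have := h.pos w
    have := sqrt3_pos
    have := Real.pi_pos
    positivity
  have hgi : ∀ w, Integrable (fun x : V =>
      Real.exp (-(Real.pi * Real.sqrt 3 * (om w).im) * ‖x‖ ^ 2)) := by
    intro w
    by_contra hc
    have := GaussianFourier.integral_rexp_neg_mul_sq_norm (V := V) (hpos w)
    rw [integral_undef hc, finrank_V] at this
    have h2 : (0 : ℝ) < (Real.pi / (Real.pi * Real.sqrt 3 * (om w).im)) ^ (((2 : ℕ) : ℝ) / 2) := by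
      have := hpos w
      have := Real.pi_pos
      positivity
    linarith
  have hint : Integrable (Function.uncurry fun (x : V) (w : Ω) =>
      cexp ((-2 * Real.pi * ⟪x, ξ⟫ : ℝ) * I) * (c w *
        cexp (2 * Real.pi * I * om w * (vq x : ℝ)))) (volume.prod μ) := by
    change Integrable (fun p : V × Ω => cexp ((-2 * Real.pi * ⟪p.1, ξ⟫ : ℝ) * I) * (c p.2 *
        cexp (2 * Real.pi * I * om p.2 * (vq p.1 : ℝ)))) (volume.prod μ)
    rw [integrable_prod_iff' hmeas.aestronglyMeasurable]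
    refine ⟨Eventually.of_forall fun w => ?_, ?_⟩
    · refine Integrable.mono' ((hgi w).const_mul ‖c w‖) ?_ (Eventually.of_forall fun x => ?_)
      · exact (hmeas.comp (measurable_id.prodMk measurable_const)).aestronglyMeasurable
      · exact (hnorm x w).le
    · simp_rw [hnorm, integral_const_mul]
      have e : ∀ w, ∫ x : V, Real.exp (-(Real.pi * Real.sqrt 3 * (om w).im) * ‖x‖ ^ 2) =
          (Real.sqrt 3)⁻¹ * ((om w).im)⁻¹ := by
        intro w
        rw [GaussianFourier.integral_rexp_neg_mul_sq_norm (hpos w), finrank_V]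
        have e2 : (((2 : ℕ) : ℝ) / 2) = 1 := by norm_num
        rw [e2, Real.rpow_one]
        have := h.pos w
        have := sqrt3_pos
        have := Real.pi_pos
        field_simp
      simp_rw [e]
      have := (h.int 1).const_mul (Real.sqrt 3)⁻¹
      refine this.congr (Eventually.of_forall fun w => ?_)
      simp only [pow_one]
      ring
  rw [integral_integral_swap hint]
  unfold Hf
  refine integral_congr_ae (Eventually.of_forall fun w => ?_)
  simp only [pow_zero, mul_one]
  have hg := gauss_fourier (h.pos w) ξ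
  rw [Real.fourier_eq'] at hg
  have e5 : ∫ x : V, cexp ((-2 * Real.pi * ⟪x, ξ⟫ : ℝ) * I) * (c w *
        cexp (2 * Real.pi * I * om w * (vq x : ℝ))) =
      c w * ∫ x : V, cexp ((-2 * Real.pi * ⟪x, ξ⟫ : ℝ) * I) •
        cexp (2 * Real.pi * I * om w * (vq x : ℝ)) := by
    rw [← integral_const_mul]
    congr 1
    funext x
    rw [smul_eq_mul]
    ring
  rw [e5, hg]
  unfold cd omd
  ring

end

end Pool.Agent.H629R3.Hex
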