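import Mathlib

set_option autoImplicit false

open Set Filter Topology Complex

namespace Pool.Agent.H629R3.Hex

noncomputable section

/-- residues mod 24 -/
def S24 : Finset ℕ := {0, 1, 2, 3, 4, 7, 9, 12, 13, 15, 16, 19, 21}

/-- nodes -/
def Node (n : ℕ) : Prop := n % 24 ∈ S24

instance (n : ℕ) : Decidable (Node n) := by unfold Node; infer_instance

/-- base exponential -/
def e24 (v : ℝ) : ℂ := cexp (2 * Real.pi * I / 24 * v)

lemma e24_add (v w : ℝ) : e24 (v + w) = e24 v * e24 w := by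
  unfold e24; rw [← Complex.exp_add]; congr 1; push_cast; ring

lemma e24_24 : e24 24 = 1 := by
  unfold e24
  rw [show (2 * Real.pi * I / 24 * ((24 : ℝ) : ℂ)) = 2 * Real.pi * I by push_cast; ring]
  exact Complex.exp_two_pi_mul_I

lemma e24_nat_mul (k : ℕ) : e24 (24 * k) = 1 := by
  unfold e24
  rw [show (2 * Real.pi * I / 24 * ((24 * (k : ℝ) : ℝ) : ℂ)) = k * (2 * Real.pi * I) by
    push_cast; ring]
  exact Complex.exp_nat_mul_two_pi_mul_I k

lemma e24_mod (n : ℕ) : e24 (n : ℝ) = e24 ((n % 24 : ℕ) : ℝ) := by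
  conv_lhs => rw [← Nat.div_add_mod n 24]
  push_cast
  rw [e24_add, e24_nat_mul, one_mul]

lemma e24_ne (a b : ℕ) (ha : a < 24) (hb : b < 24) (hab : a ≠ b) : e24 a ≠ e24 b := by
  intro h
  unfold e24 at h
  rw [Complex.exp_eq_exp_iff_exists_int] at h
  obtain ⟨k, hk⟩ := h
  have h2 : (2 * Real.pi * I : ℂ) ≠ 0 := Complex.two_pi_I_ne_zero
  have h3 : (a : ℂ) = b + 24 * k := by
    have : (2 * Real.pi * I : ℂ) * ((a : ℂ) / 24) = (2 * Real.pi * I) * ((b : ℂ) / 24 + k) := by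
      push_cast at hk
      linear_combination hk
    have := mul_left_cancel₀ h2 this
    linear_combination 24 * this
  have h4 : (a : ℤ) = b + 24 * k := by exact_mod_cast h3
  omega

/-- the polynomial with double roots at the residues -/
def Q : Polynomial ℂ := ∏ a ∈ S24, (Polynomial.X - Polynomial.C (e24 a)) ^ 2

lemma Q_natDegree : Q.natDegree < 27 := by
  unfold Q
  have h1 : ∀ a ∈ S24, ((Polynomial.X - Polynomial.C (e24 a)) ^ 2 : Polynomial ℂ).natDegree ≤ 2 := by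
    intro a _
    rw [Polynomial.natDegree_pow, Polynomial.natDegree_X_sub_C]
  have h2 := Polynomial.natDegree_prod_le S24
    (fun a : ℕ => ((Polynomial.X - Polynomial.C (e24 a)) ^ 2 : Polynomial ℂ))
  have h3 := Finset.sum_le_sum h1
  have h4 : ∑ _a ∈ S24, 2 = 26 := by decide
  rw [h4] at h3
  exact lt_of_le_of_lt (h2.trans h3) (by norm_num)

/-- coefficients and frequencies -/
def qc (j : Fin 27) : ℂ := Q.coeff j

/-- frequency -/
def tau (j : Fin 27) : ℝ := ((j : ℝ) - 13) / 24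

/-- `2 π i τ_j` -/
def ac (j : Fin 27) : ℂ := 2 * Real.pi * I * (tau j : ℝ)

/-- trigonometric polynomial with formal derivatives -/
def P (k : ℕ) (v : ℝ) : ℂ := ∑ j : Fin 27, qc j * ac j ^ k * cexp (ac j * v)

lemma P_zero_eq (v : ℝ) : P 0 v = cexp (-(2 * Real.pi * I * 13 / 24 * v)) * Q.eval (e24 v) := by
  rw [Polynomial.eval_eq_sum_range' Q_natDegree, Finset.mul_sum, ← Fin.sum_univ_eq_sum_range
    (fun i => cexp (-(2 * Real.pi * I * 13 / 24 * v)) * (Q.coeff i * e24 v ^ i)) 27]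
  unfold P
  refine Finset.sum_congr rfl (fun j _ => ?_)
  unfold qc ac tau e24
  rw [pow_zero, mul_one, ← Complex.exp_nat_mul]
  have : cexp (2 * Real.pi * I * ((((j : ℕ) : ℝ) - 13) / 24 : ℝ) * v) =
      cexp (-(2 * Real.pi * I * 13 / 24 * v)) * cexp (((j : ℕ) : ℂ) * (2 * Real.pi * I / 24 * v)) := by
    rw [← Complex.exp_add]; congr 1; push_cast; ring
  rw [this]
  ring

lemma P_hasDerivAt (k : ℕ) (v : ℝ) : HasDerivAt (P k) (P (k + 1) v) v := by
  unfold P
  refine HasDerivAt.fun_sum (fun j _ => ?_)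
  have h1 : HasDerivAt (fun y : ℝ => (ac j * (y : ℂ))) (ac j) v := by
    have := (Complex.ofRealCLM.hasDerivAt (x := v)).const_mul (ac j)
    simpa using this
  have h2 := (h1.cexp).const_mul (qc j * ac j ^ k)
  have e : qc j * ac j ^ (k + 1) * cexp (ac j * v) =
      qc j * ac j ^ k * (cexp (ac j * v) * ac j) := by rw [pow_succ]; ring
  rw [e]
  exact h2

/-- the cofactor at a node -/
def G (n : ℕ) (v : ℝ) : ℂ :=
  cexp (-(2 * Real.pi * I * 13 / 24 * v)) * ∏ a ∈ S24.erase (n % 24), (e24 v - e24 a) ^ 2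

lemma P_factor {n : ℕ} (hn : Node n) (v : ℝ) : P 0 v = (e24 v - e24 n) ^ 2 * G n v := by
  rw [P_zero_eq]
  unfold Q G
  rw [Polynomial.eval_prod, ← Finset.mul_prod_erase S24 _ hn]
  simp only [Polynomial.eval_pow, Polynomial.eval_sub, Polynomial.eval_X, Polynomial.eval_C]
  rw [← e24_mod n]
  ring

lemma G_ne (n : ℕ) : G n n ≠ 0 := by
  unfold G
  refine mul_ne_zero (Complex.exp_ne_zero _) (Finset.prod_ne_zero_iff.2 fun a ha => ?_)
  refine pow_ne_zero _ (sub_ne_zero.2 ?_)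
  rw [e24_mod n]
  have h1 := Finset.mem_erase.1 ha
  have h2 : a < 24 := by
    have : ∀ a ∈ S24, a < 24 := by decide
    exact this a h1.2
  exact e24_ne _ _ (Nat.mod_lt _ (by norm_num)) h2 (Ne.symm h1.1)

lemma e24_contDiff : ContDiff ℝ 2 e24 := by
  unfold e24
  have h : ContDiff ℝ 2 (fun v : ℝ => 2 * Real.pi * I / 24 * (v : ℂ)) :=
    contDiff_const.mul Complex.ofRealCLM.contDiff
  exact h.cexp

lemma e24_hasDerivAt (v : ℝ) : HasDerivAt e24 (2 * Real.pi * I / 24 * e24 v) v := by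
  have h1 : HasDerivAt (fun y : ℝ => (2 * Real.pi * I / 24 * (y : ℂ))) (2 * Real.pi * I / 24) v := by
    have := (Complex.ofRealCLM.hasDerivAt (x := v)).const_mul (2 * Real.pi * I / 24)
    simpa using this
  have h2 := h1.cexp
  have e : 2 * Real.pi * I / 24 * e24 v =
      cexp (2 * Real.pi * I / 24 * (v : ℂ)) * (2 * Real.pi * I / 24) := by
    unfold e24; ring
  rw [e]
  exact h2

lemma G_contDiff (n : ℕ) : ContDiff ℝ 2 (G n) := by
  unfold G
  have h : ContDiff ℝ 2 (fun v : ℝ => -(2 * Real.pi * I * 13 / 24 * (v : ℂ))) :=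
    (contDiff_const.mul Complex.ofRealCLM.contDiff).neg
  refine h.cexp.mul (contDiff_prod fun a _ => ?_)
  exact (e24_contDiff.sub contDiff_const).pow 2

lemma P1_factor {n : ℕ} (hn : Node n) (v : ℝ) :
    P 1 v = (e24 v - e24 n) * (2 * (2 * Real.pi * I / 24 * e24 v) * G n v +
      (e24 v - e24 n) * deriv (G n) v) := by
  have hG : DifferentiableAt ℝ (G n) v := (G_contDiff n).differentiable (by norm_num) v
  have h1 := ((e24_hasDerivAt v).sub_const (e24 n)).pow 2
  have h2 := h1.mul hG.hasDerivAt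
  have h3 : HasDerivAt (P 0) (P 1 v) v := P_hasDerivAt 0 v
  have h4 : P 0 = fun v => (e24 v - e24 n) ^ 2 * G n v := funext (P_factor hn)
  rw [h4] at h3
  have h5 := h3.unique h2
  rw [h5]
  simp only [Nat.cast_ofNat, Nat.add_one_sub_one, pow_one, Pi.pow_apply]
  ring

lemma P0_node {n : ℕ} (hn : Node n) : P 0 n = 0 := by
  rw [P_factor hn, sub_self]; ring

lemma P1_node {n : ℕ} (hn : Node n) : P 1 n = 0 := by
  rw [P1_factor hn, sub_self]; ring

lemma P2_node_ne {n : ℕ} (hn : Node n) : P 2 n ≠ 0 := by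
  have hG : DifferentiableAt ℝ (G n) n := (G_contDiff n).differentiable (by norm_num) n
  have hG2 : DifferentiableAt ℝ (deriv (G n)) n := by
    have : ContDiff ℝ 1 (deriv (G n)) := by
      have := (G_contDiff n)
      rw [show (2 : WithTop ℕ∞) = 1 + 1 by norm_num, contDiff_succ_iff_deriv] at this
      exact this.2.2
    exact this.differentiable (by norm_num) n
  have h0 := (e24_hasDerivAt n).sub_const (e24 n)
  have h1 : HasDerivAt (fun v => 2 * (2 * Real.pi * I / 24 * e24 v) * G n v +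
      (e24 v - e24 n) * deriv (G n) v) _ n :=
    ((((e24_hasDerivAt n).const_mul (2 * Real.pi * I / 24)).const_mul 2).mul hG.hasDerivAt).add
      (h0.mul hG2.hasDerivAt)
  have h2 := h0.mul h1
  have h3 : HasDerivAt (P 1) (P 2 n) n := P_hasDerivAt 1 n
  have h4 : P 1 = fun v => (e24 v - e24 n) * (2 * (2 * Real.pi * I / 24 * e24 v) * G n v +
      (e24 v - e24 n) * deriv (G n) v) := funext (P1_factor hn)
  rw [h4] at h3
  have h5 := h3.unique h2
  rw [h5]
  simp only [sub_self, zero_mul, add_zero]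
  have hpi : (2 * Real.pi * I / 24 : ℂ) ≠ 0 :=
    div_ne_zero Complex.two_pi_I_ne_zero (by norm_num)
  have he : e24 n ≠ 0 := Complex.exp_ne_zero _
  exact mul_ne_zero (mul_ne_zero hpi he)
    (mul_ne_zero (mul_ne_zero two_ne_zero (mul_ne_zero hpi he)) (G_ne n))

lemma exp_ac_mod (j : Fin 27) (n : ℕ) :
    cexp (ac j * (n : ℝ)) = cexp (ac j * ((n % 24 : ℕ) : ℝ)) := by
  rw [Complex.exp_eq_exp_iff_exists_int]
  obtain ⟨q, hq⟩ : ∃ q : ℕ, q = n / 24 := ⟨_, rfl⟩
  refine ⟨((j : ℕ) - 13 : ℤ) * (q : ℤ), ?_⟩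
  unfold ac tau
  have h : (n : ℂ) = 24 * (q : ℂ) + ((n % 24 : ℕ) : ℂ) := by
    rw [hq]
    exact_mod_cast (Nat.div_add_mod n 24).symm
  generalize hr : n % 24 = r at h
  push_cast
  rw [h]
  ring

lemma P_mod (k n : ℕ) : P k n = P k ((n % 24 : ℕ) : ℝ) := by
  unfold P
  refine Finset.sum_congr rfl fun j _ => ?_
  rw [exp_ac_mod]

lemma P2_lower : ∃ c0 : ℝ, 0 < c0 ∧ ∀ n : ℕ, Node n → c0 ≤ ‖P 2 n / 2‖ := by
  have hne : S24.Nonempty := ⟨0, by decide⟩
  obtain ⟨a, ha, hmin⟩ := S24.exists_min_image (fun a : ℕ => ‖P 2 (a : ℝ) / 2‖) hne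
  have ha' : Node a := by
    have : ∀ a ∈ S24, Node a := by decide
    exact this a ha
  refine ⟨‖P 2 (a : ℝ) / 2‖, norm_pos_iff.2 (div_ne_zero (P2_node_ne ha') two_ne_zero),
    fun n hn => ?_⟩
  rw [P_mod 2 n]
  exact hmin _ hn

lemma ac_norm (j : Fin 27) : ‖ac j‖ ≤ 4 := by
  unfold ac tau
  rw [norm_mul, norm_mul, norm_mul, Complex.norm_I, Complex.norm_real, Complex.norm_real,
    Real.norm_eq_abs, Real.norm_eq_abs, abs_of_pos Real.pi_pos, abs_div]
  have h1 : |((j : ℕ) : ℝ) - 13| ≤ 13 := by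
    have h2 : ((j : ℕ) : ℝ) ≤ 26 := by
      have := j.is_lt
      exact_mod_cast (by omega : (j : ℕ) ≤ 26)
    have h3 : (0 : ℝ) ≤ ((j : ℕ) : ℝ) := Nat.cast_nonneg _
    rw [abs_le]; constructor <;> linarith
  have hpi := Real.pi_lt_d2
  have hpi0 := Real.pi_pos
  norm_num
  nlinarith

lemma tau_abs (j : Fin 27) : |tau j| ≤ 13 / 24 := by
  unfold tau
  rw [abs_div]
  have h1 : |((j : ℕ) : ℝ) - 13| ≤ 13 := by
    have h2 : ((j : ℕ) : ℝ) ≤ 26 := by
      have := j.is_lt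
      exact_mod_cast (by omega : (j : ℕ) ≤ 26)
    have h3 : (0 : ℝ) ≤ ((j : ℕ) : ℝ) := Nat.cast_nonneg _
    rw [abs_le]; constructor <;> linarith
  norm_num
  linarith

/-- uniform bound for the derivatives at nodes -/
lemma P_bound (k : ℕ) (n : ℕ) : ‖P k n‖ ≤ (∑ j : Fin 27, ‖qc j‖) * 4 ^ k := by
  unfold P
  rw [Finset.sum_mul]
  refine (norm_sum_le _ _).trans (Finset.sum_le_sum fun j _ => ?_)
  rw [norm_mul, norm_mul, norm_pow]
  have h1 : ‖cexp (ac j * (n : ℝ))‖ = 1 := by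
    unfold ac
    rw [show (2 * Real.pi * I * (tau j : ℝ) * (n : ℝ) : ℂ) =
      ((2 * Real.pi * tau j * n : ℝ) : ℂ) * I by push_cast; ring]
    exact Complex.norm_exp_ofReal_mul_I _
  rw [h1, mul_one]
  have := ac_norm j
  gcongr

end

end Pool.Agent.H629R3.Hex
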