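import Mathlib
import Pool.Agent.H629R3.HexB
import Pool.Agent.H629R3.HexC

set_option autoImplicit false

open MeasureTheory Set Filter Topology Complex

namespace Pool.Agent.H629R3.Hex

noncomputable section

/-- `√(n+1)` -/
def sn (n : ℕ) : ℝ := Real.sqrt (n + 1)

lemma sn_pos (n : ℕ) : 0 < sn n := Real.sqrt_pos.2 (by positivity)

lemma one_le_sn (n : ℕ) : 1 ≤ sn n := by
  unfold sn; rw [Real.one_le_sqrt]; linarith [(Nat.cast_nonneg n : (0 : ℝ) ≤ n)]

lemma sn_sq (n : ℕ) : sn n ^ 2 = n + 1 := Real.sq_sqrt (by positivity)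

/-- summability of stretched exponentials -/
lemma summ {δ : ℝ} (hδ : 0 < δ) (k : ℕ) :
    Summable (fun n : ℕ => Real.exp (-(δ * sn n)) * sn n ^ k) := by
  have hs : Summable (fun n : ℕ => (((k + 4).factorial : ℝ) / δ ^ (k + 4)) *
      (1 / ((n : ℝ) + 1) ^ 2)) := by
    refine Summable.mul_left _ ?_
    have := (summable_nat_add_iff 1).2 (Real.summable_one_div_nat_pow.2 (by norm_num : 1 < 2))
    refine this.congr (fun n => ?_)
    push_cast; rfl
  refine Summable.of_nonneg_of_le (fun n => ?_) (fun n => ?_) hs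
  · have := sn_pos n; positivity
  · have h0 := sn_pos n
    have h1 := Real.pow_div_factorial_le_exp (δ * sn n) (by positivity) (k + 4)
    have hf : (0 : ℝ) < (k + 4).factorial := by exact_mod_cast Nat.factorial_pos _
    rw [div_le_iff₀ hf, mul_pow] at h1
    have h2 : ((n : ℝ) + 1) ^ 2 = sn n ^ 4 := by
      rw [← sn_sq]; ring
    rw [h2, Real.exp_neg, div_mul_div_comm, mul_one, inv_mul_eq_div,
      div_le_div_iff₀ (Real.exp_pos _) (by positivity)]
    calc sn n ^ k * (δ ^ (k + 4) * sn n ^ 4) = δ ^ (k + 4) * sn n ^ (k + 4) := by ring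
      _ ≤ Real.exp (δ * sn n) * ((k + 4).factorial : ℝ) := h1
      _ = _ := by ring

/-- damping -/
def eta (n : ℕ) : ℝ := 1 / (2 * Real.pi * sn n)

lemma eta_pos (n : ℕ) : 0 < eta n := by
  unfold eta
  have := sn_pos n
  have := Real.pi_pos
  positivity

lemma two_pi_eta (n : ℕ) : 2 * Real.pi * eta n = 1 / sn n := by
  unfold eta
  have := (sn_pos n).ne'
  have := Real.pi_ne_zero
  field_simp

/-- clamp -/
def cl (r : ℝ) : ℝ := max 0 (min r 1)

lemma cl_mem (r : ℝ) : 0 ≤ cl r ∧ cl r ≤ 1 :=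
  ⟨le_max_left _ _, max_le zero_le_one (min_le_right _ _)⟩

lemma cl_eq {r : ℝ} (h : r ∈ Icc (0 : ℝ) 1) : cl r = r := by
  unfold cl; rw [min_eq_left h.2, max_eq_right h.1]

/-- parameter space of one block -/
abbrev B := Fin 27 × ℝ

/-- frequencies of block `n` -/
def ob (n : ℕ) (w : B) : ℂ := ((cl w.2 * tau w.1 : ℝ) : ℂ) + (eta n : ℝ) * I

/-- coefficients of block `n` with data `y` -/
def cb (n : ℕ) (y : ℂ × ℂ) (w : B) : ℂ :=
  qc w.1 * cexp (ac w.1 * (n : ℝ)) * (ac w.1 ^ 2 * (1 - cl w.2) * y.1 + ac w.1 * y.2) *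
    cexp (-(2 * Real.pi * I * ob n w * (n : ℝ)))

/-- block measure -/
def nu : Measure B := (Measure.count : Measure (Fin 27)).prod (volume.restrict (Ioc (0 : ℝ) 1))

instance : IsFiniteMeasure nu := by unfold nu; infer_instance

lemma ob_im (n : ℕ) (w : B) : (ob n w).im = eta n := by
  unfold ob; simp

lemma ob_re (n : ℕ) (w : B) : (ob n w).re = cl w.2 * tau w.1 := by
  unfold ob; simp

lemma ob_normsq (n : ℕ) (w : B) : 3 * ‖ob n w‖ ^ 2 ≤ 97 / 100 := by
  rw [Complex.sq_norm, Complex.normSq_apply, ob_im, ob_re]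
  have h1 := cl_mem w.2
  have h2 := tau_abs w.1
  have h3 : |cl w.2 * tau w.1| ≤ 13 / 24 := by
    rw [abs_mul, abs_of_nonneg h1.1]
    nlinarith [abs_nonneg (tau w.1), h1.1, h1.2]
  have h4 : (cl w.2 * tau w.1) * (cl w.2 * tau w.1) ≤ (13 / 24) ^ 2 := by
    rw [← sq, ← sq_abs]
    exact pow_le_pow_left₀ (abs_nonneg _) h3 2
  have h5 : eta n ≤ 1 / 6 := by
    unfold eta
    have h6 := Real.pi_gt_three
    have h7 := one_le_sn n
    apply one_div_le_one_div_of_le (by norm_num)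
    nlinarith
  have h6 := eta_pos n
  have h7 : eta n * eta n ≤ 1 / 36 := by nlinarith
  norm_num at h4
  linarith

lemma ob_norm (n : ℕ) (w : B) : ‖ob n w‖ ≤ 1 := by
  have h := ob_normsq n w
  have h2 := norm_nonneg (ob n w)
  nlinarith

/-- total of the coefficient moduli -/
def Cq : ℝ := ∑ j : Fin 27, ‖qc j‖

lemma Cq_nonneg : 0 ≤ Cq := Finset.sum_nonneg fun _ _ => norm_nonneg _

lemma qc_le (j : Fin 27) : ‖qc j‖ ≤ Cq :=
  Finset.single_le_sum (f := fun j => ‖qc j‖) (fun _ _ => norm_nonneg _) (Finset.mem_univ j)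

lemma cb_norm (n : ℕ) (y : ℂ × ℂ) (w : B) :
    ‖cb n y w‖ ≤ 16 * Cq * (‖y.1‖ + ‖y.2‖) * Real.exp (sn n) := by
  unfold cb
  have h1 : ‖cexp (ac w.1 * (n : ℝ))‖ = 1 := by
    unfold ac
    rw [show (2 * Real.pi * I * (tau w.1 : ℝ) * (n : ℝ) : ℂ) =
      ((2 * Real.pi * tau w.1 * n : ℝ) : ℂ) * I by push_cast; ring]
    exact Complex.norm_exp_ofReal_mul_I _
  have h2 : ‖cexp (-(2 * Real.pi * I * ob n w * (n : ℝ)))‖ ≤ Real.exp (sn n) := by
    rw [show -(2 * Real.pi * I * ob n w * (n : ℝ) : ℂ) =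
      2 * Real.pi * I * ob n w * ((-(n : ℝ) : ℝ) : ℂ) by push_cast; ring, norm_cexp, ob_im]
    apply Real.exp_le_exp.2
    have h3 := two_pi_eta n
    have h4 := sn_pos n
    have h5 := sn_sq n
    have e : -(2 * Real.pi * eta n * -(n : ℝ)) = (n : ℝ) / sn n := by
      rw [h3]; ring
    rw [e, div_le_iff₀ h4]
    nlinarith
  have h3 : ‖ac w.1 ^ 2 * (1 - cl w.2) * y.1 + ac w.1 * y.2‖ ≤ 16 * (‖y.1‖ + ‖y.2‖) := by
    refine (norm_add_le _ _).trans ?_
    rw [norm_mul, norm_mul, norm_mul, norm_pow]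
    have h4 : ‖(1 - cl w.2 : ℂ)‖ ≤ 1 := by
      rw [← Complex.ofReal_one, ← Complex.ofReal_sub, Complex.norm_real, Real.norm_eq_abs]
      have := cl_mem w.2
      rw [abs_le]; constructor <;> linarith [this.1, this.2]
    have h5 := ac_norm w.1
    have h6 : ‖ac w.1‖ ^ 2 ≤ 16 := by nlinarith [norm_nonneg (ac w.1)]
    have h7 : ‖ac w.1‖ ^ 2 * ‖(1 - cl w.2 : ℂ)‖ ≤ 16 * 1 :=
      mul_le_mul h6 h4 (norm_nonneg _) (by norm_num)
    have h8 := norm_nonneg y.1
    have h9 := norm_nonneg y.2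
    nlinarith
  rw [norm_mul, norm_mul, norm_mul, h1, mul_one]
  have h4 := qc_le w.1
  have h5 := Cq_nonneg
  calc ‖qc w.1‖ * ‖ac w.1 ^ 2 * (1 - cl w.2) * y.1 + ac w.1 * y.2‖ *
        ‖cexp (-(2 * Real.pi * I * ob n w * (n : ℝ)))‖
      ≤ Cq * (16 * (‖y.1‖ + ‖y.2‖)) * Real.exp (sn n) := by gcongr
    _ = _ := by ring

lemma cl_meas : Measurable cl := by
  unfold cl
  exact measurable_const.max (measurable_id.min measurable_const)

lemma ob_meas (n : ℕ) : Measurable (ob n) := by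
  unfold ob
  have h1 : Measurable (fun w : B => cl w.2 * tau w.1) :=
    (cl_meas.comp measurable_snd).mul ((measurable_of_finite tau).comp measurable_fst)
  exact (Complex.measurable_ofReal.comp h1).add measurable_const

lemma cb_meas (n : ℕ) (y : ℂ × ℂ) : Measurable (cb n y) := by
  unfold cb
  have h1 : Measurable (fun w : B => qc w.1) := (measurable_of_finite qc).comp measurable_fst
  have h2 : Measurable (fun w : B => ac w.1) := (measurable_of_finite ac).comp measurable_fst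
  have h3 : Measurable (fun w : B => (cl w.2 : ℂ)) :=
    Complex.measurable_ofReal.comp (cl_meas.comp measurable_snd)
  have h4 := ob_meas n
  fun_prop

lemma adm_block (n : ℕ) (y : ℂ × ℂ) : Adm nu (cb n y) (ob n) 1 where
  mc := cb_meas n y
  mom := ob_meas n
  pos w := by rw [ob_im]; exact eta_pos n
  bdd := ob_norm n
  M0 := zero_le_one
  int k := by
    simp_rw [ob_im]
    refine Integrable.mul_const ?_ _
    refine Integrable.mono' (g := fun _ => 16 * Cq * (‖y.1‖ + ‖y.2‖) * Real.exp (sn n))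
      (integrable_const _) (cb_meas n y).norm.aestronglyMeasurable
      (Eventually.of_forall fun w => ?_)
    rw [norm_norm]
    exact cb_norm n y w

/-- block integral as a finite sum of interval integrals -/
lemma block_eq (n : ℕ) (y : ℂ × ℂ) (k : ℕ) (v : ℝ) :
    Hf nu (cb n y) (ob n) k v = ∑ j : Fin 27, qc j * cexp (ac j * (n : ℝ)) *
      ∫ r in (0 : ℝ)..1, (ac j ^ 2 * (1 - r) * y.1 + ac j * y.2) *
        (ac j * r - (1 / sn n : ℝ)) ^ k * cexp ((ac j * r - (1 / sn n : ℝ)) * ((v - n : ℝ) : ℂ)) := by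
  have hint := (adm_block n y).integrable_term k v
  unfold Hf
  unfold nu at hint ⊢
  rw [integral_prod _ hint, integral_count]
  refine Finset.sum_congr rfl fun j _ => ?_
  rw [intervalIntegral.integral_of_le zero_le_one, ← integral_const_mul]
  refine setIntegral_congr_fun measurableSet_Ioc (fun r hr => ?_)
  have hr' : r ∈ Icc (0 : ℝ) 1 := ⟨hr.1.le, hr.2⟩
  have h1 : 2 * Real.pi * I * ob n (j, r) = ac j * r - (1 / sn n : ℝ) := by
    rw [← two_pi_eta]
    unfold ob ac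
    simp only [cl_eq hr']
    push_cast
    linear_combination (2 * Real.pi * (eta n : ℂ)) * Complex.I_sq
  unfold cb
  simp only [cl_eq hr']
  rw [h1]
  have h2 : cexp ((ac j * r - (1 / sn n : ℝ)) * ((v - n : ℝ) : ℂ)) =
      cexp (-((ac j * r - (1 / sn n : ℝ)) * (n : ℝ))) * cexp ((ac j * r - (1 / sn n : ℝ)) * v) := by
    rw [← Complex.exp_add]; congr 1; push_cast; ring
  rw [h2]
  ring

lemma int_poly (α β γ : ℂ) : ∫ r in (0 : ℝ)..1, (α + β * (r : ℂ) + γ * (r : ℂ) ^ 2) =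
    α + β / 2 + γ / 3 := by
  have h : ∀ r ∈ uIcc (0 : ℝ) 1, HasDerivAt
      (fun r : ℝ => α * (r : ℂ) + β / 2 * (r : ℂ) ^ 2 + γ / 3 * (r : ℂ) ^ 3)
      (α + β * (r : ℂ) + γ * (r : ℂ) ^ 2) r := by
    intro r _
    have h0 : HasDerivAt (fun r : ℝ => (r : ℂ)) 1 r := Complex.ofRealCLM.hasDerivAt
    have h1 := (h0.const_mul α).add (((h0.pow 2).const_mul (β / 2)))
    have h2 := h1.add ((h0.pow 3).const_mul (γ / 3))
    exact h2.congr_deriv (by push_cast; ring)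
  rw [intervalIntegral.integral_eq_sub_of_hasDerivAt h
    (Continuous.intervalIntegrable (by fun_prop) _ _)]
  simp

/-- block at its own centre: value -/
lemma block_center0 {n : ℕ} (hn : Node n) (y : ℂ × ℂ) :
    Hf nu (cb n y) (ob n) 0 n = P 2 n / 2 * y.1 := by
  rw [block_eq]
  have h1 : ∀ j : Fin 27, ∫ r in (0 : ℝ)..1, (ac j ^ 2 * (1 - r) * y.1 + ac j * y.2) *
        (ac j * r - (1 / sn n : ℝ)) ^ 0 * cexp ((ac j * r - (1 / sn n : ℝ)) * ((n - n : ℝ) : ℂ)) =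
        ac j ^ 2 * y.1 / 2 + ac j * y.2 := by
    intro j
    have h2 := int_poly (ac j ^ 2 * y.1 + ac j * y.2) (-(ac j ^ 2 * y.1)) 0
    have h3 : ∫ r in (0 : ℝ)..1, (ac j ^ 2 * (1 - r) * y.1 + ac j * y.2) *
        (ac j * r - (1 / sn n : ℝ)) ^ 0 * cexp ((ac j * r - (1 / sn n : ℝ)) * ((n - n : ℝ) : ℂ)) =
        ∫ r in (0 : ℝ)..1, (ac j ^ 2 * y.1 + ac j * y.2 + (-(ac j ^ 2 * y.1)) * (r : ℂ) +
          0 * (r : ℂ) ^ 2) := by
      congr 1
      funext r
      rw [sub_self, Complex.ofReal_zero, mul_zero, Complex.exp_zero]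
      ring
    rw [h3, h2]
    ring
  simp_rw [h1]
  have e0 := P1_node hn
  unfold P at e0 ⊢
  rw [Finset.sum_div, Finset.sum_mul]
  have : ∑ j : Fin 27, qc j * cexp (ac j * (n : ℝ)) * (ac j ^ 2 * y.1 / 2 + ac j * y.2) =
      ∑ j : Fin 27, qc j * ac j ^ 2 * cexp (ac j * (n : ℝ)) / 2 * y.1 +
      y.2 * ∑ j : Fin 27, qc j * ac j ^ 1 * cexp (ac j * (n : ℝ)) := by
    rw [Finset.mul_sum, ← Finset.sum_add_distrib]
    refine Finset.sum_congr rfl fun j _ => ?_
    ring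
  rw [this, e0]
  ring

/-- block at its own centre: derivative -/
lemma block_center1 {n : ℕ} (hn : Node n) (y : ℂ × ℂ) :
    Hf nu (cb n y) (ob n) 1 n =
      (P 3 n / 6 - (1 / sn n : ℝ) * (P 2 n / 2)) * y.1 + P 2 n / 2 * y.2 := by
  rw [block_eq]
  have h1 : ∀ j : Fin 27, ∫ r in (0 : ℝ)..1, (ac j ^ 2 * (1 - r) * y.1 + ac j * y.2) *
        (ac j * r - (1 / sn n : ℝ)) ^ 1 * cexp ((ac j * r - (1 / sn n : ℝ)) * ((n - n : ℝ) : ℂ)) =
        y.1 * (ac j ^ 3 / 6 - ac j ^ 2 * (1 / sn n : ℝ) / 2) +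
          y.2 * (ac j ^ 2 / 2 - ac j * (1 / sn n : ℝ)) := by
    intro j
    set hh : ℂ := ((1 / sn n : ℝ) : ℂ) with hhdef
    have h2 := int_poly (-(ac j ^ 2 * y.1 + ac j * y.2) * hh)
      ((ac j ^ 2 * y.1 + ac j * y.2) * ac j + ac j ^ 2 * y.1 * hh) (-(ac j ^ 3 * y.1))
    have h3 : ∫ r in (0 : ℝ)..1, (ac j ^ 2 * (1 - r) * y.1 + ac j * y.2) *
        (ac j * r - hh) ^ 1 * cexp ((ac j * r - hh) * ((n - n : ℝ) : ℂ)) =
        ∫ r in (0 : ℝ)..1, (-(ac j ^ 2 * y.1 + ac j * y.2) * hh +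
          ((ac j ^ 2 * y.1 + ac j * y.2) * ac j + ac j ^ 2 * y.1 * hh) * (r : ℂ) +
          (-(ac j ^ 3 * y.1)) * (r : ℂ) ^ 2) := by
      congr 1
      funext r
      rw [sub_self, Complex.ofReal_zero, mul_zero, Complex.exp_zero]
      ring
    rw [h3, h2]
    ring
  simp_rw [h1]
  have e1 := P1_node hn
  unfold P at e1 ⊢
  have : ∑ j : Fin 27, qc j * cexp (ac j * (n : ℝ)) *
      (y.1 * (ac j ^ 3 / 6 - ac j ^ 2 * (1 / sn n : ℝ) / 2) +
          y.2 * (ac j ^ 2 / 2 - ac j * (1 / sn n : ℝ))) =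
      (y.1 / 6) * ∑ j : Fin 27, qc j * ac j ^ 3 * cexp (ac j * (n : ℝ)) +
      (y.2 / 2 - y.1 * (1 / sn n : ℝ) / 2) *
        ∑ j : Fin 27, qc j * ac j ^ 2 * cexp (ac j * (n : ℝ)) -
      (y.2 * (1 / sn n : ℝ)) * ∑ j : Fin 27, qc j * ac j ^ 1 * cexp (ac j * (n : ℝ)) := by
    rw [Finset.mul_sum, Finset.mul_sum, Finset.mul_sum, ← Finset.sum_add_distrib,
      ← Finset.sum_sub_distrib]
    refine Finset.sum_congr rfl fun j _ => ?_
    ring
  rw [this, e1]
  ring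

/-- closed form away from the centre -/
lemma block_off {n : ℕ} (hn : Node n) (y : ℂ × ℂ) {v : ℝ} (hv : v ≠ n) :
    Hf nu (cb n y) (ob n) 0 v = cexp (-((1 / sn n : ℝ) * ((v - n : ℝ) : ℂ))) *
      (y.1 / ((v - n : ℝ) : ℂ) ^ 2 + y.2 / ((v - n : ℝ) : ℂ)) * P 0 v := by
  rw [block_eq]
  have hu : ((v - n : ℝ) : ℂ) ≠ 0 := by exact_mod_cast sub_ne_zero.2 hv
  have h1 : ∀ j : Fin 27, ∫ r in (0 : ℝ)..1, (ac j ^ 2 * (1 - r) * y.1 + ac j * y.2) *
        (ac j * r - (1 / sn n : ℝ)) ^ 0 * cexp ((ac j * r - (1 / sn n : ℝ)) * ((v - n : ℝ) : ℂ)) =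
        cexp (-((1 / sn n : ℝ) * ((v - n : ℝ) : ℂ))) *
        (y.1 * (cexp (ac j * ((v - n : ℝ) : ℂ)) - (ac j * ((v - n : ℝ) : ℂ) + 1)) /
            ((v - n : ℝ) : ℂ) ^ 2 +
          y.2 * (cexp (ac j * ((v - n : ℝ) : ℂ)) - 1) / ((v - n : ℝ) : ℂ)) := by
    intro j
    set u : ℂ := ((v - n : ℝ) : ℂ) with hudef
    set hh : ℂ := ((1 / sn n : ℝ) : ℂ) with hhdef
    set a : ℂ := ac j with hadef
    have hd : ∀ r ∈ uIcc (0 : ℝ) 1, HasDerivAt
        (fun r : ℝ => cexp (-(hh * u)) * (y.1 * (((1 - (r : ℂ)) * (a * u) + 1) *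
          cexp (a * u * (r : ℂ))) / u ^ 2 + y.2 * cexp (a * u * (r : ℂ)) / u))
        ((a ^ 2 * (1 - (r : ℂ)) * y.1 + a * y.2) * (a * r - hh) ^ 0 *
          cexp ((a * r - hh) * u)) r := by
      intro r _
      have h0 : HasDerivAt (fun r : ℝ => (r : ℂ)) 1 r := Complex.ofRealCLM.hasDerivAt
      have hE : HasDerivAt (fun r : ℝ => cexp (a * u * (r : ℂ)))
          (cexp (a * u * (r : ℂ)) * (a * u)) r := by
        have := (h0.const_mul (a * u)).cexp
        simpa using this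
      have hL : HasDerivAt (fun r : ℝ => (1 - (r : ℂ)) * (a * u) + 1) (-1 * (a * u)) r :=
        ((h0.const_sub 1).mul_const (a * u)).add_const 1
      have h2 := ((((hL.mul hE).const_mul y.1).div_const (u ^ 2)).add
        ((hE.const_mul y.2).div_const u)).const_mul (cexp (-(hh * u)))
      refine h2.congr_deriv ?_
      have e : cexp ((a * r - hh) * u) = cexp (-(hh * u)) * cexp (a * u * r) := by
        rw [← Complex.exp_add]; congr 1; ring
      rw [e]
      field_simp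
      ring
    rw [intervalIntegral.integral_eq_sub_of_hasDerivAt hd
      (Continuous.intervalIntegrable (by fun_prop) _ _)]
    simp only [Complex.ofReal_one, sub_self, zero_mul, zero_add, one_mul, mul_one,
      Complex.ofReal_zero, sub_zero, mul_zero, Complex.exp_zero]
    ring
  simp_rw [h1]
  have e0 := P0_node hn
  have e1 := P1_node hn
  have e2 : P 0 v = ∑ j : Fin 27, qc j * cexp (ac j * (n : ℝ)) * cexp (ac j * ((v - n : ℝ) : ℂ)) := by
    unfold P
    refine Finset.sum_congr rfl fun j _ => ?_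
    rw [pow_zero, mul_one, mul_assoc, ← Complex.exp_add]
    congr 2; push_cast; ring
  rw [e2]
  unfold P at e0 e1
  set u : ℂ := ((v - n : ℝ) : ℂ) with hudef
  set hh : ℂ := ((1 / sn n : ℝ) : ℂ) with hhdef
  have : ∑ j : Fin 27, qc j * cexp (ac j * (n : ℝ)) * (cexp (-(hh * u)) *
        (y.1 * (cexp (ac j * u) - (ac j * u + 1)) / u ^ 2 +
          y.2 * (cexp (ac j * u) - 1) / u)) =
      cexp (-(hh * u)) * (y.1 / u ^ 2 + y.2 / u) *
        ∑ j : Fin 27, qc j * cexp (ac j * (n : ℝ)) * cexp (ac j * u) -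
      cexp (-(hh * u)) * (y.1 * u / u ^ 2) *
        ∑ j : Fin 27, qc j * ac j ^ 1 * cexp (ac j * (n : ℝ)) -
      cexp (-(hh * u)) * (y.1 / u ^ 2 + y.2 / u) *
        ∑ j : Fin 27, qc j * ac j ^ 0 * cexp (ac j * (n : ℝ)) := by
    rw [Finset.mul_sum, Finset.mul_sum, Finset.mul_sum, ← Finset.sum_sub_distrib,
      ← Finset.sum_sub_distrib]
    refine Finset.sum_congr rfl fun j _ => ?_
    ring
  rw [this, e1, e0]
  ring

lemma block_other {n m : ℕ} (hn : Node n) (hm : Node m) (hnm : m ≠ n) (y : ℂ × ℂ) :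
    Hf nu (cb n y) (ob n) 0 m = 0 ∧ Hf nu (cb n y) (ob n) 1 m = 0 := by
  have hne : (m : ℝ) ≠ n := by exact_mod_cast hnm
  constructor
  · rw [block_off hn y hne, P0_node hm, mul_zero]
  · have h1 : HasDerivAt (Hf nu (cb n y) (ob n) 0) (Hf nu (cb n y) (ob n) 1 m) m :=
      (adm_block n y).hasDerivAt 0 m
    have hu : (((m : ℝ) - n : ℝ) : ℂ) ≠ 0 := by exact_mod_cast sub_ne_zero.2 hne
    -- the closed form is differentiable at `m` with zero derivative
    have hD : DifferentiableAt ℝ (fun v : ℝ => cexp (-((1 / sn n : ℝ) * ((v - n : ℝ) : ℂ))) *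
      (y.1 / ((v - n : ℝ) : ℂ) ^ 2 + y.2 / ((v - n : ℝ) : ℂ))) m := by
      have h0 : DifferentiableAt ℝ (fun v : ℝ => ((v - n : ℝ) : ℂ)) m :=
        Complex.ofRealCLM.differentiableAt.comp (m : ℝ) (differentiableAt_id.sub_const _)
      refine DifferentiableAt.mul ?_ ?_
      · exact (h0.const_mul _).neg.cexp
      · exact ((differentiableAt_const _).div (h0.pow 2) (pow_ne_zero 2 hu)).add
          ((differentiableAt_const _).div h0 hu)
    have h2 := hD.hasDerivAt.mul (P_hasDerivAt 0 m)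
    have h3 : HasDerivAt (Hf nu (cb n y) (ob n) 0)
        (deriv (fun v : ℝ => cexp (-((1 / sn n : ℝ) * ((v - n : ℝ) : ℂ))) *
          (y.1 / ((v - n : ℝ) : ℂ) ^ 2 + y.2 / ((v - n : ℝ) : ℂ))) m * P 0 m +
          cexp (-((1 / sn n : ℝ) * (((m : ℝ) - n : ℝ) : ℂ))) *
          (y.1 / (((m : ℝ) - n : ℝ) : ℂ) ^ 2 + y.2 / (((m : ℝ) - n : ℝ) : ℂ)) * P 1 m) m := by
      refine h2.congr_of_eventuallyEq ?_
      have : ∀ᶠ v : ℝ in 𝓝 (m : ℝ), v ≠ (n : ℝ) := isOpen_ne.mem_nhds hne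
      filter_upwards [this] with v hv
      rw [block_off hn y hv]
      rfl
    rw [h1.unique h3, P0_node hm, P1_node hm]
    ring

end

end Pool.Agent.H629R3.Hex
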