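import Mathlib
import Pool.Agent.H629R3.HexD

set_option autoImplicit false

open MeasureTheory Set Filter Topology Complex

namespace Pool.Agent.H629R3.Hex

noncomputable section

/-- global parameter space measure -/
def mu : Measure (ℕ × B) := (Measure.count : Measure ℕ).prod nu

instance : SFinite mu := by unfold mu; infer_instance

/-- global coefficients -/
def cw (x : ℕ → ℂ × ℂ) (w : ℕ × B) : ℂ := cb w.1 (x w.1) w.2

/-- global frequencies -/
def ow (w : ℕ × B) : ℂ := ob w.1 w.2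

lemma cw_meas (x : ℕ → ℂ × ℂ) : Measurable (cw x) :=
  measurable_from_prod_countable_right fun n => cb_meas n (x n)

lemma ow_meas : Measurable ow :=
  measurable_from_prod_countable_right fun n => ob_meas n

lemma count_real_singleton (n : ℕ) : (Measure.count : Measure ℕ).real {n} = 1 := by
  simp [Measure.real]

lemma integral_count_eq {E : Type} [NormedAddCommGroup E] [NormedSpace ℝ E] [CompleteSpace E]
    {g : ℕ → E} (hg : Integrable g Measure.count) : ∫ n, g n ∂Measure.count = ∑' n, g n := by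
  rw [integral_countable hg]
  simp_rw [count_real_singleton, one_smul]

lemma nu_univ : nu.real univ = 27 := by
  unfold nu
  rw [Measure.real, ← univ_prod_univ, Measure.prod_prod]
  simp

/-- the size condition on coefficients -/
def Size (x : ℕ → ℂ × ℂ) (K : ℝ) : Prop :=
  0 ≤ K ∧ ∀ n, ‖(x n).1‖ + ‖(x n).2‖ ≤ K * Real.exp (-(2 * sn n))

lemma cw_norm {x : ℕ → ℂ × ℂ} {K : ℝ} (hx : Size x K) (w : ℕ × B) :
    ‖cw x w‖ ≤ 16 * Cq * K * Real.exp (-sn w.1) := by
  unfold cw
  refine (cb_norm _ _ _).trans ?_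
  have h1 := hx.2 w.1
  have h2 := Cq_nonneg
  calc 16 * Cq * (‖(x w.1).1‖ + ‖(x w.1).2‖) * Real.exp (sn w.1)
      ≤ 16 * Cq * (K * Real.exp (-(2 * sn w.1))) * Real.exp (sn w.1) := by gcongr
    _ = 16 * Cq * K * (Real.exp (-(2 * sn w.1)) * Real.exp (sn w.1)) := by ring
    _ = _ := by rw [← Real.exp_add]; congr 2; ring

lemma eta_inv (n : ℕ) : (eta n)⁻¹ = 2 * Real.pi * sn n := by
  unfold eta; rw [one_div, inv_inv]

lemma adm_whole {x : ℕ → ℂ × ℂ} {K : ℝ} (hx : Size x K) : Adm mu (cw x) ow 1 where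
  mc := cw_meas x
  mom := ow_meas
  pos w := by unfold ow; rw [ob_im]; exact eta_pos _
  bdd w := ob_norm _ _
  M0 := zero_le_one
  int k := by
    have hs : Summable (fun n : ℕ => (16 * Cq * K * (2 * Real.pi) ^ k) *
        (Real.exp (-(1 * sn n)) * sn n ^ k)) := (summ one_pos k).mul_left _
    have hg : Integrable (fun n : ℕ => (16 * Cq * K * (2 * Real.pi) ^ k) *
        (Real.exp (-(1 * sn n)) * sn n ^ k)) Measure.count := by
      rw [integrable_count_iff]
      exact hs.norm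
    have hb := hg.mul_prod (integrable_const (μ := nu) (1 : ℝ))
    refine Integrable.mono' hb ?_ (Eventually.of_forall fun w => ?_)
    · have h1 := (cw_meas x).norm
      have h2 : Measurable (fun w : ℕ × B => (ow w).im) :=
        Complex.measurable_im.comp ow_meas
      exact (h1.mul (h2.inv.pow_const k)).aestronglyMeasurable
    · have h1 := cw_norm hx w
      unfold ow
      rw [ob_im, eta_inv, norm_mul, norm_norm, norm_pow, Real.norm_eq_abs, abs_of_pos (by
        have := sn_pos w.1; have := Real.pi_pos; positivity), mul_pow, one_mul, mul_one]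
      have h3 := sn_pos w.1
      have h4 := Real.pi_pos
      calc ‖cw x w‖ * ((2 * Real.pi) ^ k * sn w.1 ^ k)
          ≤ (16 * Cq * K * Real.exp (-sn w.1)) * ((2 * Real.pi) ^ k * sn w.1 ^ k) := by gcongr
        _ = _ := by ring

lemma cb_zero (n : ℕ) : cb n (0 : ℂ × ℂ) = fun _ => 0 := by
  funext w; unfold cb; simp

lemma whole_eq {x : ℕ → ℂ × ℂ} {K : ℝ} (hx : Size x K) (k : ℕ) (v : ℝ) :
    Hf mu (cw x) ow k v = ∑' n, Hf nu (cb n (x n)) (ob n) k v := by
  have hint := (adm_whole hx).integrable_term k v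
  unfold Hf
  unfold mu at hint ⊢
  rw [integral_prod _ hint, integral_count_eq hint.integral_prod_left]
  rfl

lemma whole_node {x : ℕ → ℂ × ℂ} {K : ℝ} (hx : Size x K) (hz : ∀ n, ¬ Node n → x n = 0)
    {m : ℕ} (hm : Node m) :
    Hf mu (cw x) ow 0 m = P 2 m / 2 * (x m).1 ∧
    Hf mu (cw x) ow 1 m = (P 3 m / 6 - (1 / sn m : ℝ) * (P 2 m / 2)) * (x m).1 +
      P 2 m / 2 * (x m).2 := by
  have hoff : ∀ k ≤ 1, ∀ n, n ≠ m → Hf nu (cb n (x n)) (ob n) k m = 0 := by
    intro k hk n hnm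
    by_cases hn : Node n
    · have := block_other hn hm hnm.symm (x n)
      interval_cases k
      · exact this.1
      · exact this.2
    · rw [hz n hn, cb_zero]
      unfold Hf
      simp
  constructor
  · rw [whole_eq hx, tsum_eq_single m (hoff 0 (by norm_num)), block_center0 hm]
  · rw [whole_eq hx, tsum_eq_single m (hoff 1 le_rfl), block_center1 hm]

/-- the tail -/
def tl (n0 : ℕ) : ℝ := ∑' n : ℕ, if n0 ≤ n then Real.exp (-((1 / 100) * sn n)) * sn n ^ 2 else 0

lemma tl_summable (n0 : ℕ) : Summable (fun n : ℕ => if n0 ≤ n then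
    Real.exp (-((1 / 100) * sn n)) * sn n ^ 2 else 0) := by
  refine Summable.of_nonneg_of_le (fun n => ?_) (fun n => ?_) (summ (by norm_num : (0 : ℝ) < 1 / 100) 2)
  · split_ifs
    · positivity
    · exact le_rfl
  · split_ifs
    · exact le_rfl
    · positivity

lemma tl_nonneg (n0 : ℕ) : 0 ≤ tl n0 := by
  unfold tl
  refine tsum_nonneg fun n => ?_
  split_ifs
  · positivity
  · exact le_rfl

lemma tl_tendsto : Tendsto tl atTop (𝓝 0) := by
  have h1 := tendsto_sum_nat_add (fun n : ℕ => Real.exp (-((1 / 100) * sn n)) * sn n ^ 2)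
  refine h1.congr fun n0 => ?_
  unfold tl
  rw [← (tl_summable n0).sum_add_tsum_nat_add n0]
  rw [Finset.sum_eq_zero, zero_add]
  · refine tsum_congr fun k => ?_
    rw [if_pos (by omega)]
  · intro i hi
    rw [if_neg (by have := Finset.mem_range.1 hi; omega)]

lemma key_exp {X Y : ℝ} (hX : 0 < X) (hY : 0 ≤ Y) :
    -X + 2 * Y - (100 / 97) * Y ^ 2 / X ≤ -(1 / 100) * X := by
  have h : 0 ≤ (X * (1 - 1 / 100) - 2 * Y + (100 / 97) * Y ^ 2 / X) := by
    have e : X * (1 - 1 / 100) - 2 * Y + (100 / 97) * Y ^ 2 / X =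
        ((99 / 100) * X ^ 2 - 2 * X * Y + (100 / 97) * Y ^ 2) / X := by
      field_simp
      ring
    rw [e]
    refine div_nonneg ?_ hX.le
    nlinarith [sq_nonneg (X - (100 / 99) * Y), sq_nonneg Y]
  linarith

/-- constant -/
def Kd : ℝ := 362880 * Cq

lemma Kd_nonneg : 0 ≤ Kd := by unfold Kd; have := Cq_nonneg; positivity

lemma exp_aux : Real.exp (100 / 97) ≤ 3 := by
  have h1 : Real.exp (100 / 97) = Real.exp 1 * Real.exp (3 / 97) := by
    rw [← Real.exp_add]; norm_num
  have h2 := Real.exp_one_lt_d9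
  have h3 : Real.exp (3 / 97) ≤ 1 / (1 - 3 / 97) := by
    have := Real.one_sub_le_exp_neg (3 / 97)
    rw [Real.exp_neg] at this
    rw [le_div_iff₀ (by norm_num)]
    have h4 := Real.exp_pos (3 / 97)
    calc Real.exp (3 / 97) * (1 - 3 / 97) ≤ Real.exp (3 / 97) * (Real.exp (3 / 97))⁻¹ := by gcongr
      _ = 1 := mul_inv_cancel₀ h4.ne'
  rw [h1]
  have h5 := Real.exp_pos 1
  calc Real.exp 1 * Real.exp (3 / 97) ≤ 2.7182818286 * (1 / (1 - 3 / 97)) := by
        gcongr
    _ ≤ 3 := by norm_num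

/-- pointwise bound of the dual integrand -/
lemma dual_term {x : ℕ → ℂ × ℂ} {K : ℝ} (hx : Size x K) {n0 : ℕ} (hz : ∀ n, n < n0 → x n = 0)
    (m : ℕ) {k : ℕ} (hk : k ≤ 1) (w : ℕ × B) :
    ‖cd (cw x) ow w * (2 * Real.pi * I * omd ow w) ^ k *
      cexp (2 * Real.pi * I * omd ow w * (m : ℝ))‖ ≤
      (13440 * Cq * K * Real.exp (-(2 * sn m))) * (if n0 ≤ w.1 then
        Real.exp (-((1 / 100) * sn w.1)) * sn w.1 ^ 2 else 0) := by
  by_cases hw : n0 ≤ w.1
  swap
  · have : cw x w = 0 := by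
      unfold cw
      rw [hz _ (not_le.1 hw), cb_zero]
    unfold cd
    rw [this, if_neg hw]
    simp
  rw [if_pos hw]
  have ha := adm_whole hx
  have hX := sn_pos w.1
  have hX1 := one_le_sn w.1
  have hY := sn_pos m
  have hpi := Real.pi_pos
  have hpi2 := Real.pi_lt_d2
  have h1 : ‖cd (cw x) ow w‖ ≤ (16 * Cq * K * Real.exp (-sn w.1)) * (2 * Real.pi * sn w.1) := by
    refine (cd_norm ha w).trans ?_
    have e : ((ow w).im)⁻¹ = 2 * Real.pi * sn w.1 := by
      unfold ow; rw [ob_im, eta_inv]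
    rw [e]
    have := cw_norm hx w
    gcongr
  have h2 : ‖(2 * Real.pi * I * omd ow w) ^ k‖ ≤ 40 * sn w.1 := by
    rw [norm_pow, norm_two_pi]
    have e : ‖omd ow w‖ ≤ 2 * Real.pi * sn w.1 := by
      have := omd_norm ha w
      have e : ((ow w).im)⁻¹ = 2 * Real.pi * sn w.1 := by
        unfold ow; rw [ob_im, eta_inv]
      rwa [e] at this
    have e2 : 2 * Real.pi * ‖omd ow w‖ ≤ 40 * sn w.1 := by
      calc 2 * Real.pi * ‖omd ow w‖ ≤ 2 * Real.pi * (2 * Real.pi * sn w.1) := by gcongr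
        _ = (4 * Real.pi ^ 2) * sn w.1 := by ring
        _ ≤ 40 * sn w.1 := by
          have : 4 * Real.pi ^ 2 ≤ 40 := by nlinarith
          gcongr
    interval_cases k
    · rw [pow_zero]; linarith
    · rw [pow_one]; exact e2
  have h3 : ‖cexp (2 * Real.pi * I * omd ow w * (m : ℝ))‖ ≤
      3 * Real.exp (-((100 / 97) * sn m ^ 2 / sn w.1)) := by
    rw [norm_cexp, omd_im]
    have e1 : (ow w).im = eta w.1 := by unfold ow; rw [ob_im]
    have e2 : 3 * ‖ow w‖ ^ 2 ≤ 97 / 100 := ob_normsq w.1 w.2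
    have e3 : 0 < 3 * ‖ow w‖ ^ 2 := by
      have : 0 < ‖ow w‖ := norm_pos_iff.2 (ha.om_ne w)
      positivity
    have hη := eta_pos w.1
    rw [e1]
    have e4 : (100 / 97) * (1 / sn w.1) * m ≤ 2 * Real.pi * (eta w.1 / (3 * ‖ow w‖ ^ 2)) * m := by
      have : (100 / 97) * (1 / sn w.1) ≤ 2 * Real.pi * (eta w.1 / (3 * ‖ow w‖ ^ 2)) := by
        rw [← two_pi_eta]
        have h5 : eta w.1 / (97 / 100) ≤ eta w.1 / (3 * ‖ow w‖ ^ 2) :=
          div_le_div_of_nonneg_left hη.le e3 e2
        calc (100 / 97) * (2 * Real.pi * eta w.1) = 2 * Real.pi * (eta w.1 / (97 / 100)) := by ring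
          _ ≤ _ := by gcongr
      have hm : (0 : ℝ) ≤ m := Nat.cast_nonneg m
      gcongr
    have e5 : (m : ℝ) = sn m ^ 2 - 1 := by rw [sn_sq]; ring
    calc Real.exp (-(2 * Real.pi * (eta w.1 / (3 * ‖ow w‖ ^ 2)) * m))
        ≤ Real.exp (-((100 / 97) * (1 / sn w.1) * m)) := Real.exp_le_exp.2 (by linarith)
      _ = Real.exp ((100 / 97) / sn w.1) * Real.exp (-((100 / 97) * sn m ^ 2 / sn w.1)) := by
        rw [← Real.exp_add]
        congr 1
        nth_rewrite 1 [e5]
        field_simp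
        ring
      _ ≤ 3 * Real.exp (-((100 / 97) * sn m ^ 2 / sn w.1)) := by
        have : Real.exp ((100 / 97) / sn w.1) ≤ 3 := by
          refine le_trans (Real.exp_le_exp.2 ?_) exp_aux
          exact div_le_self (by norm_num) hX1
        gcongr
  rw [norm_mul, norm_mul]
  have hK := hx.1
  have hC := Cq_nonneg
  calc ‖cd (cw x) ow w‖ * ‖(2 * Real.pi * I * omd ow w) ^ k‖ *
        ‖cexp (2 * Real.pi * I * omd ow w * (m : ℝ))‖
      ≤ ((16 * Cq * K * Real.exp (-sn w.1)) * (2 * Real.pi * sn w.1)) * (40 * sn w.1) *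
          (3 * Real.exp (-((100 / 97) * sn m ^ 2 / sn w.1))) := by gcongr
    _ = (16 * 2 * Real.pi * 40 * 3) * (Cq * K * sn w.1 ^ 2) *
          (Real.exp (-sn w.1) * Real.exp (-((100 / 97) * sn m ^ 2 / sn w.1))) := by ring
    _ ≤ 13440 * (Cq * K * sn w.1 ^ 2) *
          (Real.exp (-(2 * sn m)) * Real.exp (-((1 / 100) * sn w.1))) := by
        have e6 : (16 * 2 * Real.pi * 40 * 3) ≤ 13440 := by nlinarith
        have e7 : Real.exp (-sn w.1) * Real.exp (-((100 / 97) * sn m ^ 2 / sn w.1)) ≤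
            Real.exp (-(2 * sn m)) * Real.exp (-((1 / 100) * sn w.1)) := by
          rw [← Real.exp_add, ← Real.exp_add]
          apply Real.exp_le_exp.2
          have := key_exp hX hY.le
          linarith
        gcongr
    _ = _ := by ring

lemma dual_meas (x : ℕ → ℂ × ℂ) (m : ℕ) (k : ℕ) :
    AEStronglyMeasurable (fun w => cd (cw x) ow w * (2 * Real.pi * I * omd ow w) ^ k *
      cexp (2 * Real.pi * I * omd ow w * (m : ℝ))) mu := by
  have h1 := cw_meas x
  have h2 := ow_meas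
  have hm1 : Measurable (cd (cw x) ow) := by
    unfold cd
    exact h1.mul (measurable_const.div (measurable_const.mul h2))
  have hm2 : Measurable (omd ow) := by
    unfold omd
    exact measurable_const.div (measurable_const.mul h2)
  refine Measurable.aestronglyMeasurable ?_
  fun_prop

lemma bound_integrable (C : ℝ) (n0 : ℕ) : Integrable (fun w : ℕ × B => C * (if n0 ≤ w.1 then
        Real.exp (-((1 / 100) * sn w.1)) * sn w.1 ^ 2 else 0)) mu ∧
    ∫ w : ℕ × B, C * (if n0 ≤ w.1 then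
        Real.exp (-((1 / 100) * sn w.1)) * sn w.1 ^ 2 else 0) ∂mu = C * (27 * tl n0) := by
  have hg : Integrable (fun n : ℕ => if n0 ≤ n then
      Real.exp (-((1 / 100) * sn n)) * sn n ^ 2 else 0) Measure.count := by
    rw [integrable_count_iff]
    exact (tl_summable n0).norm
  have hb := hg.mul_prod (integrable_const (μ := nu) (1 : ℝ))
  have hb' : Integrable (fun w : ℕ × B => (if n0 ≤ w.1 then
        Real.exp (-((1 / 100) * sn w.1)) * sn w.1 ^ 2 else 0) * (1 : ℝ)) mu := hb
  constructor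
  · refine (hb'.const_mul C).congr (Eventually.of_forall fun w => ?_)
    simp only [mul_one]
  · rw [integral_const_mul]
    congr 1
    have h1 := integral_prod_mul (μ := (Measure.count : Measure ℕ)) (ν := nu)
      (fun n : ℕ => if n0 ≤ n then Real.exp (-((1 / 100) * sn n)) * sn n ^ 2 else 0)
      (fun _ => (1 : ℝ))
    simp only [mul_one, integral_const, nu_univ, smul_eq_mul] at h1
    unfold mu
    rw [h1, integral_count_eq hg]
    unfold tl
    ring

/-- the dual functionals are small -/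
lemma dual_bound {x : ℕ → ℂ × ℂ} {K : ℝ} (hx : Size x K) {n0 : ℕ} (hz : ∀ n, n < n0 → x n = 0)
    (m : ℕ) {k : ℕ} (hk : k ≤ 1) :
    ‖Hf mu (cd (cw x) ow) (omd ow) k m‖ ≤ Kd * K * tl n0 * Real.exp (-(2 * sn m)) := by
  obtain ⟨hi, he⟩ := bound_integrable (13440 * Cq * K * Real.exp (-(2 * sn m))) n0
  unfold Hf
  refine (norm_integral_le_of_norm_le hi (Eventually.of_forall fun w =>
    dual_term hx hz m hk w)).trans ?_
  rw [he]
  unfold Kd
  apply le_of_eq
  ring

lemma dual_integrable {x : ℕ → ℂ × ℂ} {K : ℝ} (hx : Size x K)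
    (m : ℕ) {k : ℕ} (hk : k ≤ 1) :
    Integrable (fun w => cd (cw x) ow w * (2 * Real.pi * I * omd ow w) ^ k *
      cexp (2 * Real.pi * I * omd ow w * (m : ℝ))) mu :=
  Integrable.mono' (bound_integrable (13440 * Cq * K * Real.exp (-(2 * sn m))) 0).1
    (dual_meas x m k)
    (Eventually.of_forall fun w => dual_term hx (fun n hn => absurd hn (by omega)) m hk w)

lemma dual_sub {x y : ℕ → ℂ × ℂ} {K L : ℝ} (hx : Size x K) (hy : Size y L)
    (m : ℕ) {k : ℕ} (hk : k ≤ 1) :
    Hf mu (cd (cw (x - y)) ow) (omd ow) k m =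
      Hf mu (cd (cw x) ow) (omd ow) k m - Hf mu (cd (cw y) ow) (omd ow) k m := by
  unfold Hf
  rw [← integral_sub (dual_integrable hx m hk) (dual_integrable hy m hk)]
  congr 1
  funext w
  unfold cd cw cb
  simp only [Pi.sub_apply, Prod.fst_sub, Prod.snd_sub]
  ring

end

end Pool.Agent.H629R3.Hex
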