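import Mathlib
import Pool.Agent.H629R3.HexE

set_option autoImplicit false

open MeasureTheory Set Filter Topology Complex
open scoped BoundedContinuousFunction

namespace Pool.Agent.H629R3.Hex

noncomputable section

/-- leading coefficient at a node -/
def cm (m : ℕ) : ℂ := P 2 m / 2

/-- mixing coefficient at a node -/
def km (m : ℕ) : ℂ := P 3 m / 6 - (1 / sn m : ℝ) * (P 2 m / 2)

/-- solve the 2x2 triangular system at a node -/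
def solve (m : ℕ) (a b : ℂ) : ℂ × ℂ := (a / cm m, (b - km m * (a / cm m)) / cm m)

lemma solve_sub (m : ℕ) (a b a' b' : ℂ) :
    solve m a b - solve m a' b' = solve m (a - a') (b - b') := by
  unfold solve
  refine Prod.ext ?_ ?_
  · simp only [Prod.fst_sub]; ring
  · simp only [Prod.snd_sub]; ring

lemma km_norm (m : ℕ) : ‖km m‖ ≤ 20 * Cq := by
  have h1 : ‖P 3 m‖ ≤ Cq * 4 ^ 3 := P_bound 3 m
  have h2 : ‖P 2 m‖ ≤ Cq * 4 ^ 2 := P_bound 2 m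
  have hC := Cq_nonneg
  have h3 : ‖((1 / sn m : ℝ) : ℂ)‖ ≤ 1 := by
    rw [Complex.norm_real, Real.norm_eq_abs, abs_of_pos (by have := sn_pos m; positivity)]
    rw [div_le_one (sn_pos m)]
    exact one_le_sn m
  unfold km
  refine (norm_sub_le _ _).trans ?_
  rw [norm_mul, norm_div, norm_div]
  have e6 : ‖(6 : ℂ)‖ = 6 := by simp
  have e2 : ‖(2 : ℂ)‖ = 2 := by simp
  rw [e6, e2]
  calc ‖P 3 m‖ / 6 + ‖((1 / sn m : ℝ) : ℂ)‖ * (‖P 2 m‖ / 2)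
      ≤ (Cq * 4 ^ 3) / 6 + 1 * ((Cq * 4 ^ 2) / 2) := by gcongr
    _ ≤ 20 * Cq := by linarith

lemma solve_norm {c0 : ℝ} (hc0 : 0 < c0) {m : ℕ} (hc : c0 ≤ ‖cm m‖) (a b : ℂ) :
    ‖solve m a b‖ ≤ (1 / c0 + 20 * Cq / c0 ^ 2) * (‖a‖ + ‖b‖) := by
  have hC := Cq_nonneg
  have h1 : ‖a / cm m‖ ≤ ‖a‖ / c0 := by
    rw [norm_div]; gcongr
  have h2 : ‖(b - km m * (a / cm m)) / cm m‖ ≤ (‖b‖ + 20 * Cq * (‖a‖ / c0)) / c0 := by
    rw [norm_div]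
    have : ‖b - km m * (a / cm m)‖ ≤ ‖b‖ + 20 * Cq * (‖a‖ / c0) := by
      refine (norm_sub_le _ _).trans ?_
      rw [norm_mul]
      have := km_norm m
      gcongr
    gcongr
  have ha := norm_nonneg a
  have hb := norm_nonneg b
  unfold solve
  rw [Prod.norm_mk]
  refine max_le (h1.trans ?_) (h2.trans ?_)
  · have e : (1 / c0 + 20 * Cq / c0 ^ 2) * (‖a‖ + ‖b‖) - ‖a‖ / c0 =
      ‖b‖ / c0 + 20 * Cq / c0 ^ 2 * (‖a‖ + ‖b‖) := by ring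
    have : 0 ≤ ‖b‖ / c0 + 20 * Cq / c0 ^ 2 * (‖a‖ + ‖b‖) := by positivity
    linarith
  · have e : (1 / c0 + 20 * Cq / c0 ^ 2) * (‖a‖ + ‖b‖) - (‖b‖ + 20 * Cq * (‖a‖ / c0)) / c0 =
      ‖a‖ / c0 + 20 * Cq / c0 ^ 2 * ‖b‖ := by field_simp; ring
    have : 0 ≤ ‖a‖ / c0 + 20 * Cq / c0 ^ 2 * ‖b‖ := by positivity
    linarith

/-- the space of bounded sequences -/
abbrev XS : Type := ℕ →ᵇ (ℂ × ℂ)

/-- embedding of a bounded sequence as a coefficient sequence -/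
def emb (n0 : ℕ) (ξ : XS) (n : ℕ) : ℂ × ℂ :=
  if n0 ≤ n ∧ Node n then ((Real.exp (-(2 * sn n)) : ℝ) : ℂ) • ξ n else 0

lemma emb_size (n0 : ℕ) (ξ : XS) : Size (emb n0 ξ) (2 * ‖ξ‖) := by
  refine ⟨by positivity, fun n => ?_⟩
  unfold emb
  split_ifs with h
  · have h1 := ξ.norm_coe_le_norm n
    have h2 : ‖(ξ n).1‖ ≤ ‖ξ‖ := (norm_fst_le _).trans h1
    have h3 : ‖(ξ n).2‖ ≤ ‖ξ‖ := (norm_snd_le _).trans h1
    simp only [Prod.smul_fst, Prod.smul_snd, smul_eq_mul, norm_mul, Complex.norm_real,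
      Real.norm_eq_abs, abs_of_pos (Real.exp_pos _)]
    have h4 := Real.exp_pos (-(2 * sn n))
    nlinarith
  · simp
    positivity

lemma emb_low (n0 : ℕ) (ξ : XS) : ∀ n, n < n0 → emb n0 ξ n = 0 := by
  intro n hn
  unfold emb
  rw [if_neg]
  intro h; omega

lemma emb_nonnode (n0 : ℕ) (ξ : XS) : ∀ n, ¬ Node n → emb n0 ξ n = 0 := by
  intro n hn
  unfold emb
  rw [if_neg]
  intro h; exact hn h.2

lemma emb_sub (n0 : ℕ) (ξ ζ : XS) : emb n0 (ξ - ζ) = emb n0 ξ - emb n0 ζ := by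
  funext n
  simp only [Pi.sub_apply]
  unfold emb
  split_ifs
  · rw [BoundedContinuousFunction.coe_sub, Pi.sub_apply, smul_sub]
  · simp

/-- dual functional -/
def DD (k : ℕ) (x : ℕ → ℂ × ℂ) (m : ℕ) : ℂ := Hf mu (cd (cw x) ow) (omd ow) k m

/-- the raw map -/
def phi (n0 : ℕ) (g : ℕ → ℂ) (ξ : XS) (m : ℕ) : ℂ × ℂ :=
  if n0 ≤ m ∧ Node m then ((Real.exp (2 * sn m) : ℝ) : ℂ) •
    solve m (g m - DD 0 (emb n0 ξ) m) (-DD 1 (emb n0 ξ) m) else 0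

lemma phi_bound {c0 : ℝ} (hc0 : 0 < c0) (hc : ∀ n : ℕ, Node n → c0 ≤ ‖P 2 n / 2‖)
    (n0 : ℕ) (g : ℕ → ℂ) (ξ : XS) (m : ℕ) :
    ‖phi n0 g ξ m‖ ≤ (1 / c0 + 20 * Cq / c0 ^ 2) * (Real.exp (2 * sn m) * ‖g m‖) +
      4 * (1 / c0 + 20 * Cq / c0 ^ 2) * Kd * tl n0 * ‖ξ‖ := by
  have hC := Cq_nonneg
  have hK := Kd_nonneg
  have ht := tl_nonneg n0
  unfold phi
  split_ifs with h
  · have h1 := solve_norm hc0 (hc m h.2) (g m - DD 0 (emb n0 ξ) m) (-DD 1 (emb n0 ξ) m)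
    have h2 : ‖DD 0 (emb n0 ξ) m‖ ≤ Kd * (2 * ‖ξ‖) * tl n0 * Real.exp (-(2 * sn m)) :=
      dual_bound (emb_size n0 ξ) (emb_low n0 ξ) m (by norm_num)
    have h3 : ‖DD 1 (emb n0 ξ) m‖ ≤ Kd * (2 * ‖ξ‖) * tl n0 * Real.exp (-(2 * sn m)) :=
      dual_bound (emb_size n0 ξ) (emb_low n0 ξ) m le_rfl
    have h4 : ‖g m - DD 0 (emb n0 ξ) m‖ + ‖-DD 1 (emb n0 ξ) m‖ ≤
        ‖g m‖ + 2 * (Kd * (2 * ‖ξ‖) * tl n0 * Real.exp (-(2 * sn m))) := by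
      rw [norm_neg]
      have := norm_sub_le (g m) (DD 0 (emb n0 ξ) m)
      linarith
    rw [norm_smul, Complex.norm_real, Real.norm_eq_abs, abs_of_pos (Real.exp_pos _)]
    have hL : 0 ≤ (1 / c0 + 20 * Cq / c0 ^ 2) := by positivity
    have hE : Real.exp (2 * sn m) * Real.exp (-(2 * sn m)) = 1 := by
      rw [← Real.exp_add]; simp
    calc Real.exp (2 * sn m) * ‖solve m (g m - DD 0 (emb n0 ξ) m) (-DD 1 (emb n0 ξ) m)‖
        ≤ Real.exp (2 * sn m) * ((1 / c0 + 20 * Cq / c0 ^ 2) *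
          (‖g m‖ + 2 * (Kd * (2 * ‖ξ‖) * tl n0 * Real.exp (-(2 * sn m))))) := by
          refine mul_le_mul_of_nonneg_left (h1.trans ?_) (Real.exp_pos _).le
          exact mul_le_mul_of_nonneg_left h4 hL
      _ = (1 / c0 + 20 * Cq / c0 ^ 2) * (Real.exp (2 * sn m) * ‖g m‖) +
        4 * (1 / c0 + 20 * Cq / c0 ^ 2) * Kd * tl n0 * ‖ξ‖ *
          (Real.exp (2 * sn m) * Real.exp (-(2 * sn m))) := by ring
      _ = _ := by rw [hE, mul_one]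
  · rw [norm_zero]
    positivity

lemma phi_sub (n0 : ℕ) (g : ℕ → ℂ) (ξ ζ : XS) (m : ℕ) :
    phi n0 g ξ m - phi n0 g ζ m = phi n0 0 (ξ - ζ) m := by
  unfold phi
  split_ifs with h
  · rw [← smul_sub, solve_sub]
    congr 1
    have h0 : DD 0 (emb n0 (ξ - ζ)) m = DD 0 (emb n0 ξ) m - DD 0 (emb n0 ζ) m := by
      unfold DD; rw [emb_sub]
      exact dual_sub (emb_size n0 ξ) (emb_size n0 ζ) m (by norm_num)
    have h1 : DD 1 (emb n0 (ξ - ζ)) m = DD 1 (emb n0 ξ) m - DD 1 (emb n0 ζ) m := by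
      unfold DD; rw [emb_sub]
      exact dual_sub (emb_size n0 ξ) (emb_size n0 ζ) m le_rfl
    rw [h0, h1]
    congr 1
    · simp only [Pi.zero_apply]; ring
    · ring
  · simp

/-- the map on bounded sequences for the data `δ_q` -/
def Phi {c0 : ℝ} (hc0 : 0 < c0) (hc : ∀ n : ℕ, Node n → c0 ≤ ‖P 2 n / 2‖)
    (n0 q : ℕ) (ξ : XS) : XS :=
  BoundedContinuousFunction.ofNormedAddCommGroupDiscrete
    (phi n0 (fun m => if m = q then 1 else 0) ξ)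
    ((1 / c0 + 20 * Cq / c0 ^ 2) * (Real.exp (2 * sn q)) +
      4 * (1 / c0 + 20 * Cq / c0 ^ 2) * Kd * tl n0 * ‖ξ‖) (by
    intro m
    have hC := Cq_nonneg
    refine (phi_bound hc0 hc n0 _ ξ m).trans ?_
    gcongr
    split_ifs with h
    · rw [h]; simp
    · simp; positivity)

lemma Phi_apply {c0 : ℝ} (hc0 : 0 < c0) (hc : ∀ n : ℕ, Node n → c0 ≤ ‖P 2 n / 2‖)
    (n0 q : ℕ) (ξ : XS) (m : ℕ) :
    Phi hc0 hc n0 q ξ m = phi n0 (fun m => if m = q then 1 else 0) ξ m := rfl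

lemma Phi_contr {c0 : ℝ} (hc0 : 0 < c0) (hc : ∀ n : ℕ, Node n → c0 ≤ ‖P 2 n / 2‖)
    {n0 : ℕ} (hn0 : 4 * (1 / c0 + 20 * Cq / c0 ^ 2) * Kd * tl n0 ≤ 1 / 2) (q : ℕ) :
    ContractingWith (1 / 2 : NNReal) (Phi hc0 hc n0 q) := by
  refine ⟨by rw [← NNReal.coe_lt_coe]; norm_num, ?_⟩
  refine LipschitzWith.of_dist_le_mul fun ξ ζ => ?_
  rw [dist_eq_norm, dist_eq_norm]
  rw [BoundedContinuousFunction.norm_le (by positivity)]
  intro m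
  rw [BoundedContinuousFunction.coe_sub, Pi.sub_apply, Phi_apply, Phi_apply, phi_sub]
  refine (phi_bound hc0 hc n0 0 (ξ - ζ) m).trans ?_
  simp only [Pi.zero_apply, norm_zero, mul_zero, zero_add]
  push_cast
  have := norm_nonneg (ξ - ζ)
  exact mul_le_mul_of_nonneg_right hn0 this

theorem exists_n0 : ∃ n0 : ℕ, ∀ q : ℕ, n0 ≤ q → Node q →
    ∃ (x : ℕ → ℂ × ℂ) (K : ℝ), Size x K ∧
      ∀ m : ℕ, n0 ≤ m → Node m →
        Hf mu (cw x) ow 0 m + Hf mu (cd (cw x) ow) (omd ow) 0 m = (if m = q then 1 else 0) ∧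
        Hf mu (cw x) ow 1 m + Hf mu (cd (cw x) ow) (omd ow) 1 m = 0 := by
  obtain ⟨c0, hc0, hc⟩ := P2_lower
  have ht : Tendsto (fun n0 => 4 * (1 / c0 + 20 * Cq / c0 ^ 2) * Kd * tl n0) atTop (𝓝 0) := by
    have := tl_tendsto.const_mul (4 * (1 / c0 + 20 * Cq / c0 ^ 2) * Kd)
    rwa [mul_zero] at this
  obtain ⟨n0, hn0⟩ := (ht.eventually (eventually_le_nhds (by norm_num : (0 : ℝ) < 1 / 2))).exists
  refine ⟨n0, fun q hq hNq => ?_⟩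
  have hcon := Phi_contr hc0 hc hn0 q
  set ξ := hcon.fixedPoint (Phi hc0 hc n0 q) with hξ
  have hfix : Phi hc0 hc n0 q ξ = ξ := hcon.fixedPoint_isFixedPt
  refine ⟨emb n0 ξ, 2 * ‖ξ‖, emb_size n0 ξ, fun m hm hNm => ?_⟩
  have h1 : ξ m = ((Real.exp (2 * sn m) : ℝ) : ℂ) •
      solve m ((if m = q then 1 else 0) - DD 0 (emb n0 ξ) m) (-DD 1 (emb n0 ξ) m) := by
    conv_lhs => rw [← hfix]
    rw [Phi_apply]
    unfold phi
    rw [if_pos ⟨hm, hNm⟩]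
  have h2 : emb n0 ξ m =
      solve m ((if m = q then 1 else 0) - DD 0 (emb n0 ξ) m) (-DD 1 (emb n0 ξ) m) := by
    conv_lhs => unfold emb
    rw [if_pos ⟨hm, hNm⟩, h1, smul_smul]
    have : ((Real.exp (-(2 * sn m)) : ℝ) : ℂ) * ((Real.exp (2 * sn m) : ℝ) : ℂ) = 1 := by
      rw [← Complex.ofReal_mul, ← Real.exp_add]; simp
    rw [this, one_smul]
  obtain ⟨h3, h4⟩ := whole_node (emb_size n0 ξ) (emb_nonnode n0 ξ) hNm
  have hcne : cm m ≠ 0 := by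
    have := hc m hNm
    intro h
    unfold cm at h
    rw [h, norm_zero] at this
    linarith
  have h5 : (emb n0 ξ m).1 = ((if m = q then 1 else 0) - DD 0 (emb n0 ξ) m) / cm m := by
    conv_lhs => rw [h2]
    rfl
  have h6 : (emb n0 ξ m).2 = (-DD 1 (emb n0 ξ) m - km m * (emb n0 ξ m).1) / cm m := by
    rw [h5]
    conv_lhs => rw [h2]
    unfold solve; rfl
  constructor
  · rw [h3]
    change cm m * (emb n0 ξ m).1 + DD 0 (emb n0 ξ) m = _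
    rw [h5, mul_div_cancel₀ _ hcne]
    ring
  · rw [h4]
    change km m * (emb n0 ξ m).1 + cm m * (emb n0 ξ m).2 + DD 1 (emb n0 ξ) m = _
    rw [h6, mul_div_cancel₀ _ hcne]
    ring

end

end Pool.Agent.H629R3.Hex
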