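import Mathlib
import Pool.Agent.H629R3.HexF

set_option autoImplicit false

open MeasureTheory Set Filter Topology Complex
open scoped FourierTransform SchwartzMap ComplexConjugate RealInnerProductSpace

namespace Pool.Agent.H629R3.Hex

noncomputable section

lemma fourier_fourier (s : SchwartzMap V ℂ) (x : V) : 𝓕 (𝓕 s) x = s (-x) := by
  have h1 : 𝓕⁻ (𝓕 s) = s := FourierTransform.fourierInv_fourier_eq s
  have h2 : 𝓕 (𝓕 s) x = 𝓕⁻ (𝓕 s) (-x) := by
    rw [SchwartzMap.fourier_coe, SchwartzMap.fourierInv_coe, Real.fourierInv_eq_fourier_neg,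
      neg_neg]
  rw [h2, h1]

/-- the profile -/
def Psi (x : ℕ → ℂ × ℂ) (k : ℕ) (v : ℝ) : ℂ :=
  Hf mu (cw x) ow k v + Hf mu (cd (cw x) ow) (omd ow) k v

lemma vq_neg (x : V) : vq (-x) = vq x := by unfold vq; rw [norm_neg]

lemma base {x : ℕ → ℂ × ℂ} {K : ℝ} (hx : Size x K) : ∃ F : SchwartzMap V ℂ,
    (∀ y, F y = Psi x 0 (vq y)) ∧ 𝓕 F = F ∧
      ∀ v : ℝ, 0 < v → HasDerivAt (Psi x 0) (Psi x 1 v) v := by
  have ha := adm_whole hx
  refine ⟨ha.schwartz + 𝓕 ha.schwartz, fun y => ?_, ?_, fun v hv => ?_⟩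
  · rw [SchwartzMap.add_apply, SchwartzMap.fourier_coe, ha.fourier_eq, ha.schwartz_apply]
    rfl
  · have h1 : 𝓕 (𝓕 ha.schwartz) = ha.schwartz := by
      ext y
      rw [fourier_fourier, ha.schwartz_apply, ha.schwartz_apply, vq_neg]
    rw [FourierTransform.fourier_add, h1, add_comm]
  · exact (ha.hasDerivAt 0 v).add (ha.dual_hasDerivAt hv)

theorem combo : ∃ (F : SchwartzMap V ℂ) (Ψ Ψ' : ℝ → ℂ),
    (∀ y, F y = Ψ (vq y)) ∧ 𝓕 F = F ∧ (∀ v : ℝ, 0 < v → HasDerivAt Ψ (Ψ' v) v) ∧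
    (∀ m : ℕ, m % 24 ∈ S24.erase 2 → Ψ m = 0 ∧ Ψ' m = 0) ∧ ∃ q : ℕ, Ψ q = 1 := by
  obtain ⟨n0, hn0⟩ := exists_n0
  let q : Fin (2 * n0 + 1) → ℕ := fun j => 24 * (n0 + j) + 2
  have hq1 : ∀ j, n0 ≤ q j := fun j => by simp only [q]; omega
  have hq2 : ∀ j, q j % 24 = 2 := fun j => by simp only [q]; omega
  have hq3 : ∀ j, Node (q j) := fun j => by unfold Node; rw [hq2]; decide
  have hq4 : ∀ i j, q i = q j → i = j := fun i j h => by
    simp only [q] at h; ext; omega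
  choose x K hx hxm using fun j => hn0 (q j) (hq1 j) (hq3 j)
  choose F hF hFF hd using fun j => base (hx j)
  let T : (Fin (2 * n0 + 1) → ℂ) →ₗ[ℂ] (Fin n0 → ℂ × ℂ) :=
    { toFun := fun l i => (∑ j, l j * Psi (x j) 0 i, ∑ j, l j * Psi (x j) 1 i)
      map_add' := by
        intro l l'
        funext i
        simp only [Pi.add_apply, Prod.mk_add_mk, add_mul, Finset.sum_add_distrib]
      map_smul' := by
        intro a l
        funext i
        simp only [Pi.smul_apply, smul_eq_mul, RingHom.id_apply, Prod.smul_mk, Finset.mul_sum,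
          mul_assoc] }
  have hker : LinearMap.ker T ≠ ⊥ := by
    apply LinearMap.ker_ne_bot_of_finrank_lt
    rw [Module.finrank_pi_fintype]
    simp only [Module.finrank_prod, Module.finrank_self, Finset.sum_const, Finset.card_univ,
      Fintype.card_fin, smul_eq_mul, Module.finrank_fintype_fun_eq_card]
    omega
  obtain ⟨l, hl, hne⟩ := Submodule.exists_mem_ne_zero_of_ne_bot hker
  obtain ⟨j0, hj0⟩ := Function.ne_iff.1 hne
  have hj0' : l j0 ≠ 0 := hj0
  set l' : Fin (2 * n0 + 1) → ℂ := (l j0)⁻¹ • l with hl'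
  have hT : T l' = 0 := by
    rw [hl', map_smul, LinearMap.mem_ker.1 hl, smul_zero]
  have hl1 : l' j0 = 1 := by
    rw [hl', Pi.smul_apply, smul_eq_mul, inv_mul_cancel₀ hj0']
  refine ⟨∑ j, l' j • F j, fun v => ∑ j, l' j * Psi (x j) 0 v,
    fun v => ∑ j, l' j * Psi (x j) 1 v, fun y => ?_, ?_, fun v hv => ?_, fun m hm => ?_,
    q j0, ?_⟩
  · rw [SchwartzMap.sum_apply]
    refine Finset.sum_congr rfl fun j _ => ?_
    rw [SchwartzMap.smul_apply, hF, smul_eq_mul]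
  · have h1 : ∀ (s : Finset (Fin (2 * n0 + 1))), 𝓕 (∑ j ∈ s, l' j • F j) =
        ∑ j ∈ s, l' j • F j := by
      intro s
      induction s using Finset.induction_on with
      | empty =>
        simp only [Finset.sum_empty]
        exact FourierTransform.fourier_zero
      | insert a s ha ih =>
        rw [Finset.sum_insert ha, FourierTransform.fourier_add, FourierTransform.fourier_smul,
          hFF, ih]
    exact h1 _
  · refine HasDerivAt.fun_sum fun j _ => ?_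
    exact (hd j v hv).const_mul (l' j)
  · by_cases hmn : m < n0
    · have h1 := congrFun hT ⟨m, hmn⟩
      have h2 := congrArg Prod.fst h1
      have h3 := congrArg Prod.snd h1
      exact ⟨h2, h3⟩
    · have hN : Node m := Finset.mem_of_mem_erase hm
      have hm2 : m % 24 ≠ 2 := Finset.ne_of_mem_erase hm
      have hval := fun j => hxm j m (not_lt.1 hmn) hN
      have hne' : ∀ j, m ≠ q j := fun j h => hm2 (by rw [h]; exact hq2 j)
      constructor
      · refine Finset.sum_eq_zero fun j _ => ?_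
        have := (hval j).1
        rw [if_neg (hne' j)] at this
        unfold Psi
        rw [this, mul_zero]
      · refine Finset.sum_eq_zero fun j _ => ?_
        have := (hval j).2
        unfold Psi
        rw [this, mul_zero]
  · change ∑ j, l' j * Psi (x j) 0 (q j0 : ℝ) = 1
    rw [Finset.sum_eq_single j0]
    · have := (hxm j0 (q j0) (hq1 j0) (hq3 j0)).1
      rw [if_pos rfl] at this
      unfold Psi
      rw [this, hl1, mul_one]
    · intro j _ hj
      have := (hxm j (q j0) (hq1 j0) (hq3 j0)).1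
      rw [if_neg (fun h => hj (hq4 _ _ h).symm)] at this
      unfold Psi
      rw [this, mul_zero]
    · intro h; exact absurd (Finset.mem_univ _) h

lemma fourier_conj (f : V → ℂ) (ξ : V) :
    𝓕 (fun v => conj (f v)) ξ = conj (𝓕 f (-ξ)) := by
  rw [Real.fourier_eq', Real.fourier_eq', ← integral_conj]
  congr 1
  funext v
  rw [smul_eq_mul, smul_eq_mul, map_mul, ← Complex.exp_conj]
  congr 2
  rw [map_mul, Complex.conj_ofReal, Complex.conj_I, inner_neg_right]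
  push_cast
  ring

/-- real-valued version -/
theorem real_version : ∃ (G : SchwartzMap V ℂ) (Ψ Ψ' : ℝ → ℂ),
    (∀ y, G y = Ψ (vq y)) ∧ (∀ y, (G y).im = 0) ∧ 𝓕 G = G ∧
    (∀ v : ℝ, 0 < v → HasDerivAt Ψ (Ψ' v) v) ∧
    (∀ m : ℕ, m % 24 ∈ S24.erase 2 → Ψ m = 0 ∧ Ψ' m = 0) ∧ G ≠ 0 := by
  obtain ⟨F, Ψ, Ψ', hF, hFF, hd, hm, q, hq⟩ := combo
  let Fc : SchwartzMap V ℂ := F.postcompCLM (Complex.conjCLE : ℂ →L[ℝ] ℂ)
  have hFc : ∀ y, Fc y = conj (F y) := fun y => by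
    simp only [Fc, SchwartzMap.postcompCLM_apply]
    simp
  have hFcF : 𝓕 Fc = Fc := by
    ext y
    rw [SchwartzMap.fourier_coe]
    have e : (Fc : V → ℂ) = fun v => conj (F v) := funext hFc
    rw [e, fourier_conj, ← SchwartzMap.fourier_coe, hFF]
    simp only
    rw [hF, hF, vq_neg]
  refine ⟨(1 / 2 : ℂ) • (F + Fc), fun v => (1 / 2 : ℂ) * (Ψ v + conj (Ψ v)),
    fun v => (1 / 2 : ℂ) * (Ψ' v + conj (Ψ' v)), fun y => ?_, fun y => ?_, ?_, fun v hv => ?_,
    fun m hm' => ?_, fun h0 => ?_⟩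
  · rw [SchwartzMap.smul_apply, SchwartzMap.add_apply, hFc, hF, smul_eq_mul]
  · rw [SchwartzMap.smul_apply, SchwartzMap.add_apply, hFc, Complex.add_conj, smul_eq_mul]
    simp
  · rw [FourierTransform.fourier_smul, FourierTransform.fourier_add, hFF, hFcF]
  · have h1 := hd v hv
    have h2 := h1.star
    exact (h1.add h2).const_mul (1 / 2 : ℂ)
  · obtain ⟨h1, h2⟩ := hm m hm'
    simp only [h1, h2, map_zero, add_zero, mul_zero, and_self]
  · -- evaluate at a point with vq = q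
    let t : ℝ := Real.sqrt (2 / Real.sqrt 3 * q)
    have ht : vq (t • EuclideanSpace.single (0 : Fin 2) (1 : ℝ)) = q := by
      unfold vq
      rw [norm_smul, EuclideanSpace.norm_single, norm_one, mul_one, Real.norm_eq_abs, sq_abs,
        Real.sq_sqrt (by positivity)]
      have := sqrt3_pos.ne'
      field_simp
    have h1 : ((1 / 2 : ℂ) • (F + Fc)) (t • EuclideanSpace.single (0 : Fin 2) (1 : ℝ)) =
      (0 : SchwartzMap V ℂ) (t • EuclideanSpace.single (0 : Fin 2) (1 : ℝ)) := by rw [h0]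
    rw [SchwartzMap.smul_apply, SchwartzMap.add_apply, hFc, hF, ht, hq] at h1
    simp at h1

lemma loesch : ∀ a b : ZMod 24, (a ^ 2 + a * b + b ^ 2).val ∈ S24.erase 2 := by
  decide +kernel

lemma loesch_nat {m : ℕ} {j k : ℤ} (h : (m : ℤ) = j ^ 2 + j * k + k ^ 2) :
    m % 24 ∈ S24.erase 2 := by
  have h1 := loesch (j : ZMod 24) (k : ZMod 24)
  have h2 : ((j : ZMod 24) ^ 2 + (j : ZMod 24) * (k : ZMod 24) + (k : ZMod 24) ^ 2) =
      ((m : ℕ) : ZMod 24) := by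
    have := congrArg (Int.cast : ℤ → ZMod 24) h
    push_cast at this
    exact this.symm
  rw [h2, ZMod.val_natCast] at h1
  exact h1

lemma quarter : Real.sqrt 3 / 2 * ((4 / 3 : ℝ) ^ ((1 : ℝ) / 4)) ^ 2 = 1 := by
  have h1 : 0 < (4 / 3 : ℝ) ^ ((1 : ℝ) / 4) := Real.rpow_pos_of_pos (by norm_num) _
  have h2 : ((4 / 3 : ℝ) ^ ((1 : ℝ) / 4)) ^ 4 = 4 / 3 := by
    rw [← Real.rpow_natCast, ← Real.rpow_mul (by norm_num)]
    norm_num
  have h3 : (Real.sqrt 3) ^ 2 = 3 := Real.sq_sqrt (by norm_num)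
  have h4 : (Real.sqrt 3 / 2 * ((4 / 3 : ℝ) ^ ((1 : ℝ) / 4)) ^ 2) ^ 2 = 1 := by
    calc (Real.sqrt 3 / 2 * ((4 / 3 : ℝ) ^ ((1 : ℝ) / 4)) ^ 2) ^ 2
        = (Real.sqrt 3) ^ 2 / 4 * ((4 / 3 : ℝ) ^ ((1 : ℝ) / 4)) ^ 4 := by ring
      _ = 1 := by rw [h2, h3]; norm_num
  have h5 : 0 < Real.sqrt 3 / 2 * ((4 / 3 : ℝ) ^ ((1 : ℝ) / 4)) ^ 2 := by
    have := sqrt3_pos
    positivity
  nlinarith

theorem main :
    ∃ f : SchwartzMap (EuclideanSpace ℝ (Fin 2)) ℂ,
      (∀ x y : EuclideanSpace ℝ (Fin 2), ‖x‖ = ‖y‖ → f x = f y) ∧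
      (∀ x : EuclideanSpace ℝ (Fin 2), (f x).im = 0) ∧
      f ≠ 0 ∧
      ∀ r : ℝ, 0 < r →
        (∃ j k : ℤ, r = (4 / 3 : ℝ) ^ ((1 : ℝ) / 4) *
            Real.sqrt ((j : ℝ) ^ 2 + (j : ℝ) * (k : ℝ) + (k : ℝ) ^ 2)) →
        f (r • EuclideanSpace.single (0 : Fin 2) (1 : ℝ)) = 0 ∧
        deriv (fun t : ℝ => f (t • EuclideanSpace.single (0 : Fin 2) (1 : ℝ))) r = 0 ∧
        𝓕 (f : EuclideanSpace ℝ (Fin 2) → ℂ)
            (r • EuclideanSpace.single (0 : Fin 2) (1 : ℝ)) = 0 ∧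
        deriv (fun t : ℝ => 𝓕 (f : EuclideanSpace ℝ (Fin 2) → ℂ)
            (t • EuclideanSpace.single (0 : Fin 2) (1 : ℝ))) r = 0 := by
  obtain ⟨G, Ψ, Ψ', hG, hre, hGG, hd, hm, hne⟩ := real_version
  refine ⟨G, fun x y hxy => ?_, hre, hne, fun r hr hjk => ?_⟩
  · rw [hG, hG]; unfold vq; rw [hxy]
  · obtain ⟨j, k, hjk⟩ := hjk
    have hfour : (𝓕 (G : EuclideanSpace ℝ (Fin 2) → ℂ)) = G := by
      rw [← SchwartzMap.fourier_coe, hGG]
    rw [hfour]
    have hnn : 0 ≤ (j : ℝ) ^ 2 + (j : ℝ) * (k : ℝ) + (k : ℝ) ^ 2 := by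
      nlinarith [sq_nonneg ((j : ℝ) + k), sq_nonneg (j : ℝ), sq_nonneg (k : ℝ)]
    have hnnZ : 0 ≤ j ^ 2 + j * k + k ^ 2 := by exact_mod_cast hnn
    obtain ⟨m, hmm⟩ := Int.eq_ofNat_of_zero_le hnnZ
    have hres := loesch_nat hmm.symm
    have hmR : ((m : ℕ) : ℝ) = (j : ℝ) ^ 2 + (j : ℝ) * (k : ℝ) + (k : ℝ) ^ 2 := by
      have := congrArg (Int.cast : ℤ → ℝ) hmm
      push_cast at this
      exact this.symm
    have hv : Real.sqrt 3 / 2 * r ^ 2 = m := by
      rw [hjk, mul_pow, Real.sq_sqrt hnn, ← mul_assoc, quarter, one_mul, hmR]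
    have hray : ∀ t : ℝ, G (t • EuclideanSpace.single (0 : Fin 2) (1 : ℝ)) =
        Ψ (Real.sqrt 3 / 2 * t ^ 2) := by
      intro t
      rw [hG]
      unfold vq
      rw [norm_smul, EuclideanSpace.norm_single, norm_one, mul_one, Real.norm_eq_abs, sq_abs]
    have h1 : G (r • EuclideanSpace.single (0 : Fin 2) (1 : ℝ)) = 0 := by
      rw [hray, hv]; exact (hm m hres).1
    have h2 : deriv (fun t : ℝ => G (t • EuclideanSpace.single (0 : Fin 2) (1 : ℝ))) r = 0 := by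
      have hfun : (fun t : ℝ => G (t • EuclideanSpace.single (0 : Fin 2) (1 : ℝ))) =
          fun t : ℝ => Ψ (Real.sqrt 3 / 2 * t ^ 2) := funext hray
      rw [hfun]
      have hpos : 0 < Real.sqrt 3 / 2 * r ^ 2 := by
        have := sqrt3_pos
        positivity
      have hinner : HasDerivAt (fun t : ℝ => Real.sqrt 3 / 2 * t ^ 2)
          (Real.sqrt 3 / 2 * (2 * r)) r := by
        have := (hasDerivAt_pow 2 r).const_mul (Real.sqrt 3 / 2)
        simpa using this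
      have hcomp := (hd _ hpos).scomp r hinner
      rw [hv, (hm m hres).2, smul_zero] at hcomp
      exact hcomp.deriv
    exact ⟨h1, h2, h1, h2⟩

end

end Pool.Agent.H629R3.Hex
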