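import Mathlib

set_option autoImplicit false

open MeasureTheory Set Filter Topology

namespace Pool.Agent.H629R3.Stair

noncomputable section

/-- approximants of the staircase function with contraction ratio `1/b` -/
def Hn (b : ℝ) : ℕ → ℝ → ℝ
  | 0, x => max 0 (min x 1)
  | n + 1, x => (Hn b n (b * x) + Hn b n (b * x - b + 1)) / 2

lemma Hn_zero (b x : ℝ) : Hn b 0 x = max 0 (min x 1) := rfl

lemma Hn_succ (b : ℝ) (n : ℕ) (x : ℝ) :
    Hn b (n + 1) x = (Hn b n (b * x) + Hn b n (b * x - b + 1)) / 2 := rfl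

lemma Hn_mem (b : ℝ) (n : ℕ) (x : ℝ) : 0 ≤ Hn b n x ∧ Hn b n x ≤ 1 := by
  induction n generalizing x with
  | zero => rw [Hn_zero]; exact ⟨le_max_left _ _, max_le (by norm_num) (min_le_right _ _)⟩
  | succ n ih =>
    rw [Hn_succ]
    have h1 := ih (b * x)
    have h2 := ih (b * x - b + 1)
    constructor <;> linarith [h1.1, h1.2, h2.1, h2.2]

variable {b : ℝ} (hb : 3 ≤ b)

include hb

lemma Hn_of_nonpos (n : ℕ) {x : ℝ} (hx : x ≤ 0) : Hn b n x = 0 := by
  induction n generalizing x with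
  | zero => rw [Hn_zero, max_eq_left]; exact (min_le_left _ _).trans hx
  | succ n ih =>
    have h1 : b * x ≤ 0 := by nlinarith
    rw [Hn_succ, ih h1, ih (by linarith)]; norm_num

lemma Hn_of_one_le (n : ℕ) {x : ℝ} (hx : 1 ≤ x) : Hn b n x = 1 := by
  induction n generalizing x with
  | zero => rw [Hn_zero, min_eq_right hx]; norm_num
  | succ n ih =>
    have h1 : b ≤ b * x := by nlinarith
    rw [Hn_succ, ih (by linarith), ih (by linarith)]; norm_num

lemma Hn_mono (n : ℕ) : Monotone (Hn b n) := by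
  induction n with
  | zero =>
    intro x y h
    rw [Hn_zero, Hn_zero]
    exact max_le_max le_rfl (min_le_min h le_rfl)
  | succ n ih =>
    intro x y h
    have h1 : b * x ≤ b * y := mul_le_mul_of_nonneg_left h (by linarith)
    have h2 := ih h1
    have h3 : Hn b n (b * x - b + 1) ≤ Hn b n (b * y - b + 1) := ih (by linarith)
    rw [Hn_succ, Hn_succ]
    linarith

lemma Hn_lip (n : ℕ) (x y : ℝ) : |Hn b n x - Hn b n y| ≤ b ^ n * |x - y| := by
  induction n generalizing x y with
  | zero =>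
    rw [Hn_zero, Hn_zero, pow_zero, one_mul]
    have h1 := abs_max_sub_max_le_abs (min x 1) (min y 1) 0
    have h2 := abs_min_sub_min_le_max x 1 y 1
    rw [max_comm 0 (min x 1), max_comm 0 (min y 1)]
    refine h1.trans (h2.trans ?_)
    simp
  | succ n ih =>
    rw [Hn_succ, Hn_succ]
    have h1 := ih (b * x) (b * y)
    have h2 := ih (b * x - b + 1) (b * y - b + 1)
    have e1 : |b * x - b * y| = b * |x - y| := by
      rw [← mul_sub, abs_mul, abs_of_nonneg (by linarith : (0 : ℝ) ≤ b)]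
    have e2 : |b * x - b + 1 - (b * y - b + 1)| = b * |x - y| := by
      rw [← e1]; congr 1; ring
    rw [e1] at h1
    rw [e2] at h2
    have e3 : (Hn b n (b * x) + Hn b n (b * x - b + 1)) / 2 -
        (Hn b n (b * y) + Hn b n (b * y - b + 1)) / 2 =
        ((Hn b n (b * x) - Hn b n (b * y)) + (Hn b n (b * x - b + 1) - Hn b n (b * y - b + 1))) / 2 := by
      ring
    rw [e3, abs_div, abs_two]
    have h3 := abs_add_le (Hn b n (b * x) - Hn b n (b * y))
      (Hn b n (b * x - b + 1) - Hn b n (b * y - b + 1))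
    rw [pow_succ]
    nlinarith

lemma Hn_diff (n : ℕ) (x : ℝ) : |Hn b (n + 1) x - Hn b n x| ≤ (1 / 2 : ℝ) ^ n := by
  induction n generalizing x with
  | zero =>
    have h1 := Hn_mem b 1 x
    have h2 := Hn_mem b 0 x
    rw [pow_zero, abs_le]
    constructor <;> simp only [zero_add] <;> linarith [h1.1, h1.2, h2.1, h2.2]
  | succ n ih =>
    rw [Hn_succ b (n + 1) x, show Hn b (n + 1) x = (Hn b n (b * x) + Hn b n (b * x - b + 1)) / 2 from
      Hn_succ b n x]
    have e3 : (Hn b (n + 1) (b * x) + Hn b (n + 1) (b * x - b + 1)) / 2 -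
        (Hn b n (b * x) + Hn b n (b * x - b + 1)) / 2 =
        ((Hn b (n + 1) (b * x) - Hn b n (b * x)) +
          (Hn b (n + 1) (b * x - b + 1) - Hn b n (b * x - b + 1))) / 2 := by
      ring
    rw [e3, abs_div, abs_two, pow_succ]
    rcases le_total 1 (b * x) with h | h
    · rw [Hn_of_one_le hb _ h, Hn_of_one_le hb _ h]
      have := ih (b * x - b + 1)
      simp only [sub_self, zero_add]
      linarith
    · have h' : b * x - b + 1 ≤ 0 := by linarith
      rw [Hn_of_nonpos hb _ h', Hn_of_nonpos hb _ h']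
      have := ih (b * x)
      simp only [sub_self, add_zero]
      linarith

lemma Hn_cauchy (x : ℝ) : CauchySeq (fun n => Hn b n x) := by
  refine cauchySeq_of_le_geometric (1 / 2 : ℝ) 1 (by norm_num) (fun n => ?_)
  rw [dist_comm, Real.dist_eq, one_mul]
  exact Hn_diff hb n x

omit hb in
/-- the staircase function -/
def H (b : ℝ) (x : ℝ) : ℝ := limUnder atTop (fun n => Hn b n x)

lemma H_tendsto (x : ℝ) : Tendsto (fun n => Hn b n x) atTop (𝓝 (H b x)) :=
  (Hn_cauchy hb x).tendsto_limUnder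

lemma H_dist (n : ℕ) (x : ℝ) : |Hn b n x - H b x| ≤ 2 * (1 / 2 : ℝ) ^ n := by
  have h := dist_le_of_le_geometric_of_tendsto (1 / 2 : ℝ) 1 (by norm_num)
    (f := fun n => Hn b n x) (fun n => by
      rw [dist_comm, Real.dist_eq, one_mul]; exact Hn_diff hb n x) (H_tendsto hb x) n
  rw [Real.dist_eq] at h
  refine h.trans (le_of_eq ?_)
  norm_num
  ring

lemma H_mem (x : ℝ) : 0 ≤ H b x ∧ H b x ≤ 1 :=
  ⟨ge_of_tendsto' (H_tendsto hb x) (fun n => (Hn_mem b n x).1),
    le_of_tendsto' (H_tendsto hb x) (fun n => (Hn_mem b n x).2)⟩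

lemma H_of_nonpos {x : ℝ} (hx : x ≤ 0) : H b x = 0 :=
  tendsto_nhds_unique (H_tendsto hb x)
    (by simp_rw [Hn_of_nonpos hb _ hx]; exact tendsto_const_nhds)

lemma H_of_one_le {x : ℝ} (hx : 1 ≤ x) : H b x = 1 :=
  tendsto_nhds_unique (H_tendsto hb x)
    (by simp_rw [Hn_of_one_le hb _ hx]; exact tendsto_const_nhds)

lemma H_mono : Monotone (H b) := fun x y h =>
  le_of_tendsto_of_tendsto' (H_tendsto hb x) (H_tendsto hb y) (fun n => Hn_mono hb n h)

lemma H_eq (x : ℝ) : H b x = (H b (b * x) + H b (b * x - b + 1)) / 2 := by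
  have h1 : Tendsto (fun n => Hn b (n + 1) x) atTop (𝓝 (H b x)) :=
    (H_tendsto hb x).comp (tendsto_add_atTop_nat 1)
  have h2 : Tendsto (fun n => Hn b (n + 1) x) atTop
      (𝓝 ((H b (b * x) + H b (b * x - b + 1)) / 2)) := by
    simp_rw [Hn_succ]
    exact ((H_tendsto hb _).add (H_tendsto hb _)).div_const 2
  exact tendsto_nhds_unique h1 h2

/-- Hölder bound, with exponent `a` such that `(2b)^a ≤ 2`. -/
lemma H_holder {a : ℝ} (ha : 0 < a) (_ha1 : a ≤ 1) (hab : (2 * b) ^ a ≤ 2) (x y : ℝ) :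
    |H b x - H b y| ≤ 10 * |x - y| ^ a := by
  rcases eq_or_ne x y with rfl | hne
  · simp only [sub_self, abs_zero]
    rw [Real.zero_rpow ha.ne']; norm_num
  have hpos : 0 < |x - y| := abs_pos.2 (sub_ne_zero.2 hne)
  rcases le_total 1 |x - y| with h1 | h1
  · have hx := H_mem hb x
    have hy := H_mem hb y
    have : |H b x - H b y| ≤ 1 := by
      rw [abs_le]; constructor <;> linarith [hx.1, hx.2, hy.1, hy.2]
    have h2 : 1 ≤ |x - y| ^ a := Real.one_le_rpow h1 ha.le
    linarith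
  · obtain ⟨n, hn1, hn2⟩ := exists_nat_pow_near (x := 1 / |x - y|) (y := 2 * b)
      (by rw [le_div_iff₀ hpos]; linarith) (by linarith)
    have hb0 : (0 : ℝ) < 2 * b := by linarith
    have e1 : |H b x - H b y| ≤ b ^ n * |x - y| + 4 * (1 / 2 : ℝ) ^ n := by
      have h2 := H_dist hb n x
      have h3 := H_dist hb n y
      have h4 := Hn_lip hb n x y
      have e : H b x - H b y = (Hn b n x - Hn b n y) - (Hn b n x - H b x) + (Hn b n y - H b y) := by
        ring
      rw [e]
      have h5 := abs_add_le ((Hn b n x - Hn b n y) - (Hn b n x - H b x)) (Hn b n y - H b y)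
      have h6 := abs_sub (Hn b n x - Hn b n y) (Hn b n x - H b x)
      linarith
    have e2 : b ^ n * |x - y| ≤ (1 / 2 : ℝ) ^ n := by
      rw [le_div_iff₀ hpos, mul_pow] at hn1
      have h2 : (0 : ℝ) < 2 ^ n := by positivity
      rw [one_div, inv_pow, ← one_div, le_div_iff₀ h2]
      linarith
    have e3 : (1 / 2 : ℝ) ^ n ≤ 2 * |x - y| ^ a := by
      rw [div_lt_iff₀ hpos] at hn2
      have h2 : (1 : ℝ) ≤ ((2 * b) ^ (n + 1) * |x - y|) ^ a :=
        Real.one_le_rpow hn2.le ha.le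
      rw [Real.mul_rpow (by positivity) hpos.le, ← Real.rpow_natCast, ← Real.rpow_mul hb0.le,
        mul_comm ((n + 1 : ℕ) : ℝ) a, Real.rpow_mul hb0.le, Real.rpow_natCast] at h2
      have h3 : ((2 * b) ^ a) ^ (n + 1) ≤ (2 : ℝ) ^ (n + 1) :=
        pow_le_pow_left₀ (by positivity) hab _
      have h4 : 0 < |x - y| ^ a := Real.rpow_pos_of_pos hpos _
      have h5 : (1 : ℝ) ≤ 2 ^ (n + 1) * |x - y| ^ a := h2.trans (by gcongr)
      have h6 : (0 : ℝ) < 2 ^ n := by positivity
      rw [one_div, inv_pow, inv_le_iff_one_le_mul₀ h6]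
      rw [pow_succ] at h5
      linarith
    linarith

lemma H_cont : Continuous (H b) := by
  obtain ⟨a, ha, ha1, hab⟩ : ∃ a : ℝ, 0 < a ∧ a ≤ 1 ∧ (2 * b) ^ a ≤ 2 := by
    have h2b : (1 : ℝ) < 2 * b := by linarith
    have hl : 0 < Real.log (2 * b) := Real.log_pos h2b
    refine ⟨Real.log 2 / Real.log (2 * b), div_pos (Real.log_pos (by norm_num)) hl, ?_, ?_⟩
    · rw [div_le_one hl]
      exact Real.log_le_log (by norm_num) (by linarith)
    · rw [Real.rpow_def_of_pos (by linarith), mul_div_cancel₀ _ hl.ne',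
        Real.exp_log (by norm_num)]
  rw [Metric.continuous_iff]
  intro x ε hε
  have hc : Tendsto (fun t : ℝ => 10 * t ^ a) (𝓝 0) (𝓝 (10 * (0 : ℝ) ^ a)) :=
    ((Real.continuousAt_rpow_const 0 a (Or.inr ha.le)).tendsto).const_mul 10
  rw [Real.zero_rpow ha.ne', mul_zero] at hc
  rw [Metric.tendsto_nhds_nhds] at hc
  obtain ⟨δ, hδ, h⟩ := hc ε hε
  refine ⟨δ, hδ, fun y hy => ?_⟩
  have h2 := h (x := |y - x|) (by rw [Real.dist_eq, sub_zero, abs_abs]; rwa [Real.dist_eq] at hy)
  rw [Real.dist_eq, sub_zero] at h2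
  rw [Real.dist_eq]
  exact lt_of_le_of_lt ((H_holder hb ha ha1 hab y x).trans (le_abs_self _)) h2

omit hb in
/-- the set where the staircase moves between `x` and `x+s` -/
def S (b s : ℝ) : Set ℝ := {x | H b (x + s) ≠ H b x}

lemma S_meas (s : ℝ) : MeasurableSet (S b s) := by
  have h1 : Measurable (fun x => H b (x + s)) :=
    ((H_cont hb).comp (continuous_id.add continuous_const)).measurable
  have h2 : Measurable (H b) := (H_cont hb).measurable
  exact (measurableSet_eq_fun h1 h2).compl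

lemma S_base {s : ℝ} (hs : 0 ≤ s) : volume (S b s) ≤ ENNReal.ofReal (1 + s) := by
  have hsub : S b s ⊆ Icc (-s) 1 := by
    intro x hx
    by_contra hc
    apply hx
    rw [mem_Icc, not_and_or, not_le, not_le] at hc
    rcases hc with h | h
    · rw [H_of_nonpos hb (by linarith), H_of_nonpos hb (by linarith)]
    · rw [H_of_one_le hb (by linarith), H_of_one_le hb (by linarith)]
  refine (measure_mono hsub).trans ?_
  rw [Real.volume_Icc]
  apply le_of_eq
  congr 1; ring

lemma S_step (s : ℝ) : volume (S b s) ≤ ENNReal.ofReal (2 / b) * volume (S b (b * s)) := by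
  have hb0 : 0 < b := by linarith
  have hsub : S b s ⊆ ((fun x => b * x) ⁻¹' (S b (b * s))) ∪
      ((fun x => b * x - b + 1) ⁻¹' (S b (b * s))) := by
    intro x hx
    by_contra hc
    rw [mem_union, not_or] at hc
    apply hx
    have h1 : H b (b * x + b * s) = H b (b * x) := by
      by_contra h; exact hc.1 h
    have h2 : H b (b * x - b + 1 + b * s) = H b (b * x - b + 1) := by
      by_contra h; exact hc.2 h
    rw [H_eq hb (x + s), H_eq hb x, mul_add, h1]
    rw [show b * x + b * s - b + 1 = b * x - b + 1 + b * s by ring, h2]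
  have v1 : volume ((fun x => b * x) ⁻¹' (S b (b * s))) = ENNReal.ofReal (1 / b) * volume (S b (b * s)) := by
    have := Real.volume_preimage_mul_left hb0.ne' (S b (b * s))
    rw [this, abs_of_pos (inv_pos.2 hb0), one_div]
  have v2 : volume ((fun x => b * x - b + 1) ⁻¹' (S b (b * s))) =
      ENNReal.ofReal (1 / b) * volume (S b (b * s)) := by
    have e : (fun x : ℝ => b * x - b + 1) ⁻¹' (S b (b * s)) =
        (fun x => b * x) ⁻¹' ((fun y => y + (-b + 1)) ⁻¹' (S b (b * s))) := by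
      ext x; simp only [mem_preimage]; rw [show b * x + (-b + 1) = b * x - b + 1 by ring]
    rw [e, Real.volume_preimage_mul_left hb0.ne', abs_of_pos (inv_pos.2 hb0), one_div,
      measure_preimage_add_right]
  refine (measure_mono hsub).trans ((measure_union_le _ _).trans ?_)
  rw [v1, v2, ← add_mul, ← ENNReal.ofReal_add (by positivity) (by positivity)]
  apply le_of_eq
  congr 2
  ring

lemma S_iter (n : ℕ) (s : ℝ) :
    volume (S b s) ≤ ENNReal.ofReal ((2 / b) ^ n) * volume (S b (b ^ n * s)) := by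
  have hb0 : 0 < b := by linarith
  induction n with
  | zero => simp
  | succ n ih =>
    refine ih.trans ?_
    refine (mul_le_mul_right (S_step hb (b ^ n * s)) _).trans ?_
    rw [← mul_assoc, ← ENNReal.ofReal_mul (by positivity), ← pow_succ, ← mul_assoc, ← pow_succ']

/-- measure bound for the moving set -/
lemma S_bound {β : ℝ} (hβ0 : 0 < β) (hβ1 : β ≤ 1) (hbβ : 2 / b ≤ b ^ (-β)) {s : ℝ} (hs : 0 < s)
    (hs1 : s ≤ 1) : volume (S b s) ≤ ENNReal.ofReal (2 * b * s ^ β) := by
  have hb0 : 0 < b := by linarith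
  obtain ⟨n, hn1, hn2⟩ := exists_nat_pow_near (x := 1 / s) (y := b)
      (by rw [le_div_iff₀ hs]; linarith) (by linarith)
  rw [le_div_iff₀ hs] at hn1
  rw [div_lt_iff₀ hs] at hn2
  refine (S_iter hb n s).trans ?_
  refine (mul_le_mul_right (S_base hb (by positivity)) _).trans ?_
  rw [← ENNReal.ofReal_mul (by positivity)]
  apply ENNReal.ofReal_le_ofReal
  have h1 : (2 / b) ^ n ≤ (b ^ (-β)) ^ n := pow_le_pow_left₀ (by positivity) hbβ n
  have h2 : (b ^ (-β)) ^ n ≤ b * s ^ β := by
    have h3 : (1 : ℝ) ≤ (b ^ (n + 1) * s) ^ β := Real.one_le_rpow hn2.le hβ0.le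
    rw [Real.mul_rpow (by positivity) hs.le, ← Real.rpow_natCast, ← Real.rpow_mul hb0.le,
        mul_comm ((n + 1 : ℕ) : ℝ) β, Real.rpow_mul hb0.le, Real.rpow_natCast] at h3
    have h4 : b ^ β ≤ b := by
      calc b ^ β ≤ b ^ (1 : ℝ) := Real.rpow_le_rpow_of_exponent_le (by linarith) hβ1
        _ = b := Real.rpow_one b
    have h5 : 0 < (b ^ β) ^ n := by positivity
    have h6 : 0 < s ^ β := Real.rpow_pos_of_pos hs _
    rw [Real.rpow_neg hb0.le, inv_pow, inv_le_iff_one_le_mul₀ h5]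
    calc (1 : ℝ) ≤ (b ^ β) ^ (n + 1) * s ^ β := h3
      _ = (b ^ β) * s ^ β * (b ^ β) ^ n := by ring
      _ ≤ b * s ^ β * (b ^ β) ^ n := by gcongr
  have h7 : (1 + b ^ n * s) ≤ 2 := by linarith
  calc (2 / b) ^ n * (1 + b ^ n * s) ≤ (b * s ^ β) * 2 :=
        mul_le_mul (h1.trans h2) h7 (by positivity) (by positivity)
    _ = 2 * b * s ^ β := by ring

end

end Pool.Agent.H629R3.Stair
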