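import Mathlib
import Pool.Agent.H629R3.Stair

set_option autoImplicit false

open MeasureTheory Set Filter Topology

namespace Pool.Agent.H629R3.Stair

noncomputable section

/-- the `k`-th staircase: `k+1` rescaled copies side by side -/
def Hk (b : ℝ) (k : ℕ) (x : ℝ) : ℝ :=
  (1 / ((k : ℝ) + 1)) * ∑ i ∈ Finset.range (k + 1), H b (((k : ℝ) + 1) * x - i)

variable {b : ℝ} (hb : 3 ≤ b)

include hb

omit hb in
lemma Hk_zero (x : ℝ) : Hk b 0 x = H b x := by
  simp [Hk]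

lemma Hk_of_nonpos (k : ℕ) {x : ℝ} (hx : x ≤ 0) : Hk b k x = 0 := by
  unfold Hk
  rw [Finset.sum_eq_zero, mul_zero]
  intro i _
  apply H_of_nonpos hb
  have : ((k : ℝ) + 1) * x ≤ 0 := mul_nonpos_of_nonneg_of_nonpos (by positivity) hx
  have hi : (0 : ℝ) ≤ i := Nat.cast_nonneg i
  linarith

lemma Hk_of_one_le (k : ℕ) {x : ℝ} (hx : 1 ≤ x) : Hk b k x = 1 := by
  unfold Hk
  rw [Finset.sum_congr rfl (g := fun _ => (1 : ℝ))]
  · simp
    field_simp
  · intro i hi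
    apply H_of_one_le hb
    have h1 : (i : ℝ) ≤ k := by
      have := Finset.mem_range.1 hi
      exact_mod_cast Nat.lt_succ_iff.1 this
    have : ((k : ℝ) + 1) ≤ ((k : ℝ) + 1) * x := by
      have hk : (0 : ℝ) ≤ k := Nat.cast_nonneg k
      nlinarith
    linarith

lemma Hk_mono (k : ℕ) : Monotone (Hk b k) := by
  intro x y h
  unfold Hk
  refine mul_le_mul_of_nonneg_left ?_ (by positivity)
  refine Finset.sum_le_sum (fun i _ => H_mono hb ?_)
  have : ((k : ℝ) + 1) * x ≤ ((k : ℝ) + 1) * y := mul_le_mul_of_nonneg_left h (by positivity)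
  linarith

lemma Hk_mem (k : ℕ) (x : ℝ) : 0 ≤ Hk b k x ∧ Hk b k x ≤ 1 := by
  constructor
  · have h1 : Hk b k (min x 0) ≤ Hk b k x := Hk_mono hb k (min_le_left _ _)
    rwa [Hk_of_nonpos hb k (min_le_right _ _)] at h1
  · have h1 : Hk b k x ≤ Hk b k (max x 1) := Hk_mono hb k (le_max_left _ _)
    rwa [Hk_of_one_le hb k (le_max_right _ _)] at h1

lemma Hk_cont (k : ℕ) : Continuous (Hk b k) := by
  unfold Hk
  refine continuous_const.mul (continuous_finsetSum _ (fun i _ => ?_))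
  exact (H_cont hb).comp (by fun_prop)

lemma Hk_holder {a : ℝ} (ha : 0 < a) (ha1 : a ≤ 1) (hab : (2 * b) ^ a ≤ 2) (k : ℕ) (x y : ℝ) :
    |Hk b k x - Hk b k y| ≤ 10 * ((k : ℝ) + 1) * |x - y| ^ a := by
  unfold Hk
  rw [← mul_sub, ← Finset.sum_sub_distrib, abs_mul, abs_of_nonneg (by positivity)]
  have hk : (0 : ℝ) < (k : ℝ) + 1 := by positivity
  have h1 : ∀ i ∈ Finset.range (k + 1),
      |H b (((k : ℝ) + 1) * x - i) - H b (((k : ℝ) + 1) * y - i)| ≤
        10 * ((k : ℝ) + 1) * |x - y| ^ a := by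
    intro i _
    refine (H_holder hb ha ha1 hab _ _).trans ?_
    have e : ((k : ℝ) + 1) * x - i - (((k : ℝ) + 1) * y - i) = ((k : ℝ) + 1) * (x - y) := by ring
    rw [e, abs_mul, abs_of_pos hk, Real.mul_rpow hk.le (abs_nonneg _), mul_assoc]
    have h2 : ((k : ℝ) + 1) ^ a ≤ (k : ℝ) + 1 := by
      calc ((k : ℝ) + 1) ^ a ≤ ((k : ℝ) + 1) ^ (1 : ℝ) :=
            Real.rpow_le_rpow_of_exponent_le (by linarith [(Nat.cast_nonneg k : (0 : ℝ) ≤ k)]) ha1
        _ = (k : ℝ) + 1 := Real.rpow_one _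
    have h3 : 0 ≤ |x - y| ^ a := Real.rpow_nonneg (abs_nonneg _) _
    have := mul_le_mul_of_nonneg_right h2 h3
    linarith
  have h2 := (Finset.abs_sum_le_sum_abs (fun i : ℕ => H b (((k : ℝ) + 1) * x - i) -
    H b (((k : ℝ) + 1) * y - i)) (Finset.range (k + 1))).trans (Finset.sum_le_sum h1)
  rw [Finset.sum_const, Finset.card_range, nsmul_eq_mul] at h2
  push_cast at h2
  calc 1 / ((k : ℝ) + 1) * |∑ i ∈ Finset.range (k + 1), (H b (((k : ℝ) + 1) * x - i) -
        H b (((k : ℝ) + 1) * y - i))|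
      ≤ 1 / ((k : ℝ) + 1) * (((k : ℝ) + 1) * (10 * ((k : ℝ) + 1) * |x - y| ^ a)) := by
        gcongr
    _ = 10 * ((k : ℝ) + 1) * |x - y| ^ a := by field_simp

lemma Hk_strict {x y : ℝ} (hx : 0 ≤ x) (hy : y ≤ 1) (k : ℕ)
    (hk : 2 ≤ ((k : ℝ) + 1) * (y - x)) : Hk b k x < Hk b k y := by
  have hxy : x ≤ y := by
    by_contra h
    push Not at h
    have : ((k : ℝ) + 1) * (y - x) ≤ 0 :=
      mul_nonpos_of_nonneg_of_nonpos (by positivity) (by linarith)
    linarith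
  unfold Hk
  refine mul_lt_mul_of_pos_left ?_ (by positivity)
  have hk0 : (0 : ℝ) ≤ ((k : ℝ) + 1) * x := by positivity
  set i := ⌈((k : ℝ) + 1) * x⌉₊ with hi
  have h1 : ((k : ℝ) + 1) * x ≤ i := Nat.le_ceil _
  have h2 : (i : ℝ) < ((k : ℝ) + 1) * x + 1 := Nat.ceil_lt_add_one hk0
  have h3 : ((k : ℝ) + 1) * y ≤ (k : ℝ) + 1 := by
    have hk : (0 : ℝ) < (k : ℝ) + 1 := by positivity
    nlinarith
  refine Finset.sum_lt_sum (fun j _ => H_mono hb ?_) ⟨i, ?_, ?_⟩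
  · have : ((k : ℝ) + 1) * x ≤ ((k : ℝ) + 1) * y := mul_le_mul_of_nonneg_left hxy (by positivity)
    linarith
  · rw [Finset.mem_range]
    have : (i : ℝ) < (k : ℝ) + 1 := by linarith
    exact_mod_cast this
  · rw [H_of_nonpos hb (by linarith), H_of_one_le hb (by linarith)]
    norm_num

omit hb in
/-- the moving set of the `k`-th staircase -/
def T (b : ℝ) (k : ℕ) (s : ℝ) : Set ℝ := {x | Hk b k (x + s) ≠ Hk b k x}

lemma T_meas (k : ℕ) (s : ℝ) : MeasurableSet (T b k s) := by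
  have h1 : Measurable (fun x => Hk b k (x + s)) :=
    ((Hk_cont hb k).comp (continuous_id.add continuous_const)).measurable
  have h2 : Measurable (Hk b k) := (Hk_cont hb k).measurable
  exact (measurableSet_eq_fun h1 h2).compl

lemma T_bound {β : ℝ} (hβ0 : 0 < β) (hβ1 : β ≤ 1) (hbβ : 2 / b ≤ b ^ (-β)) (k : ℕ) {s : ℝ}
    (hs : 0 < s) (hs1 : s ≤ 1) :
    volume (T b k s) ≤ ENNReal.ofReal (2 * b * ((k : ℝ) + 1) * s ^ β) := by
  have hk : (0 : ℝ) < (k : ℝ) + 1 := by positivity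
  have hsβ : s ≤ s ^ β := by
    calc s = s ^ (1 : ℝ) := (Real.rpow_one s).symm
      _ ≤ s ^ β := Real.rpow_le_rpow_of_exponent_ge hs hs1 hβ1
  have hsβ0 : 0 < s ^ β := Real.rpow_pos_of_pos hs _
  rcases le_total (((k : ℝ) + 1) * s) 1 with h | h
  · have hsub : T b k s ⊆ ⋃ i ∈ Finset.range (k + 1),
        ((fun x => ((k : ℝ) + 1) * x - i) ⁻¹' (S b (((k : ℝ) + 1) * s))) := by
      intro x hx
      by_contra hc
      apply hx
      simp only [mem_iUnion, not_exists] at hc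
      unfold Hk
      congr 1
      refine Finset.sum_congr rfl (fun i hi => ?_)
      have h1 := hc i hi
      have h2 : H b (((k : ℝ) + 1) * x - i + ((k : ℝ) + 1) * s) = H b (((k : ℝ) + 1) * x - i) := by
        by_contra h3; exact h1 h3
      rw [← h2]
      congr 1; ring
    have hv : ∀ i ∈ Finset.range (k + 1),
        volume ((fun x => ((k : ℝ) + 1) * x - i) ⁻¹' (S b (((k : ℝ) + 1) * s))) ≤
        ENNReal.ofReal (1 / ((k : ℝ) + 1) * (2 * b * (((k : ℝ) + 1) * s) ^ β)) := by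
      intro i _
      have e : (fun x : ℝ => ((k : ℝ) + 1) * x - i) ⁻¹' (S b (((k : ℝ) + 1) * s)) =
          (fun x => ((k : ℝ) + 1) * x) ⁻¹' ((fun y => y + (-(i : ℝ))) ⁻¹' (S b (((k : ℝ) + 1) * s))) := by
        ext x; simp only [mem_preimage]
        rw [sub_eq_add_neg]
      rw [e, Real.volume_preimage_mul_left hk.ne', abs_of_pos (inv_pos.2 hk),
        measure_preimage_add_right, ENNReal.ofReal_mul (by positivity), one_div]
      exact mul_le_mul_right (S_bound hb hβ0 hβ1 hbβ (by positivity) h) _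
    refine (measure_mono hsub).trans ((measure_biUnion_finset_le _ _).trans ?_)
    refine (Finset.sum_le_sum hv).trans ?_
    rw [Finset.sum_const, Finset.card_range, nsmul_eq_mul, ← ENNReal.ofReal_natCast,
      ← ENNReal.ofReal_mul (by positivity)]
    apply ENNReal.ofReal_le_ofReal
    rw [Real.mul_rpow hk.le hs.le]
    have h2 : ((k : ℝ) + 1) ^ β ≤ (k : ℝ) + 1 := by
      calc ((k : ℝ) + 1) ^ β ≤ ((k : ℝ) + 1) ^ (1 : ℝ) :=
            Real.rpow_le_rpow_of_exponent_le (by linarith [(Nat.cast_nonneg k : (0 : ℝ) ≤ k)]) hβ1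
        _ = (k : ℝ) + 1 := Real.rpow_one _
    push_cast
    have e : ((k : ℝ) + 1) * (1 / ((k : ℝ) + 1) * (2 * b * (((k : ℝ) + 1) ^ β * s ^ β))) =
        2 * b * (((k : ℝ) + 1) ^ β * s ^ β) := by
      field_simp
    rw [e]
    have h3 := mul_le_mul_of_nonneg_right h2 hsβ0.le
    have h4 : (0 : ℝ) ≤ 2 * b := by linarith
    have h5 := mul_le_mul_of_nonneg_left h3 h4
    linarith
  · have hsub : T b k s ⊆ Icc (-s) 1 := by
      intro x hx
      by_contra hc
      apply hx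
      rw [mem_Icc, not_and_or, not_le, not_le] at hc
      rcases hc with h | h
      · rw [Hk_of_nonpos hb _ (by linarith), Hk_of_nonpos hb _ (by linarith)]
      · rw [Hk_of_one_le hb _ (by linarith), Hk_of_one_le hb _ (by linarith)]
    refine (measure_mono hsub).trans ?_
    rw [Real.volume_Icc]
    apply ENNReal.ofReal_le_ofReal
    have h2 : 1 ≤ ((k : ℝ) + 1) * s ^ β := h.trans (by gcongr)
    have h3 : 1 + s ≤ 2 * (((k : ℝ) + 1) * s ^ β) := by linarith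
    nlinarith

omit hb in
/-- partial sums -/
def hP (b : ℝ) (c : ℕ → ℝ) (K : ℕ) (x : ℝ) : ℝ :=
  H b x + ∑ k ∈ Finset.range K, c k * (Hk b (k + 1) x - H b x)

omit hb in
/-- the full map -/
def hR (b : ℝ) (c : ℕ → ℝ) (x : ℝ) : ℝ :=
  H b x + ∑' k, c k * (Hk b (k + 1) x - H b x)

omit hb in
lemma hP_zero (c : ℕ → ℝ) (x : ℝ) : hP b c 0 x = H b x := by simp [hP]

omit hb in
lemma hP_succ (c : ℕ → ℝ) (K : ℕ) (x : ℝ) :
    hP b c (K + 1) x = hP b c K x + c K * (Hk b (K + 1) x - H b x) := by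
  unfold hP
  rw [Finset.sum_range_succ]
  ring

lemma hP_cont (c : ℕ → ℝ) (K : ℕ) : Continuous (hP b c K) := by
  unfold hP
  refine (H_cont hb).add (continuous_finsetSum _ (fun i _ => continuous_const.mul ?_))
  exact (Hk_cont hb _).sub (H_cont hb)

lemma hP_of_nonpos (c : ℕ → ℝ) (K : ℕ) {x : ℝ} (hx : x ≤ 0) : hP b c K x = 0 := by
  unfold hP
  simp [H_of_nonpos hb hx, Hk_of_nonpos hb _ hx]

lemma hP_of_one_le (c : ℕ → ℝ) (K : ℕ) {x : ℝ} (hx : 1 ≤ x) : hP b c K x = 1 := by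
  unfold hP
  simp [H_of_one_le hb hx, Hk_of_one_le hb _ hx]

lemma abs_diff_le (k : ℕ) (x : ℝ) : |Hk b k x - H b x| ≤ 1 := by
  have h1 := Hk_mem hb k x
  have h2 := H_mem hb x
  rw [abs_le]
  constructor <;> linarith [h1.1, h1.2, h2.1, h2.2]

lemma hP_step {c : ℕ → ℝ} (hc : ∀ k, 0 < c k) (K : ℕ) (x : ℝ) :
    |hP b c (K + 1) x - hP b c K x| ≤ c K := by
  rw [hP_succ, add_sub_cancel_left, abs_mul, abs_of_pos (hc K)]
  have := abs_diff_le hb (K + 1) x
  have h2 := hc K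
  nlinarith

lemma hR_summable {c : ℕ → ℝ} (hc : ∀ k, 0 < c k) (hcs : Summable c) (x : ℝ) :
    Summable (fun k => c k * (Hk b (k + 1) x - H b x)) := by
  refine Summable.of_norm_bounded hcs (fun k => ?_)
  rw [Real.norm_eq_abs, abs_mul, abs_of_pos (hc k)]
  have := abs_diff_le hb (k + 1) x
  have h2 := hc k
  nlinarith

lemma hR_tendsto {c : ℕ → ℝ} (hc : ∀ k, 0 < c k) (hcs : Summable c) (x : ℝ) :
    Tendsto (fun K => hP b c K x) atTop (𝓝 (hR b c x)) := by
  unfold hP hR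
  exact tendsto_const_nhds.add (hR_summable hb hc hcs x).hasSum.tendsto_sum_nat

lemma hR_of_nonpos (c : ℕ → ℝ) {x : ℝ} (hx : x ≤ 0) : hR b c x = 0 := by
  unfold hR
  simp [H_of_nonpos hb hx, Hk_of_nonpos hb _ hx]

lemma hR_of_one_le (c : ℕ → ℝ) {x : ℝ} (hx : 1 ≤ x) : hR b c x = 1 := by
  unfold hR
  simp [H_of_one_le hb hx, Hk_of_one_le hb _ hx]

lemma hR_eq {c : ℕ → ℝ} (hc : ∀ k, 0 < c k) (hcs : Summable c) (x : ℝ) :
    hR b c x = (1 - ∑' k, c k) * H b x + ∑' k, c k * Hk b (k + 1) x := by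
  have h1 : Summable (fun k => c k * Hk b (k + 1) x) := by
    refine Summable.of_nonneg_of_le (fun k => mul_nonneg (hc k).le (Hk_mem hb _ x).1)
      (fun k => ?_) hcs
    have := (Hk_mem hb (k + 1) x).2
    have h2 := hc k
    nlinarith
  unfold hR
  simp_rw [mul_sub]
  rw [h1.tsum_sub (hcs.mul_right _), tsum_mul_right]
  ring

lemma hR_mono {c : ℕ → ℝ} (hc : ∀ k, 0 < c k) (hcs : Summable c) (hc1 : ∑' k, c k ≤ 1) :
    Monotone (hR b c) := by
  intro x y h
  have h1 : ∀ z, Summable (fun k => c k * Hk b (k + 1) z) := by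
    intro z
    refine Summable.of_nonneg_of_le (fun k => mul_nonneg (hc k).le (Hk_mem hb _ z).1)
      (fun k => ?_) hcs
    have := (Hk_mem hb (k + 1) z).2
    have h2 := hc k
    nlinarith
  rw [hR_eq hb hc hcs, hR_eq hb hc hcs]
  have h2 : (1 - ∑' k, c k) * H b x ≤ (1 - ∑' k, c k) * H b y :=
    mul_le_mul_of_nonneg_left (H_mono hb h) (by linarith)
  have h3 : ∑' k, c k * Hk b (k + 1) x ≤ ∑' k, c k * Hk b (k + 1) y :=
    (h1 x).tsum_le_tsum (fun k => mul_le_mul_of_nonneg_left (Hk_mono hb _ h) (hc k).le) (h1 y)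
  linarith

lemma hR_strict {c : ℕ → ℝ} (hc : ∀ k, 0 < c k) (hcs : Summable c) (hc1 : ∑' k, c k ≤ 1)
    {x y : ℝ} (hx : 0 ≤ x) (hy : y ≤ 1) (hxy : x < y) : hR b c x < hR b c y := by
  have h1 : ∀ z, Summable (fun k => c k * Hk b (k + 1) z) := by
    intro z
    refine Summable.of_nonneg_of_le (fun k => mul_nonneg (hc k).le (Hk_mem hb _ z).1)
      (fun k => ?_) hcs
    have := (Hk_mem hb (k + 1) z).2
    have h2 := hc k
    nlinarith
  rw [hR_eq hb hc hcs, hR_eq hb hc hcs]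
  have h2 : (1 - ∑' k, c k) * H b x ≤ (1 - ∑' k, c k) * H b y :=
    mul_le_mul_of_nonneg_left (H_mono hb hxy.le) (by linarith)
  obtain ⟨k, hk⟩ := exists_nat_gt (2 / (y - x))
  have hd : 0 < y - x := by linarith
  have hk' : 2 ≤ (((k + 1 : ℕ) : ℝ) + 1) * (y - x) := by
    rw [div_lt_iff₀ hd] at hk
    push_cast
    nlinarith
  have h4 := Hk_strict hb hx hy (k + 1) hk'
  have h3 : ∑' k, c k * Hk b (k + 1) x < ∑' k, c k * Hk b (k + 1) y :=
    (h1 x).tsum_lt_tsum (i := k) (fun k => mul_le_mul_of_nonneg_left (Hk_mono hb _ hxy.le) (hc k).le)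
      (mul_lt_mul_of_pos_left h4 (hc k)) (h1 y)
  linarith

lemma hR_holder {a : ℝ} (ha : 0 < a) (ha1 : a ≤ 1) (hab : (2 * b) ^ a ≤ 2)
    {c : ℕ → ℝ} (hc : ∀ k, 0 < c k) (hck : ∀ k, c k * ((k : ℝ) + 2) ≤ (1 / 2) ^ (k + 1))
    (hcs : Summable c) (hc1 : ∑' k, c k ≤ 1) (x y : ℝ) :
    |hR b c x - hR b c y| ≤ 20 * |x - y| ^ a := by
  have h1 : ∀ z, Summable (fun k => c k * Hk b (k + 1) z) := by
    intro z
    refine Summable.of_nonneg_of_le (fun k => mul_nonneg (hc k).le (Hk_mem hb _ z).1)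
      (fun k => ?_) hcs
    have := (Hk_mem hb (k + 1) z).2
    have h2 := hc k
    nlinarith
  have hp : 0 ≤ |x - y| ^ a := Real.rpow_nonneg (abs_nonneg _) _
  rw [hR_eq hb hc hcs, hR_eq hb hc hcs]
  have e : (1 - ∑' k, c k) * H b x + ∑' k, c k * Hk b (k + 1) x -
      ((1 - ∑' k, c k) * H b y + ∑' k, c k * Hk b (k + 1) y) =
      (1 - ∑' k, c k) * (H b x - H b y) + ∑' k, c k * (Hk b (k + 1) x - Hk b (k + 1) y) := by
    simp_rw [mul_sub]
    rw [(h1 x).tsum_sub (h1 y)]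
    ring
  rw [e]
  have hgeo : HasSum (fun k : ℕ => (1 / 2 : ℝ) ^ (k + 1) * (10 * |x - y| ^ a))
      (1 * (10 * |x - y| ^ a)) := by
    refine HasSum.mul_right _ ?_
    have := hasSum_geometric_two' 1
    refine this.congr_fun ?_ |> fun h => h
    intro k
    rw [pow_succ, one_div_pow]
    field_simp
  have h2 : |∑' k, c k * (Hk b (k + 1) x - Hk b (k + 1) y)| ≤ 1 * (10 * |x - y| ^ a) := by
    refine tsum_of_norm_bounded hgeo (fun k => ?_) |> fun h => by rwa [Real.norm_eq_abs] at h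
    rw [Real.norm_eq_abs, abs_mul, abs_of_pos (hc k)]
    have h3 := Hk_holder hb ha ha1 hab (k + 1) x y
    have h4 := hck k
    push_cast at h3
    calc c k * |Hk b (k + 1) x - Hk b (k + 1) y|
        ≤ c k * (10 * ((k : ℝ) + 1 + 1) * |x - y| ^ a) :=
          mul_le_mul_of_nonneg_left h3 (hc k).le
      _ = (c k * ((k : ℝ) + 2)) * (10 * |x - y| ^ a) := by ring
      _ ≤ (1 / 2) ^ (k + 1) * (10 * |x - y| ^ a) := by gcongr
  have h5 : |(1 - ∑' k, c k) * (H b x - H b y)| ≤ 10 * |x - y| ^ a := by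
    have hcp : 0 ≤ ∑' k, c k := tsum_nonneg (fun k => (hc k).le)
    rw [abs_mul, abs_of_nonneg (by linarith)]
    have h6 := H_holder hb ha ha1 hab x y
    have h7 := abs_nonneg (H b x - H b y)
    nlinarith
  refine (abs_add_le _ _).trans ?_
  linarith

end

end Pool.Agent.H629R3.Stair
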