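import Mathlib
import Pool.Agent.H629R3.StairSum

set_option autoImplicit false

open MeasureTheory Set Filter Topology

namespace Pool.Agent.H629R3.Stair

noncomputable section

lemma coe_norm_le (x : ℝ) : ‖(x : UnitAddCircle)‖ ≤ |x| := by
  rw [UnitAddCircle.norm_eq]
  simpa using round_le x 0

lemma coe_one_eq : ((1 : ℝ) : UnitAddCircle) = 0 := AddCircle.coe_period 1

/-- exponential -/
def E (n : ℤ) (x : ℝ) : ℂ := Complex.exp (2 * Real.pi * Complex.I * ((-n : ℤ) : ℂ) * x)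

lemma E_cont (n : ℤ) : Continuous (E n) := by unfold E; fun_prop

lemma E_norm (n : ℤ) (x : ℝ) : ‖E n x‖ = 1 := by
  unfold E
  rw [show (2 * Real.pi * Complex.I * ((-n : ℤ) : ℂ) * x : ℂ) =
    ((2 * Real.pi * (-n : ℤ) * x : ℝ) : ℂ) * Complex.I by push_cast; ring]
  exact Complex.norm_exp_ofReal_mul_I _

lemma E_shift {n : ℤ} (hn : n ≠ 0) (x : ℝ) : E n (x + 1 / (2 * |(n : ℝ)|)) = -E n x := by
  unfold E
  have hn' : (n : ℝ) ≠ 0 := Int.cast_ne_zero.2 hn
  rcases lt_or_gt_of_ne hn' with h | h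
  · rw [abs_of_neg h]
    have hc : (n : ℂ) ≠ 0 := by exact_mod_cast hn
    rw [show (2 * Real.pi * Complex.I * ((-n : ℤ) : ℂ) * ((x + 1 / (2 * -(n : ℝ)) : ℝ) : ℂ) : ℂ) =
      2 * Real.pi * Complex.I * ((-n : ℤ) : ℂ) * x + Real.pi * Complex.I by
        push_cast; field_simp; ring]
    rw [Complex.exp_add, Complex.exp_pi_mul_I]; ring
  · rw [abs_of_pos h]
    have hc : (n : ℂ) ≠ 0 := by exact_mod_cast hn
    rw [show (2 * Real.pi * Complex.I * ((-n : ℤ) : ℂ) * ((x + 1 / (2 * (n : ℝ)) : ℝ) : ℂ) : ℂ) =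
      2 * Real.pi * Complex.I * ((-n : ℤ) : ℂ) * x + -(Real.pi * Complex.I) by
        push_cast; field_simp; ring]
    rw [Complex.exp_add, Complex.exp_neg, Complex.exp_pi_mul_I]; norm_num

lemma decay {G : ℝ → ℝ} (hG : Continuous G) (h0 : ∀ x, x ∉ Ioo (0 : ℝ) 1 → G x = 0) {η : ℝ}
    (hη : ∀ x, |G x| ≤ η) {W : Set ℝ} (hW : MeasurableSet W) {V : ℝ} (hV0 : 0 ≤ V)
    (hV : volume W ≤ ENNReal.ofReal V) {n : ℤ} (hn : n ≠ 0)
    (hmv : ∀ x, x ∉ W → G (x + 1 / (2 * |(n : ℝ)|)) = G x) :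
    ‖∫ x : ℝ, (G x : ℂ) * E n x‖ ≤ η * V := by
  set s : ℝ := 1 / (2 * |(n : ℝ)|) with hs
  have hη0 : 0 ≤ η := (abs_nonneg _).trans (hη 0)
  have hcs : HasCompactSupport G := by
    refine HasCompactSupport.intro (isCompact_Icc (a := (0 : ℝ)) (b := 1)) (fun x hx => h0 x ?_)
    exact fun h => hx (Ioo_subset_Icc_self h)
  have hcomp : Continuous (fun x : ℝ => (G x : ℂ) * E n x) :=
    (Complex.continuous_ofReal.comp hG).mul (E_cont n)
  have hint : Integrable (fun x : ℝ => (G x : ℂ) * E n x) := by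
    refine hcomp.integrable_of_hasCompactSupport ?_
    exact HasCompactSupport.mul_right (hcs.comp_left (g := fun r : ℝ => (r : ℂ)) (by simp))
  have h1 : ∫ x : ℝ, (G x : ℂ) * E n x = ∫ x : ℝ, -((G (x + s) : ℂ) * E n x) := by
    rw [← integral_add_right_eq_self (fun x : ℝ => (G x : ℂ) * E n x) s]
    refine integral_congr_ae (Eventually.of_forall fun x => ?_)
    simp only
    rw [hs, E_shift hn]
    ring
  have hint2 : Integrable (fun x : ℝ => -((G (x + s) : ℂ) * E n x)) := by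
    have := (hint.comp_add_right s)
    refine this.congr (Eventually.of_forall fun x => ?_)
    simp only
    rw [hs, E_shift hn]
    ring
  have h2 : (2 : ℂ) * ∫ x : ℝ, (G x : ℂ) * E n x =
      ∫ x : ℝ, ((G x : ℂ) - (G (x + s) : ℂ)) * E n x := by
    rw [two_mul]
    nth_rewrite 2 [h1]
    rw [← integral_add hint hint2]
    refine integral_congr_ae (Eventually.of_forall fun x => ?_)
    simp only
    ring
  have hWfin : volume W < ⊤ := lt_of_le_of_lt hV ENNReal.ofReal_lt_top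
  have h3 : ‖∫ x : ℝ, ((G x : ℂ) - (G (x + s) : ℂ)) * E n x‖ ≤
      ∫ x : ℝ, W.indicator (fun _ => 2 * η) x := by
    refine norm_integral_le_of_norm_le ?_ (Eventually.of_forall fun x => ?_)
    · exact (integrable_indicator_iff hW).2 (integrableOn_const hWfin.ne)
    · rw [norm_mul, E_norm, mul_one, ← Complex.ofReal_sub, Complex.norm_real, Real.norm_eq_abs]
      by_cases hx : x ∈ W
      · rw [indicator_of_mem hx]
        have h4 := abs_sub (G x) (G (x + s))
        linarith [hη x, hη (x + s)]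
      · rw [indicator_of_notMem hx, hmv x hx]
        simp
  rw [integral_indicator hW, setIntegral_const, smul_eq_mul] at h3
  have h4 : volume.real W ≤ V := by
    rw [Measure.real]
    exact ENNReal.toReal_le_of_le_ofReal hV0 hV
  rw [← h2, norm_mul] at h3
  have h5 : ‖(2 : ℂ)‖ = 2 := by norm_num
  rw [h5] at h3
  have h6 : volume.real W * (2 * η) ≤ V * (2 * η) := by gcongr
  linarith

variable {b : ℝ} (hb : 3 ≤ b)

include hb

/-- moving set union bound -/
lemma Tunion_bound {β : ℝ} (hβ0 : 0 < β) (hβ1 : β ≤ 1) (hbβ : 2 / b ≤ b ^ (-β)) (K : ℕ) {s : ℝ}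
    (hs : 0 < s) (hs1 : s ≤ 1) :
    volume (⋃ j ∈ Finset.range K, T b j s) ≤
      ENNReal.ofReal (2 * b * (K : ℝ) ^ 2 * s ^ β) := by
  refine (measure_biUnion_finset_le _ _).trans ?_
  have h1 : ∀ j ∈ Finset.range K, volume (T b j s) ≤ ENNReal.ofReal (2 * b * (K : ℝ) * s ^ β) := by
    intro j hj
    refine (T_bound hb hβ0 hβ1 hbβ j hs hs1).trans (ENNReal.ofReal_le_ofReal ?_)
    have h2 : (j : ℝ) + 1 ≤ K := by exact_mod_cast Finset.mem_range.1 hj
    have h3 : 0 < s ^ β := Real.rpow_pos_of_pos hs _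
    gcongr
  refine (Finset.sum_le_sum h1).trans ?_
  rw [Finset.sum_const, Finset.card_range, nsmul_eq_mul, ← ENNReal.ofReal_natCast,
      ← ENNReal.ofReal_mul (by positivity)]
  apply ENNReal.ofReal_le_ofReal
  apply le_of_eq; ring

omit hb in
lemma not_mem_T {k : ℕ} {s x : ℝ} (h : x ∉ T b k s) : Hk b k (x + s) = Hk b k x := by
  by_contra h2; exact h h2

omit hb in
lemma hP_static (c : ℕ → ℝ) {K L : ℕ} (hKL : K < L) {s x : ℝ}
    (hx : x ∉ ⋃ j ∈ Finset.range L, T b j s) : hP b c K (x + s) = hP b c K x := by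
  simp only [mem_iUnion, not_exists] at hx
  have h0 : H b (x + s) = H b x := by
    have := not_mem_T (hx 0 (Finset.mem_range.2 (by omega)))
    rwa [Hk_zero, Hk_zero] at this
  unfold hP
  rw [h0]
  congr 1
  refine Finset.sum_congr rfl (fun k hk => ?_)
  have := not_mem_T (hx (k + 1) (Finset.mem_range.2 (by have := Finset.mem_range.1 hk; omega)))
  rw [this]

/-- the main coefficient estimate for the partial sums -/
lemma partial_bound {Φ : ℝ → ℝ} (hΦ : Continuous Φ) (h01 : Φ 1 = Φ 0) {M : ℝ}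
    (hM : ∀ t, |Φ t| ≤ M) {c : ℕ → ℝ} (hc : ∀ k, 0 < c k)
    (hcΦ : ∀ k, ∀ t t', |t - t'| ≤ c k → |Φ t - Φ t'| ≤ (1 / 2) ^ (k + 1) / ((k : ℝ) + 2) ^ 2)
    {β : ℝ} (hβ0 : 0 < β) (hβ1 : β ≤ 1) (hbβ : 2 / b ≤ b ^ (-β)) {n : ℤ} (hn : n ≠ 0) (K : ℕ) :
    ‖∫ x : ℝ, ((Φ (hP b c K x) - Φ 0 : ℝ) : ℂ) * E n x‖ ≤
      (2 * M + ∑ j ∈ Finset.range K, (1 / 2 : ℝ) ^ (j + 1)) * (2 * b) *
        (1 / (2 * |(n : ℝ)|)) ^ β := by
  have hn1 : (1 : ℝ) ≤ |(n : ℝ)| := by
    rw [← Int.cast_abs]; exact_mod_cast Int.one_le_abs hn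
  have hs : 0 < 1 / (2 * |(n : ℝ)|) := by positivity
  have hs1 : 1 / (2 * |(n : ℝ)|) ≤ 1 := by
    rw [div_le_one (by positivity)]; linarith
  set s : ℝ := 1 / (2 * |(n : ℝ)|) with hsdef
  have hsβ : 0 < s ^ β := Real.rpow_pos_of_pos hs _
  induction K with
  | zero =>
    simp_rw [hP_zero]
    have := decay (G := fun x => Φ (H b x) - Φ 0)
      ((hΦ.comp (H_cont hb)).sub continuous_const)
      (fun x hx => by
        rw [mem_Ioo, not_and_or, not_lt, not_lt] at hx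
        rcases hx with h | h
        · rw [H_of_nonpos hb h, sub_self]
        · rw [H_of_one_le hb h, h01, sub_self])
      (η := 2 * M) (fun x => by
        have h4 := abs_sub (Φ (H b x)) (Φ 0)
        linarith [hM (H b x), hM 0])
      (W := S b s) (S_meas hb s) (V := 2 * b * s ^ β) (by positivity)
      (S_bound hb hβ0 hβ1 hbβ hs hs1) hn
      (fun x hx => by
        have : H b (x + s) = H b x := by by_contra h2; exact hx h2
        rw [← hsdef, this])
    refine this.trans (le_of_eq ?_)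
    simp
    ring
  | succ K ih =>
    have hdiff : ∀ x : ℝ, ((Φ (hP b c (K + 1) x) - Φ 0 : ℝ) : ℂ) * E n x =
        ((Φ (hP b c (K + 1) x) - Φ (hP b c K x) : ℝ) : ℂ) * E n x +
        ((Φ (hP b c K x) - Φ 0 : ℝ) : ℂ) * E n x := by
      intro x; push_cast; ring
    have hcont : ∀ K : ℕ, Continuous (fun x => Φ (hP b c K x)) := fun K => hΦ.comp (hP_cont hb c K)
    have hz : ∀ K : ℕ, ∀ x, x ∉ Ioo (0 : ℝ) 1 → Φ (hP b c K x) = Φ 0 := by
      intro K x hx
      rw [mem_Ioo, not_and_or, not_lt, not_lt] at hx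
      rcases hx with h | h
      · rw [hP_of_nonpos hb c K h]
      · rw [hP_of_one_le hb c K h, h01]
    have hint : ∀ G : ℝ → ℝ, Continuous G → (∀ x, x ∉ Ioo (0 : ℝ) 1 → G x = 0) →
        Integrable (fun x : ℝ => (G x : ℂ) * E n x) := by
      intro G hG h0
      have hcs : HasCompactSupport G := by
        refine HasCompactSupport.intro (isCompact_Icc (a := (0 : ℝ)) (b := 1))
          (fun x hx => h0 x ?_)
        exact fun h => hx (Ioo_subset_Icc_self h)
      have hcomp : Continuous (fun x : ℝ => (G x : ℂ) * E n x) :=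
        (Complex.continuous_ofReal.comp hG).mul (E_cont n)
      refine hcomp.integrable_of_hasCompactSupport ?_
      exact HasCompactSupport.mul_right (hcs.comp_left (g := fun r : ℝ => (r : ℂ)) (by simp))
    have hdec := decay (G := fun x => Φ (hP b c (K + 1) x) - Φ (hP b c K x))
      ((hcont _).sub (hcont _))
      (fun x hx => by rw [hz _ x hx, hz _ x hx, sub_self])
      (η := (1 / 2) ^ (K + 1) / ((K : ℝ) + 2) ^ 2)
      (fun x => hcΦ K _ _ (hP_step hb hc K x))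
      (W := ⋃ j ∈ Finset.range (K + 2), T b j s)
      (Finset.measurableSet_biUnion _ (fun j _ => T_meas hb j s))
      (V := 2 * b * ((K + 2 : ℕ) : ℝ) ^ 2 * s ^ β) (by positivity)
      (Tunion_bound hb hβ0 hβ1 hbβ (K + 2) hs hs1) hn
      (fun x hx => by
        rw [← hsdef, hP_static c (by omega) hx, hP_static c (by omega) hx])
    have i1 : Integrable (fun x : ℝ => ((Φ (hP b c (K + 1) x) - Φ (hP b c K x) : ℝ) : ℂ) * E n x) :=
      hint (fun x => Φ (hP b c (K + 1) x) - Φ (hP b c K x)) ((hcont _).sub (hcont _))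
        (fun x hx => by rw [hz _ x hx, hz _ x hx, sub_self])
    have i2 : Integrable (fun x : ℝ => ((Φ (hP b c K x) - Φ 0 : ℝ) : ℂ) * E n x) :=
      hint (fun x => Φ (hP b c K x) - Φ 0) ((hcont _).sub continuous_const)
        (fun x hx => by rw [hz _ x hx, sub_self])
    simp_rw [hdiff]
    rw [integral_add i1 i2]
    refine (norm_add_le _ _).trans ?_
    rw [Finset.sum_range_succ]
    have hK2 : (0 : ℝ) < (K : ℝ) + 2 := by positivity
    have e1 : (1 / 2 : ℝ) ^ (K + 1) / ((K : ℝ) + 2) ^ 2 *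
        (2 * b * ((K + 2 : ℕ) : ℝ) ^ 2 * s ^ β) = (1 / 2 : ℝ) ^ (K + 1) * (2 * b) * s ^ β := by
      push_cast
      field_simp
    rw [e1] at hdec
    linarith

lemma limit_bound {Φ : ℝ → ℝ} (hΦ : Continuous Φ) (h01 : Φ 1 = Φ 0) {M : ℝ}
    (hM : ∀ t, |Φ t| ≤ M) {c : ℕ → ℝ} (hc : ∀ k, 0 < c k) (hcs : Summable c)
    (hcΦ : ∀ k, ∀ t t', |t - t'| ≤ c k → |Φ t - Φ t'| ≤ (1 / 2) ^ (k + 1) / ((k : ℝ) + 2) ^ 2)
    {β : ℝ} (hβ0 : 0 < β) (hβ1 : β ≤ 1) (hbβ : 2 / b ≤ b ^ (-β)) {n : ℤ} (hn : n ≠ 0) :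
    ‖∫ x : ℝ, ((Φ (hR b c x) - Φ 0 : ℝ) : ℂ) * E n x‖ ≤
      (2 * M + 1) * (2 * b) * (1 / (2 * |(n : ℝ)|)) ^ β := by
  have hlim : Tendsto (fun K => ∫ x : ℝ, ((Φ (hP b c K x) - Φ 0 : ℝ) : ℂ) * E n x) atTop
      (𝓝 (∫ x : ℝ, ((Φ (hR b c x) - Φ 0 : ℝ) : ℂ) * E n x)) := by
    refine tendsto_integral_of_dominated_convergence
      ((Icc (0 : ℝ) 1).indicator (fun _ => 2 * M)) ?_ ?_ ?_ ?_
    · intro K
      refine Continuous.aestronglyMeasurable ?_
      refine (Complex.continuous_ofReal.comp ?_).mul (E_cont n)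
      exact (hΦ.comp (hP_cont hb c K)).sub continuous_const
    · exact (integrable_indicator_iff measurableSet_Icc).2
        (integrableOn_const (by rw [Real.volume_Icc]; exact ENNReal.ofReal_ne_top))
    · intro K
      refine Eventually.of_forall fun x => ?_
      rw [norm_mul, E_norm, mul_one, Complex.norm_real, Real.norm_eq_abs]
      by_cases hx : x ∈ Icc (0 : ℝ) 1
      · rw [indicator_of_mem hx]
        have h4 := abs_sub (Φ (hP b c K x)) (Φ 0)
        linarith [hM (hP b c K x), hM 0]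
      · rw [indicator_of_notMem hx]
        rw [mem_Icc, not_and_or, not_le, not_le] at hx
        rcases hx with h | h
        · rw [hP_of_nonpos hb c K h.le, sub_self, abs_zero]
        · rw [hP_of_one_le hb c K h.le, h01, sub_self, abs_zero]
    · refine Eventually.of_forall fun x => ?_
      refine Tendsto.mul_const _ ?_
      refine (Complex.continuous_ofReal.tendsto _).comp ?_
      exact ((hΦ.tendsto _).comp (hR_tendsto hb hc hcs x)).sub_const _
  refine le_of_tendsto' hlim.norm (fun K => ?_)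
  refine (partial_bound hb hΦ h01 hM hc hcΦ hβ0 hβ1 hbβ hn K).trans ?_
  have hgeo : ∑ j ∈ Finset.range K, (1 / 2 : ℝ) ^ (j + 1) ≤ 1 := by
    have h : ∀ K : ℕ, ∑ j ∈ Finset.range K, (1 / 2 : ℝ) ^ (j + 1) = 1 - (1 / 2) ^ K := by
      intro K
      induction K with
      | zero => simp
      | succ K ih => rw [Finset.sum_range_succ, ih]; ring
    rw [h]
    have : (0 : ℝ) < (1 / 2) ^ K := by positivity
    linarith
  gcongr

lemma hR_cont {a : ℝ} (ha : 0 < a) (ha1 : a ≤ 1) (hab : (2 * b) ^ a ≤ 2)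
    {c : ℕ → ℝ} (hc : ∀ k, 0 < c k) (hck : ∀ k, c k * ((k : ℝ) + 2) ≤ (1 / 2) ^ (k + 1))
    (hcs : Summable c) (hc1 : ∑' k, c k ≤ 1) : Continuous (hR b c) := by
  rw [Metric.continuous_iff]
  intro x ε hε
  have hc' : Tendsto (fun t : ℝ => 20 * t ^ a) (𝓝 0) (𝓝 (20 * (0 : ℝ) ^ a)) :=
    ((Real.continuousAt_rpow_const 0 a (Or.inr ha.le)).tendsto).const_mul 20
  rw [Real.zero_rpow ha.ne', mul_zero] at hc'
  rw [Metric.tendsto_nhds_nhds] at hc'
  obtain ⟨δ, hδ, h⟩ := hc' ε hε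
  refine ⟨δ, hδ, fun y hy => ?_⟩
  have h2 := h (x := |y - x|) (by rw [Real.dist_eq, sub_zero, abs_abs]; rwa [Real.dist_eq] at hy)
  rw [Real.dist_eq, sub_zero] at h2
  rw [Real.dist_eq]
  exact lt_of_le_of_lt ((hR_holder hb ha ha1 hab hc hck hcs hc1 y x).trans (le_abs_self _)) h2

end

end Pool.Agent.H629R3.Stair
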