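import Mathlib
import Pool.Agent.H629R3.HolderLp

set_option autoImplicit false

open MeasureTheory Set Filter Topology

namespace Pool.Agent.H629R3.Stair

noncomputable section

lemma exists_params {p : ℝ} (hp : 1 < p) : ∃ b β a : ℝ, 3 ≤ b ∧ 0 < β ∧ β ≤ 1 ∧ 1 < β * p ∧
    2 / b ≤ b ^ (-β) ∧ 0 < a ∧ a ≤ 1 ∧ (2 * b) ^ a ≤ 2 := by
  have hp0 : 0 < p := by linarith
  set β : ℝ := (1 / p + 1) / 2 with hβ
  have h1 : 1 / p < 1 := by rw [div_lt_one hp0]; exact hp
  have h0 : 0 < 1 / p := by positivity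
  have hβ1 : β < 1 := by rw [hβ]; linarith
  have hβ0 : 0 < β := by rw [hβ]; linarith
  have hβp : 1 < β * p := by
    rw [hβ]
    have : 1 / p * p = 1 := by field_simp
    nlinarith
  set b : ℝ := max 3 ((2 : ℝ) ^ (1 / (1 - β))) with hb
  have hb3 : 3 ≤ b := le_max_left _ _
  have hb0 : 0 < b := by linarith
  have hbβ : 2 / b ≤ b ^ (-β) := by
    have h2 : (2 : ℝ) ≤ b ^ (1 - β) := by
      have h3 : (2 : ℝ) ^ (1 / (1 - β)) ≤ b := le_max_right _ _
      calc (2 : ℝ) = ((2 : ℝ) ^ (1 / (1 - β))) ^ (1 - β) := by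
            rw [← Real.rpow_mul (by norm_num), one_div_mul_cancel (by linarith), Real.rpow_one]
        _ ≤ b ^ (1 - β) := Real.rpow_le_rpow (by positivity) h3 (by linarith)
    rw [div_le_iff₀ hb0]
    calc (2 : ℝ) ≤ b ^ (1 - β) := h2
      _ = b ^ (-β) * b := by
        rw [show (1 - β) = -β + 1 by ring, Real.rpow_add hb0, Real.rpow_one]
  have h2b : (1 : ℝ) < 2 * b := by linarith
  have hl : 0 < Real.log (2 * b) := Real.log_pos h2b
  refine ⟨b, β, Real.log 2 / Real.log (2 * b), hb3, hβ0, hβ1.le, hβp, hbβ,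
    div_pos (Real.log_pos (by norm_num)) hl, ?_, ?_⟩
  · rw [div_le_one hl]
    exact Real.log_le_log (by norm_num) (by linarith)
  · rw [Real.rpow_def_of_pos (by linarith), mul_div_cancel₀ _ hl.ne',
      Real.exp_log (by norm_num)]

variable {b : ℝ} (hb : 3 ≤ b)

include hb

/-- the homeomorphism of the circle attached to the parameters -/
lemma exists_homeo {a : ℝ} (ha : 0 < a) (ha1 : a ≤ 1) (hab : (2 * b) ^ a ≤ 2)
    {c : ℕ → ℝ} (hc : ∀ k, 0 < c k) (hck : ∀ k, c k * ((k : ℝ) + 2) ≤ (1 / 2) ^ (k + 1))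
    (hcs : Summable c) (hc1 : ∑' k, c k ≤ 1) :
    ∃ h : UnitAddCircle ≃ₜ UnitAddCircle,
      (∀ x ∈ Ico (0 : ℝ) 1, h (x : UnitAddCircle) = (hR b c x : UnitAddCircle)) ∧
      ∀ x y, dist (h x) (h y) ≤ 40 * dist x y ^ a := by
  have hcont := hR_cont hb ha ha1 hab hc hck hcs hc1
  have hmono := hR_mono hb hc hcs hc1
  have hstrict := fun {x y : ℝ} (hx : 0 ≤ x) (hy : y ≤ 1) (hxy : x < y) =>
    hR_strict hb hc hcs hc1 hx hy hxy
  have hhold := hR_holder hb ha ha1 hab hc hck hcs hc1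
  have h0 : hR b c 0 = 0 := hR_of_nonpos hb c le_rfl
  have h1 : hR b c 1 = 1 := hR_of_one_le hb c le_rfl
  have hrange : ∀ x ∈ Ico (0 : ℝ) 1, hR b c x ∈ Ico (0 : ℝ) (0 + 1) := by
    intro x hx
    constructor
    · rw [← h0]; exact hmono hx.1
    · rw [zero_add, ← h1]; exact hstrict hx.1 le_rfl hx.2
  set g : UnitAddCircle → UnitAddCircle :=
    AddCircle.liftIco 1 0 (fun x => (hR b c x : UnitAddCircle)) with hg
  have hgx : ∀ x ∈ Ico (0 : ℝ) 1, g (x : UnitAddCircle) = (hR b c x : UnitAddCircle) :=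
    fun x hx => AddCircle.liftIco_zero_coe_apply hx
  have hgc : Continuous g := by
    refine AddCircle.liftIco_zero_continuous ?_ ?_
    · simp only [h0, h1]
      exact coe_one_eq.symm ▸ rfl
    · exact ((AddCircle.continuous_mk' 1).comp hcont).continuousOn
  have hinj : Function.Injective g := by
    intro X Y hXY
    obtain ⟨x, hx, rfl⟩ := AddCircle.eq_coe_Ico X
    obtain ⟨y, hy, rfl⟩ := AddCircle.eq_coe_Ico Y
    rw [hgx x hx, hgx y hy, AddCircle.coe_eq_coe_iff_of_mem_Ico (hrange x hx) (hrange y hy)] at hXY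
    rcases lt_trichotomy x y with h | h | h
    · exact absurd hXY (hstrict hx.1 hy.2.le h).ne
    · rw [h]
    · exact absurd hXY (hstrict hy.1 hx.2.le h).ne'
  have hsurj : Function.Surjective g := by
    intro Y
    obtain ⟨y, hy, rfl⟩ := AddCircle.eq_coe_Ico Y
    have hiv := intermediate_value_Icc (zero_le_one' ℝ) hcont.continuousOn
    rw [h0, h1] at hiv
    obtain ⟨x, hx, hxy⟩ := hiv ⟨hy.1, hy.2.le⟩
    have hx1 : x < 1 := by
      rcases hx.2.lt_or_eq with h | h
      · exact h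
      · rw [h, h1] at hxy
        exact absurd hy.2 (by rw [← hxy]; exact lt_irrefl _)
    refine ⟨(x : UnitAddCircle), ?_⟩
    rw [hgx x ⟨hx.1, hx1⟩, hxy]
  have hdist : ∀ u v : ℝ, dist (u : UnitAddCircle) (v : UnitAddCircle) ≤ |u - v| := by
    intro u v
    rw [dist_eq_norm, ← AddCircle.coe_sub]
    exact coe_norm_le _
  have key : ∀ x y : ℝ, x ∈ Ico (0 : ℝ) 1 → y ∈ Ico (0 : ℝ) 1 → x ≤ y →
      dist (g x) (g y) ≤ 40 * dist (x : UnitAddCircle) (y : UnitAddCircle) ^ a := by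
    intro x y hx hy hxy
    rw [hgx x hx, hgx y hy]
    rcases le_total (y - x) (1 / 2) with h | h
    · have e : dist (x : UnitAddCircle) (y : UnitAddCircle) = |x - y| := by
        rw [dist_eq_norm, ← AddCircle.coe_sub, AddCircle.norm_coe_eq_abs_iff 1 one_ne_zero,
          abs_sub_comm, abs_of_nonneg (by linarith : 0 ≤ y - x), abs_one]
        exact h
      rw [e]
      refine (hdist _ _).trans ((hhold x y).trans ?_)
      have := Real.rpow_nonneg (abs_nonneg (x - y)) a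
      linarith
    · have e : dist (x : UnitAddCircle) (y : UnitAddCircle) = 1 - (y - x) := by
        have e1 : (x : UnitAddCircle) - (y : UnitAddCircle) = ((x - y + 1 : ℝ) : UnitAddCircle) := by
          rw [AddCircle.coe_add, AddCircle.coe_sub, coe_one_eq, add_zero]
        rw [dist_eq_norm, e1, (AddCircle.norm_coe_eq_abs_iff 1 one_ne_zero).2]
        · rw [abs_of_nonneg (by linarith [hx.1, hy.2])]; ring
        · rw [abs_of_nonneg (by linarith [hx.1, hy.2]), abs_one]
          linarith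
      have e2 : dist (hR b c x : UnitAddCircle) (hR b c y : UnitAddCircle) ≤
          |hR b c x + 1 - hR b c y| := by
        have := hdist (hR b c x + 1) (hR b c y)
        rwa [AddCircle.coe_add, coe_one_eq, add_zero] at this
      rw [e]
      refine e2.trans ?_
      have hx' := hrange x hx
      have hy' := hrange y hy
      rw [zero_add] at hx' hy'
      rw [abs_of_nonneg (by linarith [hx'.1, hy'.2])]
      have e3 := hhold x 0
      have e4 := hhold 1 y
      rw [h0, sub_zero, sub_zero, abs_of_nonneg hx'.1, abs_of_nonneg hx.1] at e3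
      rw [h1, abs_of_nonneg (by linarith [hy'.2]), abs_of_nonneg (by linarith [hy.2])] at e4
      have e5 : x ^ a ≤ (1 - (y - x)) ^ a := Real.rpow_le_rpow hx.1 (by linarith [hy.2]) ha.le
      have e6 : (1 - y) ^ a ≤ (1 - (y - x)) ^ a :=
        Real.rpow_le_rpow (by linarith [hy.2]) (by linarith [hx.1]) ha.le
      linarith
  refine ⟨Continuous.homeoOfEquivCompactToT2 (f := Equiv.ofBijective g ⟨hinj, hsurj⟩) hgc,
    fun x hx => hgx x hx, fun X Y => ?_⟩
  change dist (g X) (g Y) ≤ 40 * dist X Y ^ a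
  obtain ⟨x, hx, rfl⟩ := AddCircle.eq_coe_Ico X
  obtain ⟨y, hy, rfl⟩ := AddCircle.eq_coe_Ico Y
  rcases le_total x y with h | h
  · exact key x y hx hy h
  · rw [dist_comm, dist_comm (x : UnitAddCircle)]
    exact key y x hy hx h

omit hb in
lemma integral_E_zero {n : ℤ} (hn : n ≠ 0) : ∫ x in (0 : ℝ)..1, E n x = 0 := by
  have hc : (2 * Real.pi * Complex.I * ((-n : ℤ) : ℂ)) ≠ 0 := by
    have h1 : ((-n : ℤ) : ℂ) ≠ 0 := by exact_mod_cast (neg_ne_zero.2 hn)
    have h2 : (Real.pi : ℂ) ≠ 0 := by exact_mod_cast Real.pi_ne_zero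
    exact mul_ne_zero (mul_ne_zero (mul_ne_zero two_ne_zero h2) Complex.I_ne_zero) h1
  unfold E
  rw [integral_exp_mul_complex hc]
  have h1 : Complex.exp (2 * Real.pi * Complex.I * ((-n : ℤ) : ℂ) * (1 : ℝ)) = 1 := by
    rw [Complex.exp_eq_one_iff]
    exact ⟨-n, by push_cast; ring⟩
  rw [h1]
  simp

omit hb in
/-- **Main theorem.** -/
theorem main (p : ℝ) (hp : 1 < p) : ∃ α : ℝ, 0 < α ∧ α ≤ 1 ∧
    ∀ f : C(UnitAddCircle, ℝ), ∃ h : UnitAddCircle ≃ₜ UnitAddCircle,
      (∀ x y, dist (h x) (h y) ≤ 40 * dist x y ^ α) ∧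
      Summable (fun n : ℤ => ‖fourierCoeff (fun x : UnitAddCircle => ((f (h x) : ℝ) : ℂ)) n‖ ^ p) := by
  obtain ⟨b, β, a, hb, hβ0, hβ1, hβp, hbβ, ha, ha1, hab⟩ := exists_params hp
  refine ⟨a, ha, ha1, fun f => ?_⟩
  set Φ : ℝ → ℝ := fun t => f (t : UnitAddCircle) with hΦdef
  have hΦ : Continuous Φ := f.continuous.comp (AddCircle.continuous_mk' 1)
  have h01 : Φ 1 = Φ 0 := by
    simp only [hΦdef]
    rw [coe_one_eq]
    rfl
  have hM : ∀ t, |Φ t| ≤ ‖f‖ := fun t => f.norm_coe_le_norm _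
  have huc : ∀ ε : ℝ, 0 < ε → ∃ δ : ℝ, 0 < δ ∧ ∀ t t' : ℝ, |t - t'| ≤ δ → |Φ t - Φ t'| ≤ ε := by
    intro ε hε
    have := CompactSpace.uniformContinuous_of_continuous f.continuous
    rw [Metric.uniformContinuous_iff] at this
    obtain ⟨δ, hδ, h⟩ := this ε hε
    refine ⟨δ / 2, by positivity, fun t t' htt => ?_⟩
    have h2 : dist (t : UnitAddCircle) (t' : UnitAddCircle) < δ := by
      rw [dist_eq_norm, ← AddCircle.coe_sub]
      exact lt_of_le_of_lt (coe_norm_le _) (by linarith)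
    exact (h h2).le
  choose δ hδ0 hδ using huc
  have hεpos : ∀ k : ℕ, (0 : ℝ) < (1 / 2) ^ (k + 1) / ((k : ℝ) + 2) ^ 2 := fun k => by positivity
  set c : ℕ → ℝ := fun k => min (δ _ (hεpos k)) ((1 / 2) ^ (k + 1) / ((k : ℝ) + 2)) with hcdef
  have hc : ∀ k, 0 < c k := fun k => lt_min (hδ0 _ _) (by positivity)
  have hck : ∀ k, c k * ((k : ℝ) + 2) ≤ (1 / 2) ^ (k + 1) := by
    intro k
    have h1 : c k ≤ (1 / 2) ^ (k + 1) / ((k : ℝ) + 2) := min_le_right _ _
    have h2 : (0 : ℝ) < (k : ℝ) + 2 := by positivity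
    rwa [le_div_iff₀ h2] at h1
  have hcle : ∀ k, c k ≤ (1 / 2) ^ (k + 1) := by
    intro k
    have h1 := hck k
    have h2 := hc k
    have h3 : (0 : ℝ) ≤ k := Nat.cast_nonneg k
    nlinarith
  have hgeo : HasSum (fun k : ℕ => (1 / 2 : ℝ) ^ (k + 1)) 1 := by
    refine (hasSum_geometric_two' 1).congr_fun ?_ |> fun h => h
    intro k
    rw [pow_succ, one_div_pow]
    field_simp
  have hcs : Summable c := Summable.of_nonneg_of_le (fun k => (hc k).le) hcle hgeo.summable
  have hc1 : ∑' k, c k ≤ 1 := by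
    rw [← hgeo.tsum_eq]
    exact hcs.tsum_le_tsum hcle hgeo.summable
  have hcΦ : ∀ k, ∀ t t', |t - t'| ≤ c k →
      |Φ t - Φ t'| ≤ (1 / 2) ^ (k + 1) / ((k : ℝ) + 2) ^ 2 := by
    intro k t t' h
    exact hδ _ (hεpos k) t t' (h.trans (min_le_left _ _))
  obtain ⟨h, hh, hhold⟩ := exists_homeo hb ha ha1 hab hc hck hcs hc1
  refine ⟨h, hhold, ?_⟩
  have hcontR := hR_cont hb ha ha1 hab hc hck hcs hc1
  -- the coefficient bound
  set D : ℝ := (2 * ‖f‖ + 1) * (2 * b) with hD
  have hb0 : 0 < b := by linarith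
  have hD0 : 0 ≤ D := by positivity
  have hcoef : ∀ n : ℤ, n ≠ 0 →
      ‖fourierCoeff (fun x : UnitAddCircle => ((f (h x) : ℝ) : ℂ)) n‖ ≤ D * |(n : ℝ)| ^ (-β) := by
    intro n hn
    have hn1 : (1 : ℝ) ≤ |(n : ℝ)| := by
      rw [← Int.cast_abs]; exact_mod_cast Int.one_le_abs hn
    have e1 : fourierCoeff (fun x : UnitAddCircle => ((f (h x) : ℝ) : ℂ)) n =
        ∫ x in (0 : ℝ)..1, (Φ (hR b c x) : ℂ) * E n x := by
      rw [fourierCoeff_eq_intervalIntegral _ n 0]
      simp only [zero_add, div_one, one_smul]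
      rw [intervalIntegral.integral_of_le zero_le_one, intervalIntegral.integral_of_le zero_le_one,
        integral_Ioc_eq_integral_Ioo, integral_Ioc_eq_integral_Ioo]
      refine setIntegral_congr_fun measurableSet_Ioo (fun x hx => ?_)
      rw [hh x (Ioo_subset_Ico_self hx), fourier_coe_apply, smul_eq_mul, mul_comm]
      unfold E
      simp only [hΦdef, Complex.ofReal_one, div_one]
    have e2 : ∫ x in (0 : ℝ)..1, (Φ (hR b c x) : ℂ) * E n x =
        ∫ x : ℝ, ((Φ (hR b c x) - Φ 0 : ℝ) : ℂ) * E n x := by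
      have i1 : IntervalIntegrable (fun x : ℝ => ((Φ (hR b c x) - Φ 0 : ℝ) : ℂ) * E n x) volume 0 1 := by
        refine Continuous.intervalIntegrable ?_ _ _
        exact (Complex.continuous_ofReal.comp ((hΦ.comp hcontR).sub continuous_const)).mul (E_cont n)
      have i2 : IntervalIntegrable (fun x : ℝ => ((Φ 0 : ℝ) : ℂ) * E n x) volume 0 1 := by
        refine Continuous.intervalIntegrable ?_ _ _
        exact continuous_const.mul (E_cont n)
      have e3 : ∫ x in (0 : ℝ)..1, (Φ (hR b c x) : ℂ) * E n x =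
          ∫ x in (0 : ℝ)..1, (((Φ (hR b c x) - Φ 0 : ℝ) : ℂ) * E n x + ((Φ 0 : ℝ) : ℂ) * E n x) := by
        congr 1; ext x; push_cast; ring
      rw [e3, intervalIntegral.integral_add i1 i2, intervalIntegral.integral_const_mul,
        integral_E_zero hn, mul_zero, add_zero, intervalIntegral.integral_of_le zero_le_one]
      refine setIntegral_eq_integral_of_forall_compl_eq_zero (fun x hx => ?_)
      rw [mem_Ioc, not_and_or, not_lt, not_le] at hx
      rcases hx with h | h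
      · rw [hR_of_nonpos hb c h, sub_self]; simp
      · rw [hR_of_one_le hb c h.le, h01, sub_self]; simp
    rw [e1, e2]
    refine (limit_bound hb hΦ h01 hM hc hcs hcΦ hβ0 hβ1 hbβ hn).trans ?_
    rw [← hD]
    refine mul_le_mul_of_nonneg_left ?_ hD0
    have hnpos : (0 : ℝ) < |(n : ℝ)| := by linarith
    rw [Real.rpow_neg hnpos.le, ← Real.inv_rpow hnpos.le]
    refine Real.rpow_le_rpow (by positivity) ?_ hβ0.le
    rw [one_div]
    exact inv_anti₀ hnpos (by linarith)
  have hsum : Summable (fun n : ℤ => D ^ p * |(n : ℝ)| ^ (-(β * p))) :=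
    (Real.summable_abs_int_rpow hβp).mul_left _
  refine Summable.of_norm_bounded_eventually hsum ?_
  have : ∀ᶠ n : ℤ in cofinite, n ≠ 0 := by
    rw [eventually_cofinite]
    simp
  filter_upwards [this] with n hn
  rw [Real.norm_eq_abs, abs_of_nonneg (by positivity)]
  refine (Real.rpow_le_rpow (norm_nonneg _) (hcoef n hn) (by linarith)).trans (le_of_eq ?_)
  rw [Real.mul_rpow hD0 (by positivity), ← Real.rpow_mul (abs_nonneg _)]
  congr 2
  ring

end

end Pool.Agent.H629R3.Stair
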